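import Mathlib

/-! Order automorphisms of the rationals: patching, extension and lattice operations. -/

open Set

namespace Pool.Agent.P.MP_f0e779_lc

/-- the group of order automorphisms of the rationals -/
abbrev A := ℚ ≃o ℚ

/-- `g` is the identity outside `U` -/
def Supp (U : Set ℚ) (g : A) : Prop := ∀ x, x ∉ U → g x = x

theorem A.mul_apply (g h : A) (x : ℚ) : (g * h) x = g (h x) := rfl
theorem A.one_apply (x : ℚ) : (1 : A) x = x := rfl
theorem A.inv_apply (g : A) (x : ℚ) : g⁻¹ (g x) = x := g.symm_apply_apply x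
theorem A.apply_inv (g : A) (x : ℚ) : g (g⁻¹ x) = x := g.apply_symm_apply x

theorem A.inv_eq {g : A} {x y : ℚ} (h : g x = y) : g⁻¹ y = x := by rw [← h, A.inv_apply]

theorem Supp.mem {U : Set ℚ} {g : A} (h : Supp U g) {x : ℚ} (hx : x ∈ U) : g x ∈ U := by
  by_contra hc
  have := g.injective (h _ hc)
  exact hc (this.symm ▸ hx)

theorem Supp.inv {U : Set ℚ} {g : A} (h : Supp U g) : Supp U g⁻¹ :=
  fun x hx => A.inv_eq (h x hx)

theorem Supp.mul {U : Set ℚ} {g h : A} (hg : Supp U g) (hh : Supp U h) : Supp U (g * h) :=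
  fun x hx => by rw [A.mul_apply, hh x hx, hg x hx]

theorem Supp.mono {U V : Set ℚ} {g : A} (h : Supp U g) (hUV : U ⊆ V) : Supp V g :=
  fun x hx => h x fun h' => hx (hUV h')

theorem supp_one (U : Set ℚ) : Supp U 1 := fun _ _ => rfl

theorem Supp.pow {U : Set ℚ} {g : A} (h : Supp U g) (n : ℕ) : Supp U (g ^ n) := by
  induction n with
  | zero => exact supp_one U
  | succ n ih => rw [pow_succ]; exact ih.mul h

theorem patch {J : Type*} (U : J → Set ℚ) (hU : Pairwise fun i j => Disjoint (U i) (U j))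
    (g : J → A) (hg : ∀ j, Supp (U j) (g j)) :
    ∃ h : A, (∀ j, ∀ x ∈ U j, h x = g j x) ∧ Supp (⋃ j, U j) h := by
  classical
  let f : ℚ → ℚ := fun x => if hx : ∃ j, x ∈ U j then g hx.choose x else x
  have h1 : ∀ j, ∀ x ∈ U j, f x = g j x := fun j x hx => by
    have h : ∃ j, x ∈ U j := ⟨j, hx⟩
    have : h.choose = j := by
      by_contra hc
      exact disjoint_left.1 (hU hc) h.choose_spec hx
    simp only [f, dif_pos h, this]
  have h2 : ∀ x, (¬ ∃ j, x ∈ U j) → f x = x := fun x hx => by simp only [f, dif_neg hx]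
  have hm : StrictMono f := by
    intro x y hxy
    by_cases hx : ∃ j, x ∈ U j
    · obtain ⟨i, hi⟩ := hx
      by_cases hy : ∃ j, y ∈ U j
      · obtain ⟨j, hj⟩ := hy
        rw [h1 i x hi, h1 j y hj]
        by_cases hij : i = j
        · subst hij; exact (g i).strictMono hxy
        · have a1 : g i y = y := hg i y fun h => disjoint_left.1 (hU hij) h hj
          have a2 : g j (g i x) = g i x :=
            hg j _ fun h => disjoint_left.1 (hU hij) ((hg i).mem hi) h
          rw [← a2]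
          exact (g j).strictMono (a1 ▸ (g i).strictMono hxy)
      · rw [h1 i x hi, h2 y hy, ← hg i y fun h => hy ⟨i, h⟩]
        exact (g i).strictMono hxy
    · by_cases hy : ∃ j, y ∈ U j
      · obtain ⟨j, hj⟩ := hy
        rw [h1 j y hj, h2 x hx, ← hg j x fun h => hx ⟨j, h⟩]
        exact (g j).strictMono hxy
      · rwa [h2 x hx, h2 y hy]
  have hs : Function.Surjective f := by
    intro y
    by_cases hy : ∃ j, y ∈ U j
    · obtain ⟨j, hj⟩ := hy
      exact ⟨(g j)⁻¹ y, by rw [h1 j _ ((hg j).inv.mem hj), A.apply_inv]⟩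
    · exact ⟨y, h2 y hy⟩
  exact ⟨hm.orderIsoOfSurjective f hs, h1, fun x hx => h2 x (by simpa using hx)⟩

/-- `g` extends the finite order isomorphism `s` -/
def Ext (g : A) (s : Order.PartialIso ℚ ℚ) : Prop := ∀ x ∈ s.1, g x.1 = x.2

theorem generic (D : ℕ → Set (Order.PartialIso ℚ ℚ)) (hD : ∀ n s, ∃ t ∈ D n, s ≤ t)
    (p : Order.PartialIso ℚ ℚ) : ∃ g : A, Ext g p ∧ ∀ n, ∃ s ∈ D n, Ext g s := by
  let c : (ℚ ⊕ ℚ) ⊕ ℕ → Order.Cofinal (Order.PartialIso ℚ ℚ) := fun x =>
    Sum.elim (Sum.elim (Order.PartialIso.definedAtLeft ℚ) (Order.PartialIso.definedAtRight ℚ))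
      (fun n => ⟨D n, hD n⟩) x
  let I := Order.idealOfCofinals p c
  let F a := Order.PartialIso.funOfIdeal a I
    (Order.cofinal_meets_idealOfCofinals p c (Sum.inl (Sum.inl a)))
  let G b := Order.PartialIso.invOfIdeal b I
    (Order.cofinal_meets_idealOfCofinals p c (Sum.inl (Sum.inr b)))
  let g : A := OrderIso.ofCmpEqCmp (fun a => (F a).val) (fun b => (G b).val) fun a b => by
    rcases (F a).prop with ⟨f, hf, ha⟩
    rcases (G b).prop with ⟨g, hg, hb⟩
    rcases I.directed _ hf _ hg with ⟨m, _, fm, gm⟩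
    exact m.prop (a, _) (fm ha) (_, b) (gm hb)
  have key : ∀ s ∈ I, Ext g s := by
    rintro s hs ⟨a, b⟩ hab
    change (F a).val = b
    rcases (F a).prop with ⟨f, hf, ha⟩
    rcases I.directed _ hf _ hs with ⟨m, _, fm, gm⟩
    have := m.prop (a, _) (fm ha) (a, b) (gm hab)
    simp only [cmp_self_eq_eq] at this
    exact (cmp_eq_eq_iff _ _).1 this.symm
  refine ⟨g, key p (Order.mem_idealOfCofinals p c), fun n => ?_⟩
  obtain ⟨s, h1, h2⟩ := Order.cofinal_meets_idealOfCofinals p c (Sum.inr n)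
  exact ⟨s, h1, key s h2⟩

theorem ext_tuple {k : ℕ} {a b : Fin k → ℚ} (ha : StrictMono a) (hb : StrictMono b) :
    ∃ g : A, ∀ i, g (a i) = b i := by
  classical
  obtain ⟨g, h, -⟩ := generic (fun _ => univ) (fun _ s => ⟨s, trivial, le_rfl⟩)
    ⟨Finset.univ.image fun i => (a i, b i), by
      simp only [Finset.mem_image, Finset.mem_univ, true_and]
      rintro _ ⟨i, rfl⟩ _ ⟨j, rfl⟩
      exact (ha.cmp_map_eq i j).trans (hb.cmp_map_eq i j).symm⟩
  exact ⟨g, fun i => h (a i, b i) (Finset.mem_image_of_mem _ (Finset.mem_univ i))⟩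

theorem restrict {g : A} {a d : ℚ} (ha : g a = a) (hd : g d = d) :
    ∃ h : A, Supp (Ioo a d) h ∧ ∀ x ∈ Ioo a d, h x = g x := by
  classical
  have hmem : ∀ g : A, g a = a → g d = d → ∀ x ∈ Ioo a d, g x ∈ Ioo a d := fun g h1 h2 x hx =>
    ⟨h1 ▸ g.strictMono hx.1, h2 ▸ g.strictMono hx.2⟩
  let f : ℚ → ℚ := fun x => if x ∈ Ioo a d then g x else x
  have hm : StrictMono f := by
    intro x y hxy
    by_cases hx : x ∈ Ioo a d <;> by_cases hy : y ∈ Ioo a d <;> simp only [f, hx, hy, if_true,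
      if_false]
    · exact g.strictMono hxy
    · have : d ≤ y := by
        by_contra hc
        exact hy ⟨hx.1.trans hxy, lt_of_not_ge hc⟩
      exact (hmem g ha hd x hx).2.trans_le this
    · have : x ≤ a := by
        by_contra hc
        exact hx ⟨lt_of_not_ge hc, hxy.trans hy.2⟩
      exact this.trans_lt (hmem g ha hd y hy).1
    · exact hxy
  have hs : Function.Surjective f := by
    intro y
    by_cases hy : y ∈ Ioo a d
    · exact ⟨g⁻¹ y, by
        simp only [f, hmem g⁻¹ (A.inv_eq ha) (A.inv_eq hd) y hy, if_true, A.apply_inv]⟩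
    · exact ⟨y, if_neg hy⟩
  exact ⟨hm.orderIsoOfSurjective f hs, fun x hx => if_neg hx, fun x hx => if_pos hx⟩

theorem move2 {a d y z y' z' : ℚ} (h1 : a < y) (h2 : y < z) (h3 : z < d) (h4 : a < y')
    (h5 : y' < z') (h6 : z' < d) : ∃ t : A, Supp (Ioo a d) t ∧ t y = y' ∧ t z = z' := by
  obtain ⟨g, hg⟩ := ext_tuple (a := ![a, y, z, d]) (b := ![a, y', z', d])
    (by refine Fin.strictMono_iff_lt_succ.2 fun i => ?_; fin_cases i <;> simpa)
    (by refine Fin.strictMono_iff_lt_succ.2 fun i => ?_; fin_cases i <;> simpa)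
  obtain ⟨t, a1, a2⟩ := restrict (g := g) (a := a) (d := d) (hg 0) (hg 3)
  exact ⟨t, a1, (a2 y ⟨h1, h2.trans h3⟩).trans (hg 1), (a2 z ⟨h1.trans h2, h3⟩).trans (hg 2)⟩

theorem move1 {a d y y' : ℚ} (h : y ∈ Ioo a d) (h' : y' ∈ Ioo a d) :
    ∃ t : A, Supp (Ioo a d) t ∧ t y = y' := by
  obtain ⟨z, h1, h2⟩ := exists_between (max_lt h.2 h'.2)
  obtain ⟨t, a1, a2, -⟩ := move2 h.1 (lt_of_le_of_lt (le_max_left _ _) h1) h2 h'.1
    (lt_of_le_of_lt (le_max_right _ _) h1) h2
  exact ⟨t, a1, a2⟩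

theorem exists_max (u v : A) : ∃ h : A, ∀ x, h x = max (u x) (v x) := by
  have hm : StrictMono fun x => max (u x) (v x) := fun x y h =>
    max_lt_max (u.strictMono h) (v.strictMono h)
  refine ⟨hm.orderIsoOfSurjective _ fun y => ?_, fun _ => rfl⟩
  rcases le_total (u⁻¹ y) (v⁻¹ y) with h | h
  · refine ⟨u⁻¹ y, ?_⟩
    have := v.monotone h
    rw [A.apply_inv] at this
    simp only [A.apply_inv, max_eq_left this]
  · refine ⟨v⁻¹ y, ?_⟩
    have := u.monotone h
    rw [A.apply_inv] at this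
    simp only [A.apply_inv, max_eq_right this]

theorem exists_min (u v : A) : ∃ h : A, ∀ x, h x = min (u x) (v x) := by
  have hm : StrictMono fun x => min (u x) (v x) := fun x y h =>
    min_lt_min (u.strictMono h) (v.strictMono h)
  refine ⟨hm.orderIsoOfSurjective _ fun y => ?_, fun _ => rfl⟩
  rcases le_total (u⁻¹ y) (v⁻¹ y) with h | h
  · refine ⟨v⁻¹ y, ?_⟩
    have := u.monotone h
    rw [A.apply_inv] at this
    simp only [A.apply_inv, min_eq_right this]
  · refine ⟨u⁻¹ y, ?_⟩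
    have := v.monotone h
    rw [A.apply_inv] at this
    simp only [A.apply_inv, min_eq_left this]

theorem split {a b : ℚ} (h : a < b) : ∃ s : ℕ → ℚ, StrictMono s ∧ ∀ n, s n ∈ Ioo a b := by
  obtain ⟨s, h1, h2, -⟩ := exists_seq_strictMono_tendsto' h
  exact ⟨s, h1, h2⟩

theorem disjoint_Ioo_of_strictMono {ι : Type*} [LinearOrder ι] [SuccOrder ι] {s : ι → ℚ}
    (hs : Monotone s) {m n : ι} (h : m ≠ n) :
    Disjoint (Ioo (s m) (s (Order.succ m))) (Ioo (s n) (s (Order.succ n))) := by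
  refine disjoint_left.2 fun x h1 h2 => ?_
  rcases lt_or_gt_of_ne h with h | h
  · exact lt_irrefl _ (h1.2.trans_le ((hs (Order.succ_le_of_lt h)).trans h2.1.le))
  · exact lt_irrefl _ (h2.2.trans_le ((hs (Order.succ_le_of_lt h)).trans h1.1.le))

theorem conj_eq {U : Set ℚ} {g h f : A} (hh : Supp U h) (hf : Supp U f)
    (hg : ∀ x ∈ U, g x = h x) : g * f * g⁻¹ = h * f * h⁻¹ := by
  ext x
  simp only [A.mul_apply]
  by_cases hx : x ∈ U
  · have h1 : h⁻¹ x ∈ U := hh.inv.mem hx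
    have h2 : g⁻¹ x = h⁻¹ x := A.inv_eq (by rw [hg _ h1, A.apply_inv])
    rw [h2, hg _ (hf.mem h1)]
  · have h1 : g⁻¹ x ∉ U := fun h1 => hx (by
      have := hh.mem h1
      rwa [← hg _ h1, A.apply_inv] at this)
    rw [hf _ h1, A.apply_inv, hh.inv x hx, hf x hx, hh x hx]

end Pool.Agent.P.MP_f0e779_lc
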