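import Pool.Agent.P.MP_f0e779_lc.Steinhaus
import Pool.Agent.P.MP_61d55c_co.Ramsey

/-! Every action of the group of order automorphisms of the rationals by homeomorphisms of a
compact metric space has a fixed point (Rosendal and Solecki, Pestov). -/

open Set

namespace Pool.Agent.P.MP_f0e779_lc

variable {l : A → ℝ} {χ : A → ℕ}

theorem Len.sparse (H : Len l χ) : ∃ F : Finset ℚ, ∀ (J : Type) (a' a b b' : J → ℚ),
    (∀ j, a' j < a j ∧ a j < b j ∧ b j < b' j) →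
    (Pairwise fun i j => Disjoint (Ioo (a' i) (b' i)) (Ioo (a' j) (b' j))) →
    (∀ j, ∀ x ∈ F, x ∉ Ioo (a' j) (b' j)) →
    ∀ h, Supp (⋃ j, Ioo (a j) (b j)) h → l h ≤ 12 := by
  classical
  obtain ⟨F, hF⟩ := H.baire
  refine ⟨F, fun J a' a b b' hab hd hFd h hh => ?_⟩
  have hsub : ∀ j, Ioo (a j) (b j) ⊆ Ioo (a' j) (b' j) := fun j =>
    Ioo_subset_Ioo (hab j).1.le (hab j).2.2.le
  have ha : ∀ j, a j ∈ Ioo (a' j) (b' j) := fun j => ⟨(hab j).1, (hab j).2.1.trans (hab j).2.2⟩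
  have hb : ∀ j, b j ∈ Ioo (a' j) (b' j) := fun j => ⟨(hab j).1.trans (hab j).2.1, (hab j).2.2⟩
  let ρ : J → ℕ := fun j => Encodable.encode (a j)
  have hρ : Function.Injective ρ := fun i j hij => by
    by_contra hc
    exact disjoint_left.1 (hd hc) (ha i) (Encodable.encode_injective hij ▸ ha j)
  obtain ⟨m, hm⟩ := H.tail a' a b b' hab hd ρ
  have hfin : Finite {j // ρ j < m} :=
    Finite.of_injective (fun j : {j // ρ j < m} => (⟨ρ j, j.2⟩ : Fin m)) fun i j hij =>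
      Subtype.ext (hρ (congrArg Fin.val hij))
  have hdS : Pairwise fun i j : {j // ρ j < m} =>
      Disjoint (Ioo (a' i) (b' i)) (Ioo (a' j) (b' j)) := fun i j hij =>
    hd (Subtype.coe_ne_coe.2 hij)
  -- the finite part
  have hc : ∀ h, Supp (⋃ j : {j // ρ j < m}, Ioo (a j) (b j)) h → l h ≤ 6 := by
    obtain ⟨y, z, h1, h2⟩ := H.good (fun j : {j // ρ j < m} => a j) (fun j => b j)
      (fun j => (hab j).2.1) fun i j hij => (hdS hij).mono (hsub _) (hsub _)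
    choose t t1 t2 t3 using fun j : {j // ρ j < m} => move2 ((hab j).1.trans (h1 j).1) (h1 j).2.1
      ((h1 j).2.2.trans (hab j).2.2) (hab j).1 (hab j).2.1 (hab j).2.2
    obtain ⟨k, k1, k2⟩ := patch _ hdS t t1
    have := Fintype.ofFinite {j // ρ j < m}
    obtain ⟨g, g1, g2⟩ := hF k (fun x hx => k2 x (by
      simp only [mem_iUnion, not_exists]
      exact fun j => hFd j x hx)) (Finset.univ.image y ∪ Finset.univ.image z)
    have g3 : ∀ j, g (y j) = a j := fun j => by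
      rw [g2 _ (by simp), k1 j _ (hsub _ ⟨(h1 j).1, (h1 j).2.1.trans (h1 j).2.2⟩), t2]
    have g4 : ∀ j, g (z j) = b j := fun j => by
      rw [g2 _ (by simp), k1 j _ (hsub _ ⟨(h1 j).1.trans (h1 j).2.1, (h1 j).2.2⟩), t3]
    intro h hh
    have key : Supp (⋃ j, Ioo (y j) (z j)) (g⁻¹ * h * g) := by
      intro x hx
      rw [A.mul_apply, A.mul_apply, hh, A.inv_apply]
      intro h3
      obtain ⟨j, j2⟩ := mem_iUnion.1 h3
      rw [← g3, ← g4] at j2
      exact hx (mem_iUnion.2 ⟨j, g.lt_iff_lt.1 j2.1, g.lt_iff_lt.1 j2.2⟩)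
    have a1 := H.conj' g h
    have a2 := h2 _ key
    linarith
  have hfix : ∀ j, ∀ x ∈ Ioo (a' j) (b' j), x ∉ Ioo (a j) (b j) → h x = x := by
    intro j x h1 h2
    refine hh x fun h3 => ?_
    obtain ⟨i, hi⟩ := mem_iUnion.1 h3
    by_cases hij : i = j
    · exact h2 (hij ▸ hi)
    · exact disjoint_left.1 (hd hij) (hsub i hi) h1
  choose r r1 r2 using fun j => restrict (hfix j _ (ha j) fun h => lt_irrefl _ h.1)
    (hfix j _ (hb j) fun h => lt_irrefl _ h.2)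
  obtain ⟨k, k1, k2⟩ := patch (fun j : {j // ρ j < m} => Ioo (a j) (b j))
    (fun i j hij => (hdS hij).mono (hsub _) (hsub _)) (fun j => r j) fun j => r1 j
  have key : Supp (⋃ j, ⋃ _ : m ≤ ρ j, Ioo (a j) (b j)) (k⁻¹ * h) := by
    intro x hx
    rw [A.mul_apply]
    refine A.inv_eq ?_
    by_cases h1 : x ∈ ⋃ j, Ioo (a j) (b j)
    · obtain ⟨j, hj⟩ := mem_iUnion.1 h1
      have h2 : ρ j < m := by
        by_contra h2
        exact hx (mem_iUnion.2 ⟨j, mem_iUnion.2 ⟨not_lt.1 h2, hj⟩⟩)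
      rw [k1 ⟨j, h2⟩ x hj, r2 j x hj]
    · rw [hh x h1, k2 x fun h2 => h1 ?_]
      obtain ⟨j, hj⟩ := mem_iUnion.1 h2
      exact mem_iUnion.2 ⟨j, hj⟩
  have a1 := H.mul k (k⁻¹ * h)
  rw [mul_inv_cancel_left] at a1
  have a2 := hm _ key
  have a3 := hc _ k2
  linarith

theorem exists_up {α : Type} [LinearOrder α] [Countable α] (C : Set α) (g₁ g₂ : α → α)
    (h1 : ∀ x ∈ C, g₁ x ∈ C) (h2 : ∀ x ∈ C, g₂ x ∈ C) (h3 : ∀ x ∈ C, ∃ y ∈ C, x < y)
    {x₀ : α} (h0 : x₀ ∈ C) : ∃ s : ℕ → α, s 0 = x₀ ∧ (∀ n, s n ∈ C ∧ s n < s (n + 1) ∧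
      g₁ (s n) < s (n + 1) ∧ g₂ (s n) < s (n + 1)) ∧ ∀ y ∈ C, ∃ n, y < s n := by
  have : Nonempty C := ⟨⟨x₀, h0⟩⟩
  obtain ⟨e, he⟩ := exists_surjective_nat C
  have hmax : ∀ x ∈ C, ∀ y ∈ C, max x y ∈ C := fun x hx y hy => by
    rcases max_choice x y with h | h <;> rwa [h]
  have step : ∀ (n : ℕ) (x : C), ∃ y : C, x.1 < y ∧ g₁ x < y ∧ g₂ x < y ∧ (e n).1 < y := by
    intro n x
    obtain ⟨y, hy, h⟩ := h3 _ (hmax _ x.2 _ (hmax _ (h1 _ x.2) _ (hmax _ (h2 _ x.2) _ (e n).2)))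
    simp only [max_lt_iff] at h
    exact ⟨⟨y, hy⟩, h⟩
  choose f hf using step
  let s : ℕ → C := fun n => Nat.rec ⟨x₀, h0⟩ f n
  refine ⟨fun n => (s n).1, rfl, fun n => ⟨(s n).2, (hf n (s n)).1, (hf n (s n)).2.1,
    (hf n (s n)).2.2.1⟩, fun y hy => ?_⟩
  obtain ⟨n, hn⟩ := he ⟨y, hy⟩
  exact ⟨n + 1, by simpa [hn] using (hf n (s n)).2.2.2⟩

theorem exists_zseq (C : Set ℚ) (g : A) (h1 : ∀ x ∈ C, g x ∈ C) (h2 : ∀ x ∈ C, g⁻¹ x ∈ C)
    (h3 : ∀ x ∈ C, ∃ y ∈ C, x < y) (h4 : ∀ x ∈ C, ∃ y ∈ C, y < x) (h0 : C.Nonempty) :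
    ∃ x : ℤ → ℚ, StrictMono x ∧ (∀ n, x n ∈ C ∧ g (x n) < x (n + 1) ∧ x n < g (x (n + 1))) ∧
      ∀ y ∈ C, ∃ n, x n ≤ y ∧ y < x (n + 1) := by
  obtain ⟨x₀, h0⟩ := h0
  obtain ⟨s, s0, s1, s2⟩ := exists_up C g ⇑g⁻¹ h1 h2 h3 h0
  have : Countable ℚᵒᵈ := inferInstanceAs (Countable ℚ)
  obtain ⟨t, t0, t1, t2⟩ := exists_up (α := ℚᵒᵈ) C g ⇑g⁻¹ h1 h2 h4 h0
  let x : ℤ → ℚ := fun n => Int.rec s (fun k => t (k + 1)) n
  have key : ∀ n, x n ∈ C ∧ x n < x (n + 1) ∧ g (x n) < x (n + 1) ∧ x n < g (x (n + 1)) := by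
    intro n
    have e : ∀ k, (OrderDual.ofDual (t (k + 1)) : ℚ) ∈ C ∧
        (OrderDual.ofDual (t (k + 1)) : ℚ) < OrderDual.ofDual (t k) ∧
        g (OrderDual.ofDual (t (k + 1))) < OrderDual.ofDual (t k) ∧
        OrderDual.ofDual (t (k + 1)) < g (OrderDual.ofDual (t k)) := fun k =>
      ⟨(t1 (k + 1)).1, (t1 k).2.1, by
        have : (OrderDual.ofDual (t (k + 1)) : ℚ) < g⁻¹ (OrderDual.ofDual (t k)) := (t1 k).2.2.2
        have := g.strictMono this
        rwa [A.apply_inv] at this, (t1 k).2.2.1⟩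
    match n with
    | (k : ℕ) =>
      refine ⟨(s1 k).1, (s1 k).2.1, (s1 k).2.2.1, ?_⟩
      have := g.strictMono (s1 k).2.2.2
      rwa [A.apply_inv] at this
    | Int.negSucc 0 =>
      have := e 0
      rw [t0, ← s0] at this
      exact this
    | Int.negSucc (k + 1) => exact e (k + 1)
  have hm : StrictMono x := strictMono_int_of_lt_succ fun n => (key n).2.1
  refine ⟨x, hm, fun n => ⟨(key n).1, (key n).2.2⟩, fun y hy => ?_⟩
  obtain ⟨n, hn⟩ := s2 y hy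
  obtain ⟨k, hk⟩ := t2 y hy
  have hk' : x (Int.negSucc k) ≤ y := 
    (show (OrderDual.ofDual (t (k + 1)) : ℚ) < y from hk.trans (t1 k).2.1).le
  obtain ⟨i, i1, i2⟩ := Int.exists_greatest_of_bdd (P := fun i => x i ≤ y)
    ⟨n, fun z hz => (hm.lt_iff_lt.1 (hz.trans_lt hn)).le⟩ ⟨Int.negSucc k, hk'⟩
  refine ⟨i, i1, ?_⟩
  by_contra hc
  have := i2 _ (not_lt.1 hc)
  omega

/-- the component of `x` in the complement of `F` -/
def comp (F : Finset ℚ) (x : ℚ) : Set ℚ := {y | y ∉ F ∧ ∀ f ∈ F, (f < y ↔ f < x)}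

theorem Len.steinhaus (H : Len l χ) : ∃ F : Finset ℚ, ∀ g : A, (∀ x ∈ F, g x = x) → l g ≤ 24 := by
  classical
  obtain ⟨F, hF⟩ := H.sparse
  refine ⟨F, fun g hg => ?_⟩
  let ι := {C : Set ℚ // ∃ x ∉ F, C = comp F x}
  have hinv : ∀ g : A, (∀ x ∈ F, g x = x) → ∀ x, ∀ y ∈ comp F x, g y ∈ comp F x := by
    intro g hg x y hy
    refine ⟨fun h => hy.1 ?_, fun f hf => ?_⟩
    · rwa [← g.injective (hg _ h)]
    · rw [← hy.2 f hf, ← g.lt_iff_lt (x := f) (y := y), hg f hf]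
  have hconv : ∀ c : ι, ∀ u ∈ c.1, ∀ v ∈ c.1, ∀ y, u ≤ y → y ≤ v → y ∈ c.1 := by
    rintro ⟨_, x, hx, rfl⟩ u hu v hv y h1 h2
    have : ∀ f ∈ F, ¬ f < u → v < f := fun f hf h => by
      have h3 : ¬ f < v := by rwa [hv.2 f hf, ← hu.2 f hf]
      exact lt_of_le_of_ne (not_lt.1 h3) fun h => hv.1 (h ▸ hf)
    refine ⟨fun h => ?_, fun f hf => ?_⟩
    · exact lt_irrefl _ ((this y h (not_lt.2 h1)).trans_le h2)
    · rw [← hu.2 f hf]
      refine ⟨fun h => ?_, fun h => h.trans_le h1⟩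
      by_contra h'
      exact lt_irrefl _ (((this f hf h').trans h).trans_le h2)
  have hdis : ∀ c d : ι, ∀ y, y ∈ c.1 → y ∈ d.1 → c = d := by
    rintro ⟨_, x, hx, rfl⟩ ⟨_, x', hx', rfl⟩ y h1 h2
    refine Subtype.ext (Set.ext fun z => and_congr_right fun _ => forall₂_congr fun f hf => ?_)
    rw [← h1.2 f hf, ← h2.2 f hf]
  have hnF : ∀ c : ι, ∀ y ∈ c.1, y ∉ F := by
    rintro ⟨_, x, hx, rfl⟩ y h
    exact h.1
  have hz : ∀ c : ι, ∃ x : ℤ → ℚ, StrictMono x ∧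
      (∀ n, x n ∈ c.1 ∧ g (x n) < x (n + 1) ∧ x n < g (x (n + 1))) ∧
      ∀ y ∈ c.1, ∃ n, x n ≤ y ∧ y < x (n + 1) := by
    rintro ⟨_, x, hx, rfl⟩
    refine exists_zseq _ g (hinv g hg x) (hinv g⁻¹ (fun x h => A.inv_eq (hg x h)) x)
      (fun y hy => ?_) (fun y hy => ?_) ⟨x, hx, fun _ _ => Iff.rfl⟩
    · obtain ⟨z, h1, h2⟩ := Order.exists_between_finsets {y} (F.filter fun f => y < f)
        (by simp)
      have h3 := h1 y (by simp)
      refine ⟨z, ⟨fun h => lt_irrefl _ (h2 z (by simp [h, h3])), fun f hf => ?_⟩, h3⟩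
      rw [← hy.2 f hf]
      refine ⟨fun h => ?_, fun h => h.trans h3⟩
      by_contra h'
      have h4 : y < f := lt_of_le_of_ne (not_lt.1 h') fun h => hy.1 (h ▸ hf)
      exact lt_asymm h (h2 f (by simp [hf, h4]))
    · obtain ⟨z, h1, h2⟩ := Order.exists_between_finsets (F.filter fun f => f < y) {y}
        (by simp)
      have h3 := h2 y (by simp)
      refine ⟨z, ⟨fun h => lt_irrefl _ (h1 z (by simp [h, h3])), fun f hf => ?_⟩, h3⟩
      rw [← hy.2 f hf]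
      exact ⟨fun h => h.trans h3, fun h => h1 f (by simp [hf, h])⟩
  choose x x1 x2 x3 using hz
  have hin : ∀ c m n y, y ∈ Ioo (x c m) (x c n) → y ∈ c.1 := fun c m n y hy =>
    hconv c _ (x2 c m).1 _ (x2 c n).1 y hy.1.le hy.2.le
  choose μ μ1 μ2 using fun (c : ι) (n : ℤ) => exists_between (x1 c (sub_one_lt n))
  have μ3 : ∀ c, Monotone (μ c) := fun c => (strictMono_int_of_lt_succ fun n =>
    (μ2 c n).trans (by simpa using μ1 c (n + 1))).monotone
  have hd : ∀ i : ℤ, Pairwise fun p q : ι × ℤ =>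
      Disjoint (Ioo (μ p.1 (4 * p.2 + i)) (μ p.1 (4 * p.2 + i + 4)))
        (Ioo (μ q.1 (4 * q.2 + i)) (μ q.1 (4 * q.2 + i + 4))) := by
    rintro i ⟨c, k⟩ ⟨d, k'⟩ hne
    refine disjoint_left.2 fun y h1 h2 => ?_
    obtain rfl : c = d := hdis c d y
      (hin c _ _ y ⟨(μ1 c _).trans h1.1, h1.2.trans (μ2 c _)⟩)
      (hin d _ _ y ⟨(μ1 d _).trans h2.1, h2.2.trans (μ2 d _)⟩)
    have hk : k ≠ k' := fun h => hne (by rw [h])
    rcases lt_or_gt_of_ne hk with hk | hk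
    · exact lt_irrefl _ ((h1.2.trans_le (μ3 c (by dsimp only; omega))).trans h2.1)
    · exact lt_irrefl _ ((h2.2.trans_le (μ3 c (by dsimp only; omega))).trans h1.1)
  have hab : ∀ (i : ℤ) (p : ι × ℤ), μ p.1 (4 * p.2 + i) < x p.1 (4 * p.2 + i) ∧
      x p.1 (4 * p.2 + i) < x p.1 (4 * p.2 + i + 3) ∧
      x p.1 (4 * p.2 + i + 3) < μ p.1 (4 * p.2 + i + 4) := fun i p =>
    ⟨μ2 _ _, x1 _ (by omega), by
      rw [show 4 * p.2 + i + 3 = 4 * p.2 + i + 4 - 1 by omega]; exact μ1 _ _⟩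
  have hS : ∀ (i : ℤ) (h : A),
      Supp (⋃ p : ι × ℤ, Ioo (x p.1 (4 * p.2 + i)) (x p.1 (4 * p.2 + i + 3))) h → l h ≤ 12 :=
    fun i => hF (ι × ℤ) _ _ _ _ (hab i) (hd i) fun p y hy h =>
      hnF p.1 y (hin _ _ _ y ⟨(μ1 _ _).trans h.1, h.2.trans (μ2 _ _)⟩) hy
  have hd' : Pairwise fun p q : ι × ℤ =>
      Disjoint (Ioo (x p.1 (4 * p.2 + -1)) (x p.1 (4 * p.2 + -1 + 3)))
        (Ioo (x q.1 (4 * q.2 + -1)) (x q.1 (4 * q.2 + -1 + 3))) := fun p q hpq =>
    (hd (-1) hpq).mono (Ioo_subset_Ioo (hab _ p).1.le (hab _ p).2.2.le)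
      (Ioo_subset_Ioo (hab _ q).1.le (hab _ q).2.2.le)
  have m1 : ∀ p : ι × ℤ, x p.1 (4 * p.2) ∈ Ioo (x p.1 (4 * p.2 + -1)) (x p.1 (4 * p.2 + -1 + 3)) :=
    fun p => ⟨x1 _ (by omega), x1 _ (by omega)⟩
  have m2 : ∀ p : ι × ℤ,
      x p.1 (4 * p.2 + 1) ∈ Ioo (x p.1 (4 * p.2 + -1)) (x p.1 (4 * p.2 + -1 + 3)) :=
    fun p => ⟨x1 _ (by omega), x1 _ (by omega)⟩
  choose tp tp1 tp2 using fun p : ι × ℤ => move1 (m1 p) (y' := g (x p.1 (4 * p.2 + 1)))
    ⟨(m1 p).1.trans (x2 _ _).2.2, (x2 _ _).2.1.trans_le ((x1 _).monotone (by omega))⟩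
  choose tm tm1 tm2 using fun p : ι × ℤ => move1 (m2 p) (y' := g (x p.1 (4 * p.2)))
    ⟨by simpa using (x2 p.1 (4 * p.2 + -1)).2.2, (x2 _ _).2.1.trans (m2 p).2⟩
  obtain ⟨Tp, Tp1, Tp2⟩ := patch _ hd' tp tp1
  obtain ⟨Tm, Tm1, Tm2⟩ := patch _ hd' tm tm1
  obtain ⟨v, hv⟩ := exists_max Tm g
  obtain ⟨h, hh⟩ := exists_min Tp v
  have s1 : Supp (⋃ p : ι × ℤ, Ioo (x p.1 (4 * p.2 + -1)) (x p.1 (4 * p.2 + -1 + 3))) h :=
    fun y hy => by rw [hh, hv, Tp2 y hy, Tm2 y hy, min_eq_left (le_max_left _ _)]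
  have core : ∀ (c : ι) (k : ℤ) y, x c (4 * k) ≤ y → y ≤ x c (4 * k + 1) → h y = g y := by
    intro c k y h1 h2
    have a1 : g y ≤ Tp y :=
      calc g y ≤ g (x c (4 * k + 1)) := g.monotone h2
        _ = Tp (x c (4 * k)) := by rw [Tp1 (c, k) _ (m1 (c, k)), tp2 (c, k)]
        _ ≤ _ := Tp.monotone h1
    have a2 : Tm y ≤ g y :=
      calc Tm y ≤ Tm (x c (4 * k + 1)) := Tm.monotone h2
        _ = g (x c (4 * k)) := by rw [Tm1 (c, k) _ (m2 (c, k)), tm2 (c, k)]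
        _ ≤ _ := g.monotone h1
    rw [hh, hv, max_eq_right a2, min_eq_right a1]
  have s2 : Supp (⋃ p : ι × ℤ, Ioo (x p.1 (4 * p.2 + 1)) (x p.1 (4 * p.2 + 1 + 3))) (h⁻¹ * g) := by
    intro y hy
    rw [A.mul_apply]
    refine A.inv_eq ?_
    by_cases hyF : y ∈ F
    · rw [hg y hyF, s1 y fun h => ?_]
      obtain ⟨p, hp⟩ := mem_iUnion.1 h
      exact hnF _ _ (hin _ _ _ _ hp) hyF
    · let c : ι := ⟨comp F y, y, hyF, rfl⟩
      obtain ⟨n, n1, n2⟩ := x3 c y ⟨hyF, fun _ _ => Iff.rfl⟩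
      refine core c (n / 4) y (((x1 c).monotone (by omega)).trans n1) ?_
      by_contra hc
      exact hy (mem_iUnion.2 ⟨(c, n / 4), not_le.1 hc,
        n2.trans_le ((x1 c).monotone (by dsimp only; omega))⟩)
  have a1 := H.mul h (h⁻¹ * g)
  rw [mul_inv_cancel_left] at a1
  have a2 := hS _ _ s1
  have a3 := hS _ _ s2
  linarith

theorem fixed_point {K : Type*} [MetricSpace K] [CompactSpace K] [Nonempty K] (φ : A → K → K)
    (hc : ∀ g, Continuous (φ g)) (h1 : ∀ x, φ 1 x = x)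
    (hm : ∀ g h x, φ (g * h) x = φ g (φ h x)) : ∃ x, ∀ g, φ g x = x := by
  classical
  have step1 : ∀ ε : ℝ, 0 < ε → ∃ F : Finset ℚ, ∀ g : A, (∀ x ∈ F, g x = x) →
      ∀ x, dist (φ g x) x ≤ 24 * ε := by
    intro ε hε
    let Φ : A → C(K, K) := fun g => ⟨φ g, hc g⟩
    have : Nonempty C(K, K) := ⟨ContinuousMap.id K⟩
    obtain ⟨u, hu⟩ := TopologicalSpace.exists_dense_seq C(K, K)
    choose χ hχ using fun g => hu.exists_dist_lt (Φ g⁻¹) (half_pos hε)
    have hle : ∀ g x, dist (φ g x) x ≤ dist (Φ g) (ContinuousMap.id K) := fun g x =>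
      ContinuousMap.dist_apply_le_dist (f := Φ g) (g := ContinuousMap.id K) x
    have hinv : ∀ g, dist (Φ g⁻¹) (ContinuousMap.id K) ≤ dist (Φ g) (ContinuousMap.id K) :=
      fun g => ContinuousMap.dist_le_iff_of_nonempty.2 fun x => by
        have := hle g (φ g⁻¹ x)
        rw [← hm, mul_inv_cancel, h1, dist_comm] at this
        exact this
    have H : Len (fun g => dist (Φ g) (ContinuousMap.id K) / ε) χ := by
      refine ⟨fun g h => ?_, fun g => ?_, fun g h e => ?_⟩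
      · rw [← add_div]
        refine div_le_div_of_nonneg_right
          (ContinuousMap.dist_le_iff_of_nonempty.2 fun x => ?_) hε.le
        change dist (φ (g * h) x) x ≤ _
        rw [hm]
        exact (dist_triangle _ (φ h x) _).trans (add_le_add (hle g _) (hle h _))
      · congr 1
        exact le_antisymm (hinv g) (by simpa using hinv g⁻¹)
      · rw [div_le_one hε]
        refine ContinuousMap.dist_le_iff_of_nonempty.2 fun x => ?_
        change dist (φ (g⁻¹ * h) x) x ≤ _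
        have a1 := hχ g
        have a2 := hχ h
        rw [← e] at a2
        have a3 : dist (Φ g⁻¹) (Φ h⁻¹) ≤ ε := by
          have := dist_triangle_right (Φ g⁻¹) (Φ h⁻¹) (u (χ g))
          linarith
        have a4 := (ContinuousMap.dist_apply_le_dist (f := Φ g⁻¹) (g := Φ h⁻¹) (φ h x)).trans a3
        change dist (φ g⁻¹ (φ h x)) (φ h⁻¹ (φ h x)) ≤ ε at a4
        rwa [← hm, ← hm, inv_mul_cancel, h1] at a4
    obtain ⟨F, hF⟩ := H.steinhaus
    exact ⟨F, fun g hg x => (hle g x).trans ((div_le_iff₀ hε).1 (hF g hg))⟩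
  have step2 : ∀ ε : ℝ, 0 < ε → ∀ S : Finset A, ∃ x, ∀ g ∈ S, dist (φ g x) x ≤ 50 * ε := by
    intro ε hε S
    obtain ⟨F, hF⟩ := step1 ε hε
    obtain ⟨x₀⟩ := ‹Nonempty K›
    let f := F.orderEmbOfFin rfl
    have hγ : ∀ t : Fin F.card → ℕ, ∃ γ : A, StrictMono t → ∀ i, γ (t i) = f i := fun t => by
      by_cases ht : StrictMono t
      · obtain ⟨γ, h⟩ := ext_tuple (a := fun i => (t i : ℚ)) (b := f)
          (fun i j hij => Nat.cast_lt.2 (ht hij)) f.strictMono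
        exact ⟨γ, fun _ => h⟩
      · exact ⟨1, fun h => absurd h ht⟩
    choose γ hγ using hγ
    obtain ⟨T, -, hT, hT'⟩ := finite_cover_balls_of_compact (isCompact_univ (X := K)) hε
    have hcol : ∀ x : K, ∃ c : T, dist x c < ε := fun x => by
      have := hT' (mem_univ x)
      simp only [mem_iUnion] at this
      obtain ⟨c, h1, h2⟩ := this
      exact ⟨⟨c, h1⟩, h2⟩
    choose col hcol using hcol
    have := hT.to_subtype
    let e := Finite.equivFin T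
    obtain ⟨H, -, hH, c, hc⟩ := MP_61d55c_co.ramsey_inf F.card
      (fun t => e (col (φ (γ t) x₀))) univ infinite_univ
    let B : Finset ℚ := (insert 1 S).biUnion fun g => F.image ⇑g⁻¹
    let β := B.orderEmbOfFin rfl
    obtain ⟨h, hh⟩ := ext_tuple (a := fun i : Fin B.card => (Nat.nth (· ∈ H) i : ℚ)) (b := β)
      (fun i j hij => Nat.cast_lt.2 (Nat.nth_strictMono (p := (· ∈ H)) hH hij)) β.strictMono
    have key : ∀ g ∈ insert 1 S, dist (φ (g * h) x₀) (e.symm c) ≤ 25 * ε := by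
      intro g hg
      have : ∀ i, ∃ n ∈ H, (g * h) (n : ℚ) = f i := fun i => by
        have h1 : g⁻¹ (f i) ∈ B := Finset.mem_biUnion.2
          ⟨g, hg, Finset.mem_image_of_mem _ (F.orderEmbOfFin_mem rfl i)⟩
        have h2 : g⁻¹ (f i) ∈ range β := by rwa [Finset.range_orderEmbOfFin]
        obtain ⟨j, hj⟩ := h2
        exact ⟨Nat.nth (· ∈ H) j, Nat.nth_mem_of_infinite (p := (· ∈ H)) hH j,
          by rw [A.mul_apply, hh, hj, A.apply_inv]⟩
      choose t t1 t2 using this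
      have t3 : StrictMono t := fun i j hij => by
        have := f.strictMono hij
        rw [← t2, ← t2, (g * h).lt_iff_lt] at this
        exact_mod_cast this
      have a1 := hF (g * h * (γ t)⁻¹) (fun x hx => by
        have h2 : x ∈ range f := by rwa [Finset.range_orderEmbOfFin]
        obtain ⟨i, rfl⟩ := h2
        rw [A.mul_apply, A.inv_eq (hγ t t3 i), t2]) (φ (γ t) x₀)
      rw [← hm, inv_mul_cancel_right] at a1
      have a2 := hcol (φ (γ t) x₀)
      rw [← hc t t3 t1, Equiv.symm_apply_apply]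
      have := dist_triangle (φ (g * h) x₀) (φ (γ t) x₀) (col (φ (γ t) x₀))
      linarith
    refine ⟨φ h x₀, fun g hg => ?_⟩
    have a1 := key g (Finset.mem_insert_of_mem hg)
    have a2 := key 1 (Finset.mem_insert_self _ _)
    rw [one_mul] at a2
    rw [hm] at a1
    have := dist_triangle_right (φ g (φ h x₀)) (φ h x₀) (e.symm c)
    linarith
  obtain ⟨x, hx⟩ := CompactSpace.iInter_nonempty
    (t := fun p : A × ℕ => {x | dist (φ p.1 x) x ≤ 1 / (p.2 + 1 : ℝ)})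
    (fun p => isClosed_le ((hc _).dist continuous_id) continuous_const) fun s => by
      obtain ⟨x, hx⟩ := step2 (1 / ((s.sup Prod.snd : ℕ) + 1 : ℝ) / 50) (by positivity)
        (s.image Prod.fst)
      refine ⟨x, mem_iInter₂.2 fun p hp => (hx _ (Finset.mem_image_of_mem _ hp)).trans ?_⟩
      rw [mul_div_cancel₀ _ (by norm_num)]
      have : p.2 ≤ s.sup Prod.snd := Finset.le_sup (f := Prod.snd) hp
      exact Nat.one_div_le_one_div this
  refine ⟨x, fun g => dist_le_zero.1 (le_of_forall_pos_le_add fun ε hε => ?_)⟩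
  obtain ⟨n, hn⟩ := exists_nat_one_div_lt hε
  have := mem_iInter.1 hx (g, n)
  rw [zero_add]
  exact le_trans this hn.le

/-- finitely supported sequences of automorphisms which are trivial below `m` -/
def FinS (m : ℕ) (g : ℕ → A) : Prop := (∀ n < m, g n = 1) ∧ ∃ k, ∀ n ≥ k, g n = 1

theorem fixed_point_seq {K : Type*} [MetricSpace K] [CompactSpace K] [Nonempty K] (m : ℕ)
    (φ : (ℕ → A) → K → K) (hc : ∀ g, FinS m g → Continuous (φ g)) (h1 : ∀ x, φ 1 x = x)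
    (hm : ∀ g h, FinS m g → FinS m h → ∀ x, φ (g * h) x = φ g (φ h x)) :
    ∃ x, ∀ g, FinS m g → φ g x = x := by
  classical
  have hs : ∀ k (a : A), FinS m (Pi.mulSingle (m + k) a) := fun k a =>
    ⟨fun n hn => Pi.mulSingle_eq_of_ne (by omega) _,
      m + k + 1, fun n hn => Pi.mulSingle_eq_of_ne (by omega) _⟩
  let C : ℕ → Set K := fun k => {x | ∀ g, FinS m g → (∀ n ≥ m + k, g n = 1) → φ g x = x}
  have hC : ∀ k, IsClosed (C k) := fun k => by
    simp only [C, ofPred_forall]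
    exact isClosed_iInter fun g => isClosed_iInter fun hg => isClosed_iInter fun _ =>
      isClosed_eq (hc g hg) continuous_id
  have hne : ∀ k, (C k).Nonempty := by
    intro k
    induction k with
    | zero =>
      obtain ⟨x⟩ := ‹Nonempty K›
      refine ⟨x, fun g hg h => ?_⟩
      have : g = 1 := funext fun n => by
        by_cases hn : n < m
        exacts [hg.1 n hn, h n (by omega)]
      rw [this, h1]
    | succ k ih =>
      have := ih.to_subtype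
      have : CompactSpace (C k) := isCompact_iff_compactSpace.1 (hC k).isCompact
      have hmem : ∀ (a : A), ∀ x ∈ C k, φ (Pi.mulSingle (m + k) a) x ∈ C k := by
        intro a x hx g hg h
        have e : g * Pi.mulSingle (m + k) a = Pi.mulSingle (m + k) a * g := funext fun n => by
          by_cases hn : n = m + k
          · simp [h n hn.ge]
          · simp [Pi.mulSingle_eq_of_ne hn]
        rw [← hm _ _ hg (hs k a), e, hm _ _ (hs k a) hg, hx g hg h]
      obtain ⟨x, hx⟩ := fixed_point (K := C k) (fun a x => ⟨_, hmem a x.1 x.2⟩)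
        (fun a => ((hc _ (hs k a)).comp continuous_subtype_val).subtype_mk _)
        (fun x => Subtype.ext (by simp [h1]))
        fun a b x => Subtype.ext (by simp only [Pi.mulSingle_mul, hm _ _ (hs k a) (hs k b)])
      refine ⟨x, fun g hg h => ?_⟩
      have e : g = Pi.mulSingle (m + k) (g (m + k)) * Function.update g (m + k) 1 :=
        funext fun n => by
          by_cases hn : n = m + k
          · subst hn; simp
          · simp [Pi.mulSingle_eq_of_ne hn, Function.update_of_ne hn]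
      have h2 : ∀ n ≥ m + k, Function.update g (m + k) 1 n = 1 := fun n hn => by
        by_cases hn' : n = m + k
        · subst hn'; simp
        · rw [Function.update_of_ne hn', h n (by omega)]
      have h3 : FinS m (Function.update g (m + k) 1) :=
        ⟨fun n hn => by rw [Function.update_of_ne (by omega), hg.1 n hn], m + k, h2⟩
      rw [e, hm _ _ (hs _ _) h3, x.2 _ h3 h2]
      exact congrArg Subtype.val (hx (g (m + k)))
  obtain ⟨x, hx⟩ := IsCompact.nonempty_iInter_of_sequence_nonempty_isCompact_isClosed C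
    (fun k x hx g hg h => hx g hg fun n hn => h n (by omega)) hne (hC 0).isCompact hC
  refine ⟨x, fun g hg => ?_⟩
  obtain ⟨k, hk⟩ := hg.2
  exact mem_iInter.1 hx k g hg fun n hn => hk n (by omega)

end Pool.Agent.P.MP_f0e779_lc
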