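import Pool.Agent.P.MP_f0e779_lc.Prod
import Pool.Agent.P.MP_f0e779_lc.Fix

/-! The forcing, the group and the filter. -/

open Filter Set Cardinal

namespace Pool.Agent.P.MP_f0e779_lc

open Pool.Agent.Lib.Helper87

/-- the bound for small sets -/
abbrev Θ : Type := Set (ℕ → ℕ)
/-- a large set -/
abbrev Λ : Type := Set Θ
/-- the coordinates -/
abbrev I : Type := (ℕ × ℚ) × Λ

/-- small sets -/
def Sm {α : Type} (S : Set α) : Prop := #S ≤ #Θ

theorem aleph0_le_Θ : ℵ₀ ≤ #Θ := aleph0_le_mk Θ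

theorem Θ_lt_Λ : #Θ < #Λ := by
  rw [show #Λ = 2 ^ #Θ from mk_set]
  exact cantor _

theorem Sm.mono {α : Type} {S T : Set α} (h : Sm T) (h' : S ⊆ T) : Sm S :=
  (mk_le_mk_of_subset h').trans h

theorem Sm.union {α : Type} {S T : Set α} (h : Sm S) (h' : Sm T) : Sm (S ∪ T) :=
  (mk_union_le S T).trans (add_le_of_le aleph0_le_Θ h h')

theorem Sm.image {α β : Type} {S : Set α} (h : Sm S) (f : α → β) : Sm (f '' S) :=
  mk_image_le.trans h

theorem sm_iUnion {α J : Type} (hJ : #J ≤ #Θ) {S : J → Set α} (h : ∀ j, Sm (S j)) :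
    Sm (⋃ j, S j) :=
  mk_iUnion_le_sum_mk.trans ((sum_le_sum _ (fun _ => #Θ) h).trans (by
    rw [sum_const']
    exact mul_le_of_le aleph0_le_Θ hJ le_rfl))

theorem sm_countable {α : Type} {S : Set α} (h : S.Countable) : Sm S :=
  h.le_aleph0.trans aleph0_le_Θ

theorem mk_countable_le (J : Type) [Countable J] : #J ≤ #Θ := mk_le_aleph0.trans aleph0_le_Θ

theorem mk_prod_le {J K : Type} (h : #J ≤ #Θ) (h' : #K ≤ #Θ) : #(J × K) ≤ #Θ := by
  rw [mk_prod, lift_id, lift_id]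
  exact mul_le_of_le aleph0_le_Θ h h'

/-- conditions -/
def Cond : Type := {p : I × Λ → Option Bool // Sm {i | p i ≠ none}}

instance : PartialOrder Cond where
  le q p := ∀ i b, p.1 i = some b → q.1 i = some b
  le_refl _ _ _ h := h
  le_trans _ _ _ h h' i b e := h i b (h' i b e)
  le_antisymm p q h h' := Subtype.ext (funext fun i => Option.ext fun b => ⟨h' i b, h i b⟩)

instance : Nonempty Cond := ⟨⟨fun _ => none, sm_countable (by simp)⟩⟩

/-- the domain of a condition -/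
def dom (p : Cond) : Set I := Prod.fst '' {i | p.1 i ≠ none}

theorem sm_dom (p : Cond) : Sm (dom p) := p.2.image _

theorem mem_dom {p : Cond} {i : I × Λ} {b : Bool} (h : p.1 i = some b) : i.1 ∈ dom p :=
  ⟨i, by simp [h], rfl⟩

theorem exists_lb {J : Type} (hJ : #J ≤ #Θ) (p : J → Cond)
    (h : ∀ j k i b c, (p j).1 i = some b → (p k).1 i = some c → b = c) : ∃ q, ∀ j, q ≤ p j := by
  classical
  refine ⟨⟨fun i => if h : ∃ j, (p j).1 i ≠ none then (p h.choose).1 i else none,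
    (sm_iUnion hJ fun j => (p j).2).mono fun i hi => ?_⟩, fun j i b e => ?_⟩
  · by_contra hc
    exact hi (dif_neg (by simpa using hc))
  · have h1 : ∃ j, (p j).1 i ≠ none := ⟨j, by simp [e]⟩
    obtain ⟨c, hc⟩ := Option.ne_none_iff_exists'.1 h1.choose_spec
    change dite _ _ _ = _
    rw [dif_pos h1, hc, h _ _ _ _ _ hc e]

theorem exists_lb₂ {p q : Cond} (h : ∀ i b c, p.1 i = some b → q.1 i = some c → b = c) :
    ∃ r, r ≤ p ∧ r ≤ q := by
  obtain ⟨r, hr⟩ := exists_lb (mk_countable_le Bool) (fun b => cond b p q) (by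
    rintro (_ | _) (_ | _) i b c h1 h2
    · exact Option.some_injective _ (h1.symm.trans h2)
    · exact (h i c b h2 h1).symm
    · exact h i b c h1 h2
    · exact Option.some_injective _ (h1.symm.trans h2))
  exact ⟨r, hr true, hr false⟩

theorem closed_dense {J : Type} (hJ : #J ≤ #Θ) (D : J → Cond → Prop)
    (hm : ∀ j p q, q ≤ p → D j p → D j q) (p0 : Cond) (hd : ∀ j, ∀ p ≤ p0, ∃ q ≤ p, D j q) :
    ∃ q ≤ p0, ∀ j, D j q := by
  classical
  have hlb : ∀ {K : Type}, #K ≤ #Θ → ∀ p : K → Cond, (∀ k, p k ≤ p0) →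
      (∀ j k, p j ≤ p k ∨ p k ≤ p j) → ∃ q ≤ p0, ∀ k, q ≤ p k := by
    intro K hK p h1 h2
    rcases isEmpty_or_nonempty K with h | ⟨⟨k0⟩⟩
    · exact ⟨p0, le_rfl, fun k => isEmptyElim k⟩
    · obtain ⟨q, hq⟩ := exists_lb hK p fun j k i b c e1 e2 => by
        rcases h2 j k with h | h
        · exact Option.some_injective _ (e1.symm.trans (h i c e2))
        · exact Option.some_injective _ ((h i b e1).symm.trans e2)
      exact ⟨q, (hq k0).trans (h1 k0), hq⟩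
  let r : J → J → Prop := WellOrderingRel
  have wf : WellFounded r := IsWellFounded.wf
  let F : J → Cond := wf.fix fun j f =>
    if h : ∃ q, q ≤ p0 ∧ (∀ i (hi : r i j), q ≤ f i hi) ∧ D j q then h.choose else p0
  have hF : ∀ j, F j = if h : ∃ q, q ≤ p0 ∧ (∀ i, r i j → q ≤ F i) ∧ D j q then h.choose else p0 :=
    fun j => wf.fix_eq _ j
  have key : ∀ j, F j ≤ p0 ∧ (∀ i, r i j → F j ≤ F i) ∧ D j (F j) := by
    intro j
    induction j using wf.induction with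
    | _ j ih =>
    have : ∃ q, q ≤ p0 ∧ (∀ i, r i j → q ≤ F i) ∧ D j q := by
      obtain ⟨q, h1, h2⟩ := hlb ((mk_subtype_le fun i => r i j).trans hJ) (fun i => F i.1)
        (fun i => (ih i i.2).1) fun i k => by
          rcases trichotomous_of r i.1 k.1 with h | h | h
          · exact Or.inr ((ih k k.2).2.1 i h)
          · exact Or.inl (by rw [h])
          · exact Or.inl ((ih i i.2).2.1 k h)
      obtain ⟨q', h3, h4⟩ := hd j q h1
      exact ⟨q', h3.trans h1, fun i hi => h3.trans (h2 ⟨i, hi⟩), h4⟩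
    rw [hF j, dif_pos this]
    exact this.choose_spec
  obtain ⟨q, h1, h2⟩ := hlb hJ F (fun j => (key j).1) fun i k => by
    rcases trichotomous_of r i k with h | h | h
    · exact Or.inr ((key k).2.1 i h)
    · exact Or.inl (by rw [h])
    · exact Or.inl ((key i).2.1 k h)
  exact ⟨q, h1, fun j => hm j _ _ (h2 j) (key j).2.2⟩

theorem decide_real {f : World Cond → ℝ} (hf : Measurable f) (p : Cond) :
    ∃ q ≤ p, ∃ t, Sem q fun w => f w = t := by
  obtain ⟨q, h1, h2⟩ := closed_dense (mk_countable_le ℚ)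
    (fun a q => Sem q (fun w => (a : ℝ) < f w) ∨ Sem q fun w => ¬ (a : ℝ) < f w)
    (fun a p q h h' => h'.imp (·.mono h) (·.mono h)) p
    fun a p _ => (mlt measurable_const hf).decides p
  have : ∀ a : ℚ, ∃ b : Prop, Sem q fun w => (a : ℝ) < f w ↔ b := fun a => by
    rcases h2 a with h | h
    · exact ⟨True, h.imp' fun _ h => iff_true_intro h⟩
    · exact ⟨False, h.imp' fun _ h => iff_false_intro h⟩
  choose b hb using this
  have h3 : ∀ᶠ w in gen Cond, ∀ a : ℚ, w.Has q → ((a : ℝ) < f w ↔ b a) := ev_call hb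
  obtain ⟨w0, a1, a2⟩ := exists_world q h3
  refine ⟨q, h1, f w0, h3.mono fun w h hq => eq_of_forall_rat_lt_iff_lt fun a => ?_⟩
  rw [h a hq, a2 a (w0.has_of_mem a1)]

/-- the group -/
def Γ : Subgroup (Equiv.Perm I) where
  carrier := {π | ∃ g : ℕ → A, (∃ k, ∀ n ≥ k, g n = 1) ∧ ∀ i, (π i).1 = (i.1.1, g i.1.1 i.1.2)}
  one_mem' := ⟨1, ⟨0, fun _ _ => rfl⟩, fun _ => rfl⟩
  mul_mem' := by
    rintro π ρ ⟨g, ⟨k, h1⟩, h2⟩ ⟨h, ⟨l, h3⟩, h4⟩
    refine ⟨g * h, ⟨max k l, fun n hn => ?_⟩, fun i => ?_⟩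
    · rw [Pi.mul_apply, h1 n (le_of_max_le_left hn), h3 n (le_of_max_le_right hn), one_mul]
    · rw [Equiv.Perm.mul_apply, h2, h4]
      rfl
  inv_mem' := by
    rintro π ⟨g, ⟨k, h1⟩, h2⟩
    refine ⟨g⁻¹, ⟨k, fun n hn => by rw [Pi.inv_apply, h1 n hn, inv_one]⟩, fun i => ?_⟩
    have := h2 (π⁻¹ i)
    rw [show π (π⁻¹ i) = i from π.apply_symm_apply i] at this
    rw [this]
    exact Prod.ext rfl (A.inv_apply _ _).symm

instance : MulAction Γ Cond where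
  smul π p := ⟨fun i => p.1 (π⁻¹ • i.1, i.2), (p.2.image fun i => (π • i.1, i.2)).mono
    fun i hi => ⟨(π⁻¹ • i.1, i.2), hi, Prod.ext (smul_inv_smul π i.1) rfl⟩⟩
  one_smul p := Subtype.ext (funext fun i => by
    change p.1 ((1 : Γ)⁻¹ • i.1, i.2) = _
    simp)
  mul_smul π ρ p := Subtype.ext (funext fun i => by
    change p.1 ((π * ρ)⁻¹ • i.1, i.2) = p.1 (ρ⁻¹ • π⁻¹ • i.1, i.2)
    rw [mul_inv_rev, mul_smul])

theorem smul_val (π : Γ) (p : Cond) (i : I × Λ) : (π • p).1 i = p.1 (π⁻¹ • i.1, i.2) := rfl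

instance : OrdAct Γ Cond := ⟨fun _ _ _ h _ b e => h _ b e⟩

theorem le_smul_iff {t r : Cond} {π : Γ} :
    t ≤ π • r ↔ ∀ j b, r.1 j = some b → t.1 (π • j.1, j.2) = some b :=
  ⟨fun h j b e => h _ b (by rwa [smul_val, inv_smul_smul]),
    fun h i b e => by simpa using h _ b e⟩

theorem smul_eq_self {π : Γ} {p : Cond} (h : ∀ i ∈ dom p, π • i = i) : π • p = p := by
  have : ∀ {π : Γ}, (∀ i ∈ dom p, π • i = i) → p ≤ π • p := fun h =>
    le_smul_iff.2 fun j b e => by rwa [h j.1 (mem_dom e)]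
  refine le_antisymm ?_ (this h)
  have := OrdAct.smul_le π (this (π := π⁻¹) fun i hi => inv_smul_eq_iff.2 (h i hi).symm)
  rwa [smul_inv_smul] at this

theorem blk_congr (π : Γ) {i j : I} (h : i.1 = j.1) : (π • i).1 = (π • j).1 := by
  obtain ⟨g, -, hg⟩ := π.2
  exact (hg i).trans (h ▸ (hg j).symm)

theorem lev_smul (π : Γ) (i : I) : (π • i).1.1 = i.1.1 := by
  obtain ⟨g, -, hg⟩ := π.2
  exact (congrArg Prod.fst (hg i) :)

/-- the subgroups generating the filter -/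
def H (m : ℕ) (E : Set I) : Subgroup Γ where
  carrier := {π | (∀ i : I, i.1.1 < m → (π • i).1 = i.1) ∧ ∀ i ∈ E, π • i = i}
  one_mem' := ⟨fun _ _ => rfl, fun _ _ => rfl⟩
  mul_mem' := fun {π ρ} h h' => ⟨fun i hi => by
    rw [mul_smul, h.1 _ (by rwa [lev_smul]), h'.1 i hi],
    fun i hi => by rw [mul_smul, h'.2 i hi, h.2 i hi]⟩
  inv_mem' := fun {π} h => ⟨fun i hi => by
    rw [← h.1 (π⁻¹ • i) (by rwa [lev_smul]), smul_inv_smul],
    fun i hi => inv_smul_eq_iff.2 (h.2 i hi).symm⟩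

/-- block preserving permutations fixing `E` -/
def N0 (E : Set I) : Subgroup Γ where
  carrier := {π | (∀ i : I, (π • i).1 = i.1) ∧ ∀ i ∈ E, π • i = i}
  one_mem' := ⟨fun _ => rfl, fun _ _ => rfl⟩
  mul_mem' := fun {π ρ} h h' => ⟨fun i => by rw [mul_smul, h.1, h'.1],
    fun i hi => by rw [mul_smul, h'.2 i hi, h.2 i hi]⟩
  inv_mem' := fun {π} h => ⟨fun i => by rw [← h.1 (π⁻¹ • i), smul_inv_smul],
    fun i hi => inv_smul_eq_iff.2 (h.2 i hi).symm⟩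

theorem N0_le_H (m : ℕ) (E : Set I) : (N0 E : Set Γ) ⊆ H m E := fun _ h => ⟨fun i _ => h.1 i, h.2⟩

theorem H_mono {m m' : ℕ} {E E' : Set I} (h : m ≤ m') (h' : E ⊆ E') :
    (H m' E' : Set Γ) ⊆ H m E := fun _ hπ =>
  ⟨fun i hi => hπ.1 i (hi.trans_le h), fun i hi => hπ.2 i (h' hi)⟩

/-- the filter -/
def 𝓕 : Filter Γ where
  sets := {S | ∃ m E, Sm E ∧ (∀ i ∈ E, i.1.1 < m) ∧ (H m E : Set Γ) ⊆ S}
  univ_sets := ⟨0, ∅, sm_countable countable_empty, by simp, subset_univ _⟩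
  sets_of_superset := fun ⟨m, E, h1, h2, h3⟩ h => ⟨m, E, h1, h2, h3.trans h⟩
  inter_sets := fun ⟨m, E, h1, h2, h3⟩ ⟨m', E', h4, h5, h6⟩ =>
    ⟨max m m', E ∪ E', h1.union h4, fun i hi => hi.elim (fun h => lt_max_of_lt_left (h2 i h))
      fun h => lt_max_of_lt_right (h5 i h),
      subset_inter ((H_mono (le_max_left _ _) subset_union_left).trans h3)
        ((H_mono (le_max_right _ _) subset_union_right).trans h6)⟩

theorem H_mem {m : ℕ} {E : Set I} (h1 : Sm E) (h2 : ∀ i ∈ E, i.1.1 < m) : (H m E : Set Γ) ∈ 𝓕 :=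
  ⟨m, E, h1, h2, subset_rfl⟩

instance : Conj 𝓕 := ⟨fun ρ S ⟨m, E, h1, h2, h3⟩ => by
  refine ⟨m, (fun i => ρ • i) '' E, h1.image _, ?_, fun π hπ => h3 ⟨fun i hi => ?_, fun i hi => ?_⟩⟩
  · rintro _ ⟨i, hi, rfl⟩
    rw [lev_smul]
    exact h2 i hi
  · rw [mul_smul, mul_smul, blk_congr ρ⁻¹ (hπ.1 (ρ • i) (by rwa [lev_smul])), inv_smul_smul]
  · rw [mul_smul, mul_smul, hπ.2 _ ⟨i, hi, rfl⟩, inv_smul_smul]⟩

theorem exists_ext {S : Set I} (hS : Sm S) {f : I → I} (hf : InjOn f S)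
    (hb : ∀ i ∈ S, (f i).1 = i.1) : ∃ ν ∈ N0 ∅, ∀ i ∈ S, ν • i = f i := by
  have : ∀ b : ℕ × ℚ, ∃ h : Λ ≃ Λ, ∀ ξ, (b, ξ) ∈ S → h ξ = (f (b, ξ)).2 := fun b => by
    obtain ⟨h, hh⟩ := extend_function_of_lt (s := {ξ | (b, ξ) ∈ S})
      ⟨fun ξ => (f (b, ξ)).2, fun ξ η e => Subtype.ext (congrArg Prod.snd (hf ξ.2 η.2
        (Prod.ext ((hb _ ξ.2).trans (hb _ η.2).symm) e)))⟩
      (lt_of_le_of_lt ((hS.image Prod.snd).mono fun ξ h => ⟨_, h, rfl⟩) Θ_lt_Λ) ⟨Equiv.refl _⟩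
    exact ⟨h, fun ξ h' => hh ⟨ξ, h'⟩⟩
  choose h hh using this
  exact ⟨⟨Equiv.prodCongrRight h, 1, ⟨0, fun _ _ => rfl⟩, fun _ => rfl⟩, ⟨fun _ => rfl, by simp⟩,
    fun i hi => Prod.ext (hb i hi).symm (hh i.1 i.2 hi)⟩

theorem fresh {E S F : Set I} (hE : Sm E) (hS : Sm S) (hF : Sm F) :
    ∃ ν : Θ → Γ, (∀ α, ν α ∈ N0 E) ∧ (∀ α, ∀ i ∈ S, i ∉ E → ν α • i ∉ F) ∧
      ∀ α β, α ≠ β → ∀ i ∈ S, i ∉ E → ∀ j ∈ S, j ∉ E → ν α • i ≠ ν β • j := by
  classical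
  have h1 : #(Θ × Θ) ≤ #((Prod.snd '' (F ∪ E))ᶜ : Set Λ) := by
    rw [mk_compl_of_infinite _ (lt_of_le_of_lt ((hF.union hE).image Prod.snd) Θ_lt_Λ)]
    exact (mk_prod_le le_rfl le_rfl).trans Θ_lt_Λ.le
  obtain ⟨j⟩ := (le_def _ _).1 h1
  obtain ⟨e⟩ := (le_def _ _).1 hS
  let f : Θ → I → I := fun α i =>
    if i ∈ E then i else if h : i ∈ S then (i.1, (j (α, e ⟨i, h⟩)).1) else i
  have f1 : ∀ α, ∀ i ∈ E, f α i = i := fun α i hi => if_pos hi
  have f2 : ∀ α i (h : i ∈ S), i ∉ E → f α i = (i.1, (j (α, e ⟨i, h⟩)).1) := fun α i h hi => by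
    simp only [f, if_neg hi, dif_pos h]
  have f3 : ∀ α i, i ∈ S → i ∉ E → f α i ∉ F ∪ E := fun α i h hi h' => by
    rw [f2 α i h hi] at h'
    exact (j _).2 ⟨_, h', rfl⟩
  have f4 : ∀ α β, ∀ i ∈ S, i ∉ E → ∀ k ∈ S, k ∉ E → f α i = f β k → α = β ∧ i = k := by
    intro α β i h1 h2 k h3 h4 h
    rw [f2 α i h1 h2, f2 β k h3 h4] at h
    have := j.injective (Subtype.ext (congrArg Prod.snd h))
    exact ⟨congrArg Prod.fst this, congrArg Subtype.val (e.injective (congrArg Prod.snd this))⟩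
  choose ν h2 h3 using fun α => exists_ext (hE.union hS) (f := f α) (fun i hi k hk h => by
    by_cases h1 : i ∈ E <;> by_cases h2 : k ∈ E
    · rwa [f1 α i h1, f1 α k h2] at h
    · exact absurd (Or.inr (by rwa [← h, f1 α i h1])) (f3 α k (hk.resolve_left h2) h2)
    · exact absurd (Or.inr (by rwa [h, f1 α k h2])) (f3 α i (hi.resolve_left h1) h1)
    · exact (f4 α α i (hi.resolve_left h1) h1 k (hk.resolve_left h2) h2 h).2) fun i hi => by
      by_cases h1 : i ∈ E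
      · rw [f1 α i h1]
      · rw [f2 α i (hi.resolve_left h1) h1]
  refine ⟨ν, fun α => ⟨(h2 α).1, fun i hi => (h3 α i (Or.inl hi)).trans (f1 α i hi)⟩,
    fun α i h hi h' => f3 α i h hi (Or.inl (h3 α i (Or.inr h) ▸ h')),
    fun α β hne i a1 a2 k a3 a4 h => hne (f4 α β i a1 a2 k a3 a4 ?_).1⟩
  rwa [← h3 α i (Or.inr a1), ← h3 β k (Or.inr a3)]

open Classical in
/-- restriction of a condition -/
noncomputable def res (p : Cond) (E : Set I) : Cond :=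
  ⟨fun i => if i.1 ∈ E then p.1 i else none, p.2.mono fun i hi h => hi (by simp [h])⟩

theorem res_eq {p : Cond} {E : Set I} {i : I × Λ} {b : Bool} :
    (res p E).1 i = some b ↔ i.1 ∈ E ∧ p.1 i = some b := by
  by_cases h : i.1 ∈ E <;> simp [res, h]

theorem le_res (p : Cond) (E : Set I) : p ≤ res p E := fun _ _ h => (res_eq.1 h).2

theorem dom_res (p : Cond) (E : Set I) : dom (res p E) ⊆ E := by
  rintro _ ⟨i, hi, rfl⟩
  obtain ⟨b, hb⟩ := Option.ne_none_iff_exists'.1 hi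
  exact (res_eq.1 hb).1

theorem res_mono {p q : Cond} (h : q ≤ p) (E : Set I) : res q E ≤ res p E := fun i b e =>
  res_eq.2 ⟨(res_eq.1 e).1, h i b (res_eq.1 e).2⟩

theorem res_le {p q : Cond} (h : q ≤ p) {E : Set I} (h' : dom p ⊆ E) : res q E ≤ p :=
  fun i b e => res_eq.2 ⟨h' (mem_dom e), h i b e⟩

theorem le_res_smul {π : Γ} {E : Set I} (h : ∀ i ∈ E, π⁻¹ • i = i) (p : Cond) :
    p ≤ res (π • p) E := fun i b e => by
  obtain ⟨e1, e2⟩ := res_eq.1 e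
  rwa [smul_val, h _ e1] at e2

theorem exists_compat {E : Set I} (hE : Sm E) {q s : Cond} (h : s ≤ res q E) :
    ∃ ν ∈ N0 E, ∃ r, r ≤ s ∧ r ≤ ν • q := by
  obtain ⟨ν, h1, h2, -⟩ := fresh hE (sm_dom q) (sm_dom s)
  refine ⟨ν ∅, h1 _, exists_lb₂ fun i b c e1 e2 => ?_⟩
  rw [smul_val] at e2
  by_cases hi : (ν ∅)⁻¹ • i.1 ∈ E
  · have e3 := (h1 ∅).2 _ hi
    rw [smul_inv_smul] at e3
    rw [← e3] at hi e2
    exact Option.some_injective _ (e1.symm.trans (h i c (res_eq.2 ⟨hi, e2⟩)))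
  · have := h2 ∅ _ (mem_dom e2) hi
    rw [smul_inv_smul] at this
    exact absurd (mem_dom e1) this

theorem Inv.at {α : Type*} {S : Set Γ} {x : World Cond → α} (h : Inv (𝓟 S) x) {π : Γ}
    (hπ : π ∈ S) : ∀ᶠ w in gen Cond, x (π • w) = x w := h hπ

theorem homog {E : Set I} (hE : Sm E) {Φ : World Cond → Prop} (hΦ : Inv (𝓟 (N0 E : Set Γ)) Φ)
    {q : Cond} (h : Sem q Φ) : Sem (res q E) Φ := by
  refine sem_of_dense fun s hs => ?_
  obtain ⟨ν, h1, r, h2, h3⟩ := exists_compat hE hs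
  exact ⟨r, h2, ((sem_smul ν h).mono h3).imp
    ((hΦ.at ((N0 E).inv_mem h1)).mono fun w h h' => h ▸ h')⟩

open Classical in
/-- the canonical lift of a sequence of automorphisms -/
noncomputable def gam (g : ℕ → A) : Γ :=
  if h : ∃ k, ∀ n ≥ k, g n = 1 then
    ⟨Equiv.prodCongr (Equiv.prodCongrRight fun n => (g n).toEquiv) (Equiv.refl Λ), g, h,
      fun _ => rfl⟩
  else 1

theorem gam_smul {m : ℕ} {g : ℕ → A} (h : FinS m g) (i : I) :
    gam g • i = ((i.1.1, g i.1.1 i.1.2), i.2) := by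
  rw [gam, dif_pos h.2]
  rfl

theorem FinS.mul {m : ℕ} {g h : ℕ → A} (hg : FinS m g) (hh : FinS m h) : FinS m (g * h) := by
  obtain ⟨h1, k, h2⟩ := hg
  obtain ⟨h3, l, h4⟩ := hh
  exact ⟨fun n hn => by rw [Pi.mul_apply, h1 n hn, h3 n hn, one_mul], max k l, fun n hn => by
    rw [Pi.mul_apply, h2 n (le_of_max_le_left hn), h4 n (le_of_max_le_right hn), one_mul]⟩

theorem finS_one (m : ℕ) : FinS m 1 := ⟨fun _ _ => rfl, 0, fun _ _ => rfl⟩

theorem gam_one : gam 1 = 1 :=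
  Subtype.ext (Equiv.ext fun i => gam_smul (finS_one 0) i)

theorem gam_mul {m : ℕ} {g h : ℕ → A} (hg : FinS m g) (hh : FinS m h) :
    gam (g * h) = gam g * gam h :=
  Subtype.ext (Equiv.ext fun i => by
    change gam (g * h) • i = (gam g * gam h) • i
    rw [mul_smul, gam_smul hg, gam_smul hh, gam_smul (hg.mul hh)]
    rfl)

theorem gam_fix {m : ℕ} {g : ℕ → A} (h : FinS m g) {i : I} (hi : i.1.1 < m) : gam g • i = i := by
  rw [gam_smul h, h.1 _ hi]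
  rfl

theorem gam_mem {m : ℕ} {g : ℕ → A} (h : FinS m g) {E : Set I} (hE : ∀ i ∈ E, i.1.1 < m) :
    gam g ∈ H m E := ⟨fun i hi => by rw [gam_fix h hi], fun i hi => gam_fix h (hE i hi)⟩

theorem decomp {m : ℕ} {E : Set I} {π : Γ} (h : π ∈ H m E) :
    ∃ g, FinS m g ∧ ∀ i : I, (gam g • i).1 = (π • i).1 := by
  obtain ⟨g, h1, h2⟩ := π.2
  have : FinS m g := ⟨fun n hn => OrderIso.ext (funext fun q =>
    congrArg Prod.snd ((h2 ((n, q), ∅)).symm.trans (h.1 ((n, q), ∅) hn))), h1⟩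
  exact ⟨g, this, fun i => by rw [gam_smul this]; exact (h2 i).symm⟩

end Pool.Agent.P.MP_f0e779_lc
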