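import Pool.Agent.P.MP_f0e779_lc.Key

/-! A countable product of compact metrizable spaces which is not metrizable. -/

open Filter Set Cardinal

namespace Pool.Agent.P.MP_f0e779_lc

open Pool.Agent.Lib.Helper87

/-- the one point compactification topology -/
noncomputable def tau (M : Set ZFSet.{0}) (X : ZFSet.{0}) : ZFSet.{0} :=
  ZFSet.sep (fun U => ∅ ∈ U → {z | z ∈ X ∧ z ∉ U}.Finite) (ZFSet.sep (· ∈ M) (ZFSet.powerset X))

theorem fin_iff {a : ℕ → ZFSet.{0}} (ha : Function.Injective a) (U : ZFSet.{0}) :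
    {z | z ∈ ZFSet.range a ∧ z ∉ U}.Finite ↔ ∃ l, ∀ k ≥ l, a k ∈ U := by
  rw [← eventually_atTop, ← Nat.cofinite_eq_atTop, eventually_cofinite,
    ← finite_image_iff ha.injOn]
  refine iff_of_eq (congrArg _ ?_)
  ext z
  simp only [ZFSet.mem_range, mem_ofPred_eq, mem_image]
  exact ⟨fun ⟨⟨k, h⟩, h'⟩ => ⟨k, h ▸ h', h⟩, fun ⟨k, h, h'⟩ => ⟨⟨k, h'⟩, h' ▸ h⟩⟩

theorem mem_tau {a : ℕ → ZFSet.{0}} (ha : Function.Injective a) {M : Set ZFSet.{0}}
    {U : ZFSet.{0}} : U ∈ tau M (ZFSet.range a) ↔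
      (U ⊆ ZFSet.range a ∧ U ∈ M) ∧ (∅ ∈ U → ∃ l, ∀ k ≥ l, a k ∈ U) := by
  simp only [tau, ZFSet.mem_sep, ZFSet.mem_powerset, fin_iff ha]

/-- a metric on the one point compactification -/
noncomputable def d0 (s t : ℕ) : ℝ := if s = t then 0 else max (s : ℝ)⁻¹ (t : ℝ)⁻¹

theorem d0_eq {s t : ℕ} : d0 s t = 0 ↔ s = t := by
  refine ⟨fun h => by_contra fun hc => ?_, fun h => if_pos h⟩
  rw [d0, if_neg hc] at h
  have h1 := (le_max_left _ _).trans h.le
  have h2 := (le_max_right _ _).trans h.le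
  rw [inv_nonpos, Nat.cast_nonpos] at h1 h2
  exact hc (h1.trans h2.symm)

theorem d0_tri (s t u : ℕ) : d0 s u ≤ d0 s t + d0 t u := by
  have h1 : (0 : ℝ) ≤ (s : ℝ)⁻¹ := by positivity
  have h2 : (0 : ℝ) ≤ (u : ℝ)⁻¹ := by positivity
  by_cases a : s = t
  · simp [a, d0_eq.2 rfl]
  by_cases b : t = u
  · simp [b, d0_eq.2 rfl]
  have h3 := le_max_left (s : ℝ)⁻¹ (t : ℝ)⁻¹
  have h4 := le_max_right (t : ℝ)⁻¹ (u : ℝ)⁻¹
  simp only [d0, if_neg a, if_neg b]
  split_ifs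
  · linarith
  · exact max_le (by linarith) (by linarith)

theorem d0_zero (t : ℕ) : d0 0 t = (t : ℝ)⁻¹ := by
  rcases t with _ | t
  · simp [d0]
  · simp [d0]
    positivity

theorem onepoint {a : ℕ → ZFSet.{0}} (ha : Function.Injective a) (h0 : a 0 = ∅)
    {M : Set ZFSet.{0}} (hX : ZFSet.range a ∈ M) (hi : ∀ U ∈ M, ∀ V ∈ M, U ∩ V ∈ M)
    (hu : ∀ U ∈ M, ZFSet.sUnion U ∈ M) (hD : (ZFSet.range fun k : ℕ × ℕ =>
      ZFSet.pair (ZFSet.pair (a k.1) (a k.2)) (real (d0 k.1 k.2))) ∈ M) :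
    IsTop M (ZFSet.range a) (tau M (ZFSet.range a)) ∧
      Compact M (ZFSet.range a) (tau M (ZFSet.range a)) ∧
      Metrizable M (ZFSet.range a) (tau M (ZFSet.range a)) := by
  classical
  have e := Function.leftInverse_invFun ha
  refine ⟨⟨fun U hU => ((mem_tau ha).1 hU).1.1, (mem_tau ha).2 ⟨⟨subset_rfl, hX⟩,
    fun _ => ⟨0, fun k _ => ZFSet.mem_range_self k⟩⟩, fun U hU V hV => ?_, fun 𝒰 h1 h2 => ?_⟩,
    fun 𝒰 _ h2 h3 => ?_, fun x y => d0 (Function.invFun a x) (Function.invFun a y),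
    ⟨_, hD, fun z => ?_⟩, ?_, ?_, fun x _ y _ z _ => d0_tri _ _ _, fun U hU => ?_⟩
  · rw [mem_tau ha] at hU hV ⊢
    refine ⟨⟨fun z hz => hU.1.1 (ZFSet.mem_inter.1 hz).1, hi _ hU.1.2 _ hV.1.2⟩, fun h => ?_⟩
    obtain ⟨l, hl⟩ := hU.2 (ZFSet.mem_inter.1 h).1
    obtain ⟨l', hl'⟩ := hV.2 (ZFSet.mem_inter.1 h).2
    exact ⟨max l l', fun k hk => ZFSet.mem_inter.2
      ⟨hl k (le_of_max_le_left hk), hl' k (le_of_max_le_right hk)⟩⟩
  · refine (mem_tau ha).2 ⟨⟨fun z hz => ?_, hu _ h1⟩, fun h => ?_⟩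
    · obtain ⟨U, a1, a2⟩ := ZFSet.mem_sUnion.1 hz
      exact ((mem_tau ha).1 (h2 a1)).1.1 a2
    · obtain ⟨U, a1, a2⟩ := ZFSet.mem_sUnion.1 h
      obtain ⟨l, hl⟩ := ((mem_tau ha).1 (h2 a1)).2 a2
      exact ⟨l, fun k hk => ZFSet.mem_sUnion.2 ⟨U, a1, hl k hk⟩⟩
  · choose U U1 U2 using fun k => ZFSet.mem_sUnion.1 (h3 (ZFSet.mem_range_self (f := a) k))
    obtain ⟨l, hl⟩ := ((mem_tau ha).1 (h2 (U1 0))).2 (h0 ▸ U2 0)
    refine ⟨(Finset.range (l + 1)).image U, by simpa using fun k _ => U1 k, fun x hx => ?_⟩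
    obtain ⟨k, rfl⟩ := ZFSet.mem_range.1 hx
    rcases le_or_gt l k with h | h
    · exact ⟨U 0, Finset.mem_image_of_mem _ (by simp), hl k h⟩
    · exact ⟨U k, Finset.mem_image_of_mem _ (by simpa using h.le), U2 k⟩
  · simp only [ZFSet.mem_range, exists_exists_eq_and, e _, Prod.exists, eq_comm (a := z)]
  · simp only [ZFSet.mem_range, forall_exists_index, forall_apply_eq_imp_iff, e _, d0_eq,
      ha.eq_iff, implies_true]
  · intro x _ y _
    simp only [d0, eq_comm, max_comm]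
  · simp only [mem_tau ha, hU, and_true, ZFSet.mem_range, forall_exists_index,
      forall_apply_eq_imp_iff, e _]
    refine and_congr_right fun h1 => ⟨fun h x hx => ?_, fun h h2 => ?_⟩
    · obtain ⟨k, rfl⟩ := ZFSet.mem_range.1 (h1 hx)
      rw [e]
      rcases k with _ | k
      · obtain ⟨l, hl⟩ := h (h0 ▸ hx)
        refine ⟨(l + 1 : ℕ)⁻¹, by positivity, fun t ht => ?_⟩
        rcases t with _ | t
        · exact hx
        · rw [d0_zero, inv_lt_inv₀ (by positivity) (by positivity), Nat.cast_lt] at ht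
          exact hl _ (by omega)
      · refine ⟨(k + 1 : ℕ)⁻¹, by positivity, fun t ht => ?_⟩
        by_cases h : k + 1 = t
        · exact h ▸ hx
        · rw [d0, if_neg h] at ht
          exact absurd ht (le_max_left _ _).not_gt
    · obtain ⟨ε, a1, a2⟩ := h _ h2
      obtain ⟨l, hl⟩ := exists_nat_one_div_lt a1
      refine ⟨l + 1, fun k hk => a2 k ?_⟩
      rw [← h0, e, d0_zero]
      refine lt_of_le_of_lt ?_ hl
      rw [one_div]
      exact inv_anti₀ (by positivity) (by exact_mod_cast hk)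

/-- canonical names of sets -/
noncomputable def chk {T : Type} (x : T → Set Univ → ZFSet.{0}) (S : Set T) (N : Set Univ) :
    ZFSet.{0} := ZFSet.range fun t : {t : T // emb t ∈ N ∧ t ∈ S} => x t N

theorem mem_chk {T : Type} {x : T → Set Univ → ZFSet.{0}} {S : Set T} {w : World Cond}
    {z : ZFSet.{0}} : z ∈ chk x S w.N ↔ ∃ t, w.In t ∧ t ∈ S ∧ x t w.N = z := by
  simp only [chk, ZFSet.mem_range, Subtype.exists, exists_prop, and_assoc, World.In]

/-- injective invariant names -/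
def Nm {T : Type} (x : T → Set Univ → ZFSet.{0}) : Prop :=
  (∀ t, SN 𝓕 fun w : World Cond => x t w.N) ∧
    ∀ᶠ w in gen Cond, ∀ s, w.In s → ∀ t, w.In t → x s w.N = x t w.N → s = t

theorem Nm.chk {T : Type} {x : T → Set Univ → ZFSet.{0}} (h : Nm x) : Nm (chk x) := by
  refine ⟨fun S => sn_of_mem_iff h.1 (Φ := fun t _ => t ∈ S) (fun _ => measurable_const)
    (Eventually.of_forall fun _ _ => mem_chk)
    (Eventually.of_forall fun _ => Eventually.of_forall fun _ => rfl),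
    ev_all fun S => ev_all fun S' => ?_⟩
  filter_upwards [h.2, ev_skolem fun t => ¬ (t ∈ S ↔ t ∈ S')] with w h1 h2 h3
  by_contra hc
  obtain ⟨t, a1, a2⟩ := h2 (not_forall.1 fun h => hc (Set.ext h))
  have : ∀ S, t ∈ S ↔ x t w.N ∈ MP_f0e779_lc.chk x S w.N := fun S =>
    ⟨fun h => mem_chk.2 ⟨t, a1, h, rfl⟩, fun h => by
      obtain ⟨s, b1, b2, b3⟩ := mem_chk.1 h
      rwa [← h1 s b1 t a1 b3]⟩
  exact a2 (by rw [this, this, h3])

/-- names for the elements of `Λ` -/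
noncomputable def kn : Λ → Set Univ → ZFSet.{0} := chk (chk fun f _ => seq fun n => nat (f n))

theorem nm_kn : Nm kn := by
  refine Nm.chk (Nm.chk ⟨fun f => sn_seq (fun _ => sn_nat _) (inv_const _),
    Eventually.of_forall fun w f _ g _ h => funext fun n => nat_injective ?_⟩)
  simpa only [app_seq] using congrArg (app · (nat n)) h

/-- the generic sets -/
noncomputable def gx (i : I) (w : World Cond) : ZFSet.{0} :=
  ZFSet.range fun κ : {κ : Λ // w.In κ ∧ w.Frc fun p => p.1 (i, κ) = some true} => kn κ w.N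

theorem mem_gx {i : I} {w : World Cond} {z : ZFSet.{0}} : z ∈ gx i w ↔
    ∃ κ, w.In κ ∧ (w.Frc fun p => p.1 (i, κ) = some true) ∧ kn κ w.N = z := by
  simp only [gx, ZFSet.mem_range, Subtype.exists, exists_prop, and_assoc]

theorem gx_smul (π : Γ) (i : I) (w : World Cond) : gx (π • i) (π • w) = gx i w := by
  ext z
  simp only [mem_gx]
  exact exists_congr fun κ => and_congr_right fun _ => and_congr_left fun _ =>
    ⟨fun ⟨p, h1, h2⟩ => ⟨_, h1, by simpa [smul_val] using h2⟩,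
      fun ⟨p, h1, h2⟩ => ⟨π • p, by simpa [smul_G] using h1, by simpa [smul_val] using h2⟩⟩

theorem sn_gx (i : I) : SN 𝓕 (gx i) := by
  refine sn_of_mem_iff nm_kn.1 (Φ := fun κ w => w.Frc fun p => p.1 (i, κ) = some true)
    (fun κ => measurable_frc fun p q h e => h _ _ e)
    (Eventually.of_forall fun _ _ => mem_gx) (mem_of_superset (H_mem (m := i.1.1 + 1) (E := {i})
      (sm_countable (countable_singleton i)) (by simp)) fun π hπ =>
        Eventually.of_forall (f := gen Cond) fun w => ?_)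
  rw [← gx_smul π i w, hπ.2 i rfl]

theorem gx_inj : ∀ᶠ w in gen Cond, ∀ i, w.In i → ∀ j, w.In j → gx i w = gx j w → i = j := by
  classical
  refine ev_all fun i => ev_all fun j => ?_
  by_cases hij : i = j
  · exact Eventually.of_forall fun _ _ => hij
  refine ev_of_dense fun p => ?_
  obtain ⟨κ, hκ⟩ : ∃ κ, κ ∉ Prod.snd '' {t | p.1 t ≠ none} := by
    by_contra hc
    push Not at hc
    have := p.2.image Prod.snd
    rw [eq_univ_of_forall hc, Sm, mk_univ] at this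
    exact this.not_gt Θ_lt_Λ
  let q : Cond := ⟨fun t => if t = (i, κ) then some true else if t = (j, κ) then some false
    else p.1 t, (p.2.union (sm_countable (to_countable {(i, κ), (j, κ)}))).mono fun t ht => by
      by_contra hc
      simp only [mem_union, mem_ofPred_eq, not_or, not_not, mem_insert_iff,
        mem_singleton_iff] at hc
      exact ht (by simp [hc.1, hc.2.1, hc.2.2])⟩
  refine ⟨q, fun t b e => ?_, ?_⟩
  · have : t.2 ≠ κ := fun h => hκ ⟨t, by simp [e], h⟩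
    simp only [q]
    rw [if_neg fun h => this (by rw [h]), if_neg fun h => this (by rw [h]), e]
  · filter_upwards [ev_const κ, nm_kn.2, ev_generic] with w h1 h2 h3 ⟨r, h4, h5⟩ h6
    obtain ⟨κ', a1, ⟨s, a2, a3⟩, a4⟩ := mem_gx.1
      (h6 ▸ mem_gx.2 ⟨κ, h1, ⟨r, h4, h5 _ _ (by simp [q])⟩, rfl⟩ : kn κ w.N ∈ gx j w)
    obtain ⟨t, -, b1, b2⟩ := h3.dir r h4 s a2
    rw [h2 κ' a1 κ h1 a4] at a3
    have := (b2 _ _ a3).symm.trans (b1.trans h5 (j, κ) false (by simp [q, Ne.symm hij]))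
    simp at this

/-- the atoms -/
noncomputable def atom (b : ℕ × ℚ) (w : World Cond) : ZFSet.{0} :=
  ZFSet.range fun i : {i : I // w.In i ∧ i.1 = b} => gx i w

theorem mem_atom {b : ℕ × ℚ} {w : World Cond} {z : ZFSet.{0}} :
    z ∈ atom b w ↔ ∃ i : I, w.In i ∧ i.1 = b ∧ gx i w = z := by
  simp only [atom, ZFSet.mem_range, Subtype.exists, exists_prop, and_assoc]

theorem atom_smul (π : Γ) : ∀ᶠ w in gen Cond, ∀ i : I, atom (π • i).1 (π • w) = atom i.1 w := by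
  filter_upwards [ev_fun fun i : I => π • i, ev_fun fun i : I => π⁻¹ • i] with w h1 h2 i
  ext z
  simp only [mem_atom]
  constructor
  · rintro ⟨j, a1, a2, rfl⟩
    exact ⟨_, h2 j a1, by rw [blk_congr _ a2, inv_smul_smul], by
      rw [← gx_smul π, smul_inv_smul]⟩
  · rintro ⟨j, a1, a2, rfl⟩
    exact ⟨_, h1 j a1, blk_congr _ a2, gx_smul π j w⟩

theorem inv_atom (n : ℕ) : Inv 𝓕 fun w q => atom (n, q) w := by
  refine mem_of_superset (H_mem (m := n + 1) (sm_countable countable_empty) (by simp))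
    fun π hπ => (atom_smul π).mono fun w h => funext fun q => ?_
  have := h ((n, q), ∅)
  rwa [hπ.1 _ (Nat.lt_succ_self n)] at this

theorem sn_atom (b : ℕ × ℚ) : SN 𝓕 (atom b) :=
  sn_of_mem_iff sn_gx (Φ := fun i _ => i.1 = b) (fun _ => measurable_const)
    (Eventually.of_forall fun _ _ => mem_atom) ((inv_atom b.1).map fun f => f b.2)

/-- the points of a space -/
def pt (a : ℚ → ZFSet.{0}) : ℕ → ZFSet.{0}
  | 0 => ∅
  | k + 1 => a ((Denumerable.eqv ℚ).symm k)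

theorem mem_pt {a : ℚ → ZFSet.{0}} {z : ZFSet.{0}} :
    z ∈ ZFSet.range (pt a) ↔ z = ∅ ∨ ∃ q, a q = z := by
  rw [ZFSet.mem_range]
  constructor
  · rintro ⟨_ | k, rfl⟩
    exacts [Or.inl rfl, Or.inr ⟨_, rfl⟩]
  · rintro (rfl | ⟨q, rfl⟩)
    exacts [⟨0, rfl⟩, ⟨Denumerable.eqv ℚ q + 1, by rw [pt, Equiv.symm_apply_apply]⟩]

theorem pt_inj : ∀ᶠ w in gen Cond, ∀ n, Function.Injective (pt fun q => atom (n, q) w) := by
  filter_upwards [gx_inj, ev_call fun b : ℕ × ℚ => ev_const ((b, ∅) : I)] with w h1 h2 n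
  have h3 : ∀ b, gx (b, ∅) w ∈ atom b w := fun b => mem_atom.2 ⟨_, h2 b, rfl, rfl⟩
  rintro (_ | k) (_ | l) h
  · rfl
  · exact absurd ((show ∅ = atom _ w from h) ▸ h3 _) (ZFSet.notMem_empty _)
  · exact absurd ((show atom _ w = ∅ from h) ▸ h3 _) (ZFSet.notMem_empty _)
  · obtain ⟨j, a1, a2, a3⟩ := mem_atom.1 ((show atom _ w = atom _ w from h) ▸ h3 _)
    rw [h1 _ a1 _ (h2 _) a3] at a2
    rw [(Denumerable.eqv ℚ).symm.injective (congrArg Prod.snd a2)]

theorem sn_pt (n k : ℕ) : SN 𝓕 fun w => pt (fun q => atom (n, q) w) k := by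
  cases k
  exacts [sn_nat 0, sn_atom _]

/-- the spaces -/
noncomputable def XX (n : ℕ) (w : World Cond) : ZFSet.{0} :=
  ZFSet.range (pt fun q => atom (n, q) w)

theorem sn_XX (n : ℕ) : SN 𝓕 (XX n) :=
  sn_range (sn_pt n) ((inv_atom n).map fun a => ZFSet.range (pt a))

theorem inv_XX : Inv 𝓕 fun w n => XX n w := by
  have : ∀ π : Γ, ∀ᶠ w in gen Cond, ∀ n, XX n w ⊆ XX n (π • w) := fun π =>
    (atom_smul π).mono fun w h n z hz => mem_pt.2 ((mem_pt.1 hz).imp_right fun ⟨q, hq⟩ =>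
      ⟨(π • (((n, q), ∅) : I)).1.2, by
        rw [← hq, ← h ((n, q), ∅)]
        exact congrArg (atom · _) (Prod.ext (lev_smul π ((n, q), ∅)).symm rfl)⟩)
  refine Eventually.of_forall fun π => ?_
  filter_upwards [this π, ev_smul π (this π⁻¹)] with w h1 h2
  rw [inv_smul_smul] at h2
  exact funext fun n => ZFSet.ext fun z => ⟨fun h => h2 n h, fun h => h1 n h⟩

theorem sn_tau (n : ℕ) : SN 𝓕 fun w => tau (MS 𝓕 w) (XX n w) :=
  (sn_XX n).power.sep (Φ := fun U w => ∅ ∈ U → {z | z ∈ XX n w ∧ z ∉ U}.Finite)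
    (fun _ hU => (((sn_nat 0).mmem hU).imp (Measurable.exists fun _ => Measurable.forall fun k =>
      measurable_const.imp ((sn_pt n k).mmem hU))).congr_ev (pt_inj.mono fun _ h =>
        imp_congr_right fun _ => fin_iff (h n) _))
    ((sn_XX n).inv.map fun X U => ∅ ∈ U → {z | z ∈ X ∧ z ∉ U}.Finite)

theorem sn_F : SN 𝓕 fun w => seq fun n => XX n w := sn_seq sn_XX inv_XX

theorem sn_T : SN 𝓕 fun w => seq fun n => tau (MS 𝓕 w) (XX n w) :=
  sn_seq sn_tau ((inv_MS.prod inv_XX).map fun t n => tau t.1 (t.2 n))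

theorem ev_family : ∀ᶠ w in gen Cond,
    CMFamily (MS 𝓕 w) (fun n => XX n w) fun n => tau (MS 𝓕 w) (XX n w) := by
  filter_upwards [sn_F.ev_mem, sn_T.ev_mem, pt_inj, ev_call fun n => (sn_XX n).ev_mem,
    ev_zf (𝓕 := 𝓕), ev_all_MS (𝓕 := 𝓕) (Φ := fun U w => ∀ V ∈ MS 𝓕 w, U ∩ V ∈ MS 𝓕 w) fun U hU =>
      ev_all_MS fun V hV => (hU.sep (Φ := fun z w => z ∈ V w) (fun z hz => hz.mmem hV)
        (hV.inv.map fun V z => z ∈ V)).ev_mem,
    ev_call fun n => SN.ev_mem (sn_range (fun k : ℕ × ℕ =>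
      ((sn_pt n k.1).pair (sn_pt n k.2)).pair (sn_real (d0 k.1 k.2)))
      ((inv_atom n).map fun a => ZFSet.range fun k : ℕ × ℕ =>
        ZFSet.pair (ZFSet.pair (pt a k.1) (pt a k.2)) (real (d0 k.1 k.2))))]
    with w h1 h2 h3 h4 h5 h6 h7
  exact ⟨h1, h2, fun n => onepoint (h3 n) rfl (h4 n) h6 h5.union (h7 n)⟩

/-- a point of the product with at most one nontrivial coordinate -/
noncomputable def ee (m : ℕ) (z : ZFSet.{0}) : ZFSet.{0} := seq (Function.update (fun _ => ∅) m z)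

theorem SN.ee {x : World Cond → ZFSet.{0}} (h : SN 𝓕 x) (m : ℕ) : SN 𝓕 fun w => ee m (x w) :=
  sn_seq (x := fun n w => Function.update (fun _ : ℕ => (∅ : ZFSet.{0})) m (x w) n) (fun n => by
    by_cases e : n = m
    · simpa [e] using h
    · simp only [Function.update_of_ne e]
      exact sn_nat 0) (h.inv.map fun z n => Function.update (fun _ : ℕ => (∅ : ZFSet.{0})) m z n)

theorem ee_mem {M : Set ZFSet.{0}} {m : ℕ} {z : ZFSet.{0}} {w : World Cond} (h : ee m z ∈ M)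
    (h' : z ∈ XX m w) : ee m z ∈ prodY M (seq fun n => XX n w) := by
  refine mem_prodY.2 ⟨h, _, fun n => ?_, rfl⟩
  rw [app_seq]
  by_cases e : n = m
  · simpa [e] using h'
  · rw [Function.update_of_ne e]
    exact mem_pt.2 (Or.inl rfl)

theorem ev_not_met {D : World Cond → ZFSet.{0}} (hD : SN 𝓕 D) : ∀ᶠ w in gen Cond,
    ¬ Met (D w) (prodY (MS 𝓕 w) (seq fun n => XX n w))
      (prodT (MS 𝓕 w) (seq fun n => XX n w) (seq fun n => tau (MS 𝓕 w) (XX n w))) := by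
  refine ev_of_not_sem (meas_met hD (sn_prodY sn_F) (sn_prodT sn_F sn_T)).not fun p hp => ?_
  simp only [not_not] at hp
  obtain ⟨m, E, h1, h2, h3⟩ := hD.inv
  have ho := (sn_nat (P := Cond) (𝓕 := 𝓕) 0).ee m
  have hm : ∀ᶠ w in gen Cond, ee m ∅ ∈ prodY (MS 𝓕 w) (seq fun n => XX n w) ∧
      ∀ q, ee m (atom (m, q) w) ∈ prodY (MS 𝓕 w) (seq fun n => XX n w) := by
    filter_upwards [ho.ev_mem, ev_call fun q => ((sn_atom (m, q)).ee m).ev_mem] with w a1 a2
    exact ⟨ee_mem a1 (mem_pt.2 (Or.inl rfl)), fun q => ee_mem (a2 q) (mem_pt.2 (Or.inr ⟨q, rfl⟩))⟩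
  obtain ⟨p', a1, ε, a2⟩ := Sem.ex (p := p) (Φ := fun (ε : ℚ) w => 0 < ε ∧
      (ε : ℝ) < dv (D w) (ee m ∅) (ee m (atom (m, (Denumerable.eqv ℚ).symm 0) w)))
    (fun ε => measurable_const.and (mlt measurable_const (hD.mdv ho ((sn_atom _).ee m)))) (by
      refine hp.imp ?_
      filter_upwards [hm, pt_inj] with w b1 b2 b3
      obtain ⟨ε, c1, c2⟩ := exists_rat_btwn ((b3.nonneg b1.1 (b1.2 _)).lt_of_ne' fun h => by
        have := congrArg (app · (nat m)) ((b3.eq _ b1.1 _ (b1.2 ((Denumerable.eqv ℚ).symm 0))).1 h)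
        simp only [ee, app_seq, Function.update_self] at this
        exact Nat.zero_ne_one (@b2 m 0 (0 + 1) this))
      exact ⟨ε, by exact_mod_cast c1, c2⟩)
  obtain ⟨r, a3, a4⟩ := closed_dense (mk_countable_le ℚ) (fun q r => Sem r fun w =>
      (ε : ℝ) < dv (D w) (ee m ∅) (ee m (atom (m, q) w))) (fun _ _ _ h h' => h'.mono h) p'
    fun q s hs => by
      let g : ℕ → A := Function.update 1 m (OrderIso.addRight (q - (Denumerable.eqv ℚ).symm 0))
      have hg : FinS m g := ⟨fun n hn => Function.update_of_ne hn.ne _ _, m + 1,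
        fun n hn => Function.update_of_ne (by omega) _ _⟩
      have g1 := gam_mem hg h2
      obtain ⟨ν, n1, t, t1, t2⟩ := exists_compat h1 (q := gam g • p') (s := s)
        (hs.trans (le_res_smul ((H m E).inv_mem g1).2 p'))
      rw [← mul_smul] at t2
      refine ⟨t, t1, ((sem_smul _ a2).mono t2).imp ?_⟩
      filter_upwards [h3 ((H m E).inv_mem ((H m E).mul_mem (N0_le_H m E n1) g1)),
        ev_smul (ν * gam g)⁻¹ (atom_smul (ν * gam g))] with w b1 b2 b3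
      have := b2 ((m, (Denumerable.eqv ℚ).symm 0), ∅)
      rw [smul_inv_smul, mul_smul, n1.1, gam_smul hg] at this
      simp only [g, Function.update_self, OrderIso.addRight_apply, add_sub_cancel] at this
      rw [this, ← b1]
      exact b3.2
  obtain ⟨w, b0, ⟨b1, b2, -⟩, b3, b4, b5⟩ := ((hp.mono (a3.trans a1)).and (a2.mono a3)).exists
    (hm.and (pt_inj.and (ev_call a4)))
  obtain ⟨U, c1, c2⟩ := b1.ball _ b3.1 ε
  obtain ⟨n, V, c3, c4⟩ := (((isProduct _ _ _).2 U).1 c1).2.2 _ ((c2 _ b3.1).2 (by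
    rw [(b1.eq _ b3.1 _ b3.1).2 rfl]
    exact_mod_cast b2))
  simp only [Function.update_eq_self] at c3
  obtain ⟨q, hq⟩ : ∃ q, m < n → atom (m, q) w ∈ V m := by
    by_cases h : m < n
    · obtain ⟨l, hl⟩ := ((mem_tau (b4 m)).1 (c3 m h).1).2 (c3 m h).2
      exact ⟨_, fun _ => hl (l + 1) l.le_succ⟩
    · exact ⟨0, fun h' => absurd h' h⟩
  refine (b5 q (w.has_of_mem b0)).not_gt ((c2 _ (b3.2 q)).1 (c4 _ (b3.2 q) fun i hi => ?_))
  by_cases e : i = m
  · rw [e, Function.update_self]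
    exact hq (e ▸ hi)
  · rw [Function.update_of_ne e]
    exact (c3 i hi).2

theorem ev_not_cpmcm : ∀ᶠ w in gen Cond, ¬ CPMCM (MS 𝓕 w) := by
  filter_upwards [ev_family, ev_met (sn_prodY sn_F) (sn_prodT sn_F sn_T),
    ev_all_MS (Φ := fun D w => ¬ Met D (prodY (MS 𝓕 w) (seq fun n => XX n w))
      (prodT (MS 𝓕 w) (seq fun n => XX n w) (seq fun n => tau (MS 𝓕 w) (XX n w))))
      fun D hD => ev_not_met hD] with w h1 h2 h3 h
  obtain ⟨Y, -, σ, -, a1, a2⟩ := h _ _ h1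
  have a3 := isProduct (MS 𝓕 w) (fun n => XX n w) fun n => tau (MS 𝓕 w) (XX n w)
  obtain rfl : Y = _ := ZFSet.ext fun f => (a1.1 f).trans (a3.1 f).symm
  obtain rfl : σ = _ := ZFSet.ext fun U => (a1.2 U).trans (a3.2 U).symm
  obtain ⟨D, b1, b2⟩ := h2 a2
  exact h3 D b1 b2

theorem main : ∃ M, TransModelZF M ∧ CPMCC M ∧ ¬ CPMCM M :=
  let ⟨_, h⟩ := ((ev_zf (𝓕 := 𝓕)).and ((ev_cpmcc key).and ev_not_cpmcm)).exists
  ⟨_, h⟩

end Pool.Agent.P.MP_f0e779_lc
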