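import Pool.Agent.Lib.Helper87.ModelDefs

namespace Pool.Agent.P.MP_f0e779_lc

open FirstOrder Pool.Agent.Lib.Helper87

/-- `M` is a transitive model of ZF (extensionality and foundation hold in every transitive
class) -/
structure TransModelZF (M : Set ZFSet.{0}) : Prop where
  trans : ∀ x ∈ M, ∀ y ∈ x, y ∈ M
  pair : ∀ x ∈ M, ∀ y ∈ M, ({x, y} : ZFSet) ∈ M
  union : ∀ x ∈ M, ZFSet.sUnion x ∈ M
  infinity : ZFSet.omega ∈ M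
  power : ∀ x ∈ M, ∃ y ∈ M, ∀ z ∈ M, z ⊆ x → z ∈ y
  separation : ∀ (n : ℕ) (φ : Language.graph.BoundedFormula Empty (n + 1)) (v : Fin n → M)
    (a : M), ∃ b : M, ∀ x : M, x.1 ∈ b.1 ↔ x.1 ∈ a.1 ∧ Sat M φ (Fin.snoc v x)
  replacement : ∀ (n : ℕ) (φ : Language.graph.BoundedFormula Empty (n + 2)) (v : Fin n → M)
    (a : M), (∀ x : M, x.1 ∈ a.1 → ∃! y : M, Sat M φ (Fin.snoc (Fin.snoc v x) y)) →
      ∃ b : M, ∀ x : M, x.1 ∈ a.1 → ∃ y : M, y.1 ∈ b.1 ∧ Sat M φ (Fin.snoc (Fin.snoc v x) y)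

/-- the von Neumann natural number `n` -/
noncomputable def nat (n : ℕ) : ZFSet.{0} := ZFSet.mk (PSet.ofNat n)

/-- the graph of a sequence -/
noncomputable def seq (x : ℕ → ZFSet.{0}) : ZFSet.{0} :=
  ZFSet.range fun n => ZFSet.pair (nat n) (x n)

/-- a rational number as a triple of natural numbers -/
noncomputable def rat (q : ℚ) : ZFSet.{0} :=
  ZFSet.pair (nat q.num.toNat) (ZFSet.pair (nat (-q.num).toNat) (nat q.den))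

/-- a real number as a Dedekind cut -/
noncomputable def real (r : ℝ) : ZFSet.{0} := ZFSet.range fun q : {q : ℚ // (q : ℝ) < r} => rat q

/-- `τ` is a topology on `X` in `M` -/
def IsTop (M : Set ZFSet.{0}) (X τ : ZFSet.{0}) : Prop :=
  (∀ U ∈ τ, U ⊆ X) ∧ X ∈ τ ∧ (∀ U ∈ τ, ∀ V ∈ τ, U ∩ V ∈ τ) ∧
    ∀ 𝒰 ∈ M, 𝒰 ⊆ τ → ZFSet.sUnion 𝒰 ∈ τ

/-- `(X, τ)` is compact in `M` -/
def Compact (M : Set ZFSet.{0}) (X τ : ZFSet.{0}) : Prop :=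
  ∀ 𝒰 ∈ M, 𝒰 ⊆ τ → X ⊆ ZFSet.sUnion 𝒰 →
    ∃ s : Finset ZFSet.{0}, (∀ U ∈ s, U ∈ 𝒰) ∧ ∀ x ∈ X, ∃ U ∈ s, x ∈ U

/-- `(X, τ)` is metrizable in `M` -/
def Metrizable (M : Set ZFSet.{0}) (X τ : ZFSet.{0}) : Prop :=
  ∃ d : ZFSet.{0} → ZFSet.{0} → ℝ,
    (∃ D ∈ M, ∀ z, z ∈ D ↔ ∃ x ∈ X, ∃ y ∈ X, z = ZFSet.pair (ZFSet.pair x y) (real (d x y))) ∧
    (∀ x ∈ X, ∀ y ∈ X, d x y = 0 ↔ x = y) ∧ (∀ x ∈ X, ∀ y ∈ X, d x y = d y x) ∧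
    (∀ x ∈ X, ∀ y ∈ X, ∀ z ∈ X, d x z ≤ d x y + d y z) ∧
    ∀ U ∈ M, U ∈ τ ↔ U ⊆ X ∧ ∀ x ∈ U, ∃ ε > 0, ∀ y ∈ X, d x y < ε → y ∈ U

/-- `(Y, σ)` is the Tychonoff product in `M` of the spaces `(X n, τ n)` -/
def IsProduct (M : Set ZFSet.{0}) (X τ : ℕ → ZFSet.{0}) (Y σ : ZFSet.{0}) : Prop :=
  (∀ f, f ∈ Y ↔ f ∈ M ∧ ∃ x : ℕ → ZFSet.{0}, (∀ n, x n ∈ X n) ∧ f = seq x) ∧
    ∀ U, U ∈ σ ↔ U ∈ M ∧ U ⊆ Y ∧ ∀ x, seq x ∈ U → ∃ (n : ℕ) (V : ℕ → ZFSet.{0}),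
      (∀ i < n, V i ∈ τ i ∧ x i ∈ V i) ∧ ∀ y, seq y ∈ Y → (∀ i < n, y i ∈ V i) → seq y ∈ U

/-- `(X n, τ n)` is a sequence in `M` of compact metrizable spaces of `M` -/
def CMFamily (M : Set ZFSet.{0}) (X τ : ℕ → ZFSet.{0}) : Prop :=
  seq X ∈ M ∧ seq τ ∈ M ∧
    ∀ n, IsTop M (X n) (τ n) ∧ Compact M (X n) (τ n) ∧ Metrizable M (X n) (τ n)

/-- in `M`, countable products of compact metrizable spaces are compact -/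
def CPMCC (M : Set ZFSet.{0}) : Prop :=
  ∀ X τ, CMFamily M X τ → ∃ Y ∈ M, ∃ σ ∈ M, IsProduct M X τ Y σ ∧ Compact M Y σ

/-- in `M`, countable products of compact metrizable spaces are metrizable -/
def CPMCM (M : Set ZFSet.{0}) : Prop :=
  ∀ X τ, CMFamily M X τ → ∃ Y ∈ M, ∃ σ ∈ M, IsProduct M X τ Y σ ∧ Metrizable M Y σ

end Pool.Agent.P.MP_f0e779_lc
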