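import Pool.Agent.P.MP_f0e779_lc.Pincus

/-! Invariant points of compact metrizable spaces. -/

open Filter Set Cardinal

namespace Pool.Agent.P.MP_f0e779_lc

open Pool.Agent.Lib.Helper87

theorem mk_idx : #((ℕ → A) × Θ) ≤ #Θ := by
  refine mk_prod_le ?_ le_rfl
  have h1 : #(ℕ → A) ≤ #(ℕ × ℚ → ℕ) := mk_le_of_injective
    (f := fun g j => Encodable.encode (g j.1 j.2)) fun g h e => funext fun n =>
      OrderIso.ext (funext fun q => Encodable.encode_injective (congrFun e (n, q)))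
  have h2 : #(ℕ × ℚ → ℕ) = #(ℕ → ℕ) := by simp
  exact (h1.trans h2.le).trans (mk_le_of_injective singleton_injective)

theorem exists_rep {m : ℕ} {E : Set I} (hE : Sm E) (hm : ∀ i ∈ E, i.1.1 < m) {q : Cond}
    (hq : dom q ⊆ E) {C : World Cond → ZFSet.{0}} (hs : SN 𝓕 C) (hC : Inv (𝓟 (N0 E : Set Γ)) C)
    (coll : ∀ z : Θ → World Cond → ZFSet.{0}, (∀ α, SN 𝓕 (z α)) → ∀ r ≤ q,
      (∀ α, Sem r fun w => z α w ∈ C w) → ∃ α β, α ≠ β ∧ ∃ r' ≤ r, Sem r' fun w => z α w = z β w)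
    (hne : Sem q fun w => ∃ x ∈ MS 𝓕 w, x ∈ C w) :
    ∃ q' ≤ q, dom q' ⊆ E ∧ ∃ rep : Θ → World Cond → ZFSet.{0}, (∀ α, SN 𝓕 (rep α)) ∧
      (∀ α, Inv (𝓟 (N0 E : Set Γ)) (rep α)) ∧ (∀ α, Sem q' fun w => rep α w ∈ C w) ∧
      (∀ α β, ∀ r ≤ q', Sem r (fun w => rep α w = rep β w) → rep α = rep β) ∧
      ∀ x, SN 𝓕 x → ∀ r ≤ q', Sem r (fun w => x w ∈ C w) →
        ∃ s ≤ r, ∃ α, Sem s fun w => x w = rep α w := by
  let Y := {t : (World Cond → ZFSet.{0}) × Cond // SN 𝓕 t.1 ∧ Inv (𝓟 (N0 E : Set Γ)) t.1 ∧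
    t.2 ≤ q ∧ dom t.2 ⊆ E ∧ Sem t.2 fun w => t.1 w ∈ C w}
  let R : Y → Y → Prop := fun t u =>
    (∀ i b c, t.1.2.1 i = some b → u.1.2.1 i = some c → b = c) ∧
      ∀ s ≤ t.1.2, s ≤ u.1.2 → Sem s fun w => ¬ t.1.1 w = u.1.1 w
  obtain ⟨F, hF⟩ := zorn_subset {S : Set Y | S.Pairwise R} fun c hc hch =>
    ⟨⋃₀ c, hch.pairwise_sUnion.2 hc, fun _ => subset_sUnion_of_mem⟩
  have lb : ∀ t : Θ → F, ∃ r ≤ q, dom r ⊆ E ∧ ∀ α, r ≤ (t α).1.1.2 := fun t => by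
    obtain ⟨r, hr⟩ := exists_lb le_rfl (fun α => (t α).1.1.2) fun α β i b c e1 e2 => by
      by_cases h : (t α).1 = (t β).1
      · rw [h] at e1
        exact Option.some_injective _ (e1.symm.trans e2)
      · exact (hF.prop (t α).2 (t β).2 h).1 i b c e1 e2
    exact ⟨res r E, res_le ((hr ∅).trans (t ∅).1.2.2.2.1) hq, dom_res _ _,
      fun α => res_le (hr α) (t α).1.2.2.2.2.1⟩
  have ext : ∀ q' ≤ q, (∀ t ∈ F, q' ≤ t.1.2) → ∀ x, SN 𝓕 x → ∀ r ≤ q',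
      Sem r (fun w => x w ∈ C w) → ∃ s ≤ r, ∃ t ∈ F, Sem s fun w => x w = t.1.1 w := by
    intro q' h1 h2 x hx r h3 h4
    obtain ⟨s, a1, y, a2, a3, a4⟩ := pincus hE hm hq hC coll hx (h3.trans h1) h4
    by_contra hc
    push Not at hc
    have a5 : ∀ t ∈ F, Sem (res s E) fun w => ¬ y w = t.1.1 w := fun t ht => by
      refine homog hE ((a3.prod t.2.2.1).map fun z => ¬ z.1 = z.2) ?_
      by_contra h
      obtain ⟨s', b1, b2⟩ := exists_sem (a2.meq t.2.1) h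
      exact hc s' (b1.trans a1) t ht ((b2.and (a4.mono b1)).imp' fun w h => h.2.symm.trans h.1)
    let t0 : Y := ⟨(y, res s E), a2, a3, res_le ((a1.trans h3).trans h1) hq, dom_res _ _,
      homog hE ((a3.prod hC).map fun z => z.1 ∈ z.2)
        ((a4.and (h4.mono a1)).imp' fun w h => h.1 ▸ h.2)⟩
    have a6 : ∀ t ∈ F, s ≤ t.1.2 := fun t ht => (a1.trans h3).trans (h2 t ht)
    have a8 : (insert t0 F).Pairwise R := pairwise_insert.2 ⟨hF.prop, fun t ht _ =>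
      ⟨⟨fun i b c e1 e2 => Option.some_injective _ ((le_res s E i b e1).symm.trans (a6 t ht i c e2)),
        fun s' h _ => (a5 t ht).mono h⟩, fun i b c e1 e2 =>
        Option.some_injective _ ((a6 t ht i b e1).symm.trans (le_res s E i c e2)),
        fun s' _ h => ((a5 t ht).mono h).imp' fun w h h' => h (Eq.symm h')⟩⟩
    have a7 : t0 ∈ F := hF.eq_of_subset a8 (subset_insert _ _) ▸ mem_insert _ _
    exact Sem.not_not (sem_of_ev (Eventually.of_forall fun _ => rfl) _) (a5 t0 a7)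
  rcases Function.Embedding.total Θ F with ⟨⟨e⟩⟩ | ⟨⟨e⟩⟩
  · obtain ⟨r, a1, -, a2⟩ := lb e
    obtain ⟨α, β, b1, s, b2, b3⟩ := coll (fun α => (e α).1.1.1) (fun α => (e α).1.2.1) r a1
      fun α => (e α).1.2.2.2.2.2.mono (a2 α)
    exact (b3.not_not ((hF.prop (e α).2 (e β).2 fun h => b1 (e.injective (Subtype.ext h))).2 s
      (b2.trans (a2 α)) (b2.trans (a2 β)))).elim
  · have : Nonempty F := by
      obtain ⟨r, a1, x, a2, a3⟩ := sem_ex_MS (Φ := fun x w => x ∈ C w) (fun x hx => hx.mmem hs) hne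
      by_contra h
      obtain ⟨-, -, t, ht, -⟩ := ext q le_rfl (fun t ht => absurd ⟨⟨t, ht⟩⟩ h) x a2 r a1 a3
      exact h ⟨⟨t, ht⟩⟩
    have hsurj := Function.invFun_surjective e.injective
    generalize Function.invFun e = f at hsurj
    obtain ⟨r, a1, a2, a3⟩ := lb f
    refine ⟨r, a1, a2, fun α => (f α).1.1.1, fun α => (f α).1.2.1,
      fun α => (f α).1.2.2.1, fun α => (f α).1.2.2.2.2.2.mono (a3 α),
      fun α β s b1 b2 => ?_, fun x hx s b1 b2 => ?_⟩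
    · by_contra h
      exact b2.not_not ((hF.prop (f α).2 (f β).2
        fun h' => h (congrArg (fun t : Y => t.1.1) h')).2 s (b1.trans (a3 α)) (b1.trans (a3 β)))
    · obtain ⟨s', b3, t, b4, b5⟩ := ext r a1 (fun t ht => by
        obtain ⟨α, hα⟩ := hsurj ⟨t, ht⟩
        simpa only [hα] using a3 α) x hx s b1 b2
      obtain ⟨α, hα⟩ := hsurj ⟨t, b4⟩
      exact ⟨s', b3, α, by simpa only [hα] using b5⟩

theorem key_main {m : ℕ} {E : Set I} (hE : Sm E) (hm : ∀ i ∈ E, i.1.1 < m) {q0 : Cond}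
    (hq0 : dom q0 ⊆ E) {X τ 𝒱 : World Cond → ZFSet.{0}}
    (hX : SN 𝓕 X) (hτ : SN 𝓕 τ) (h𝒱 : SN 𝓕 𝒱) (iX : Inv (𝓟 (H m E : Set Γ)) X)
    (iτ : Inv (𝓟 (H m E : Set Γ)) τ) (i𝒱 : Inv (𝓟 (H m E : Set Γ)) 𝒱)
    (h : Sem q0 fun w => Compact (MS 𝓕 w) (X w) (τ w) ∧
      (∃ D ∈ MS 𝓕 w, Met D (X w) (τ w)) ∧ 𝒱 w ⊆ τ w ∧ ¬ X w ⊆ ZFSet.sUnion (𝒱 w)) :
    ∃ q ≤ q0, dom q ⊆ E ∧ ∃ y, SN 𝓕 y ∧ Inv (𝓟 (H m E : Set Γ)) y ∧
      Sem q fun w => y w ∈ X w ∧ y w ∉ ZFSet.sUnion (𝒱 w) := by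
  have hNH := principal_mono.2 (N0_le_H m E)
  have hF := le_principal_iff.2 (H_mem hE hm)
  have qsm' : ∀ {q}, dom q ⊆ E → ∀ π ∈ H m E, ∀ {Φ : World Cond → Prop}, Sem q Φ →
      Sem q fun w => Φ (π • w) := fun hq π hπ Φ h => by
    simpa [smul_eq_self fun i hi => ((H m E).inv_mem hπ).2 i (hq hi)] using sem_smul π⁻¹ h
  let C : World Cond → ZFSet.{0} := fun w => ZFSet.sep (· ∉ ZFSet.sUnion (𝒱 w)) (X w)
  have hC : SN 𝓕 C := hX.sep (fun z hz => (hz.mmem h𝒱.sUnion).not)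
    (h𝒱.inv.map fun V z => z ∉ ZFSet.sUnion V)
  have iC : Inv (𝓟 (H m E : Set Γ)) C :=
    (iX.prod i𝒱).map fun t => ZFSet.sep (· ∉ ZFSet.sUnion t.2) t.1
  obtain ⟨q1, l1, d1, rep, rS, rI, rC, rE, rD⟩ := exists_rep hE hm hq0 hC (iC.mono hNH)
    (fun z hz r hr h' => collide hX hτ ((h.mono hr).imp' fun w h => ⟨h.1, h.2.1⟩) hz
      fun α => (h' α).imp' fun w h => (ZFSet.mem_sep.1 h).1)
    (h.imp (hX.ev_elem.mono fun w h1 h2 => by
      by_contra hc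
      push Not at hc
      refine h2.2.2.2 fun x hx => ?_
      by_contra h3
      exact hc x (h1 x hx) (ZFSet.mem_sep.2 ⟨hx, h3⟩)))
  -- the action
  obtain ⟨q2, l2, hφ⟩ := closed_dense mk_idx (fun j r => ∃ β, FinS m j.1 →
      Sem (res r E) fun w => rep j.2 ((gam j.1)⁻¹ • w) = rep β w)
    (fun j p q h ⟨β, h'⟩ => ⟨β, fun hg => (h' hg).mono (res_mono h E)⟩) q1 fun ⟨g, α⟩ p hp => by
      by_cases hg : FinS m g
      · have g1 := (H m E).inv_mem (gam_mem hg hm)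
        obtain ⟨s, a1, β, a2⟩ := rD _ ((rS α).smul (gam g)⁻¹) p hp (((qsm' d1 _ g1 (rC α)).imp
          ((iC.at g1).mono fun w h h' => h ▸ h')).mono hp)
        refine ⟨s, a1, β, fun _ => homog hE ((Inv.prod (fun ν hν => ?_) (rI β)).map
          fun t => t.1 = t.2) a2⟩
        have : (gam g)⁻¹ * ν * gam g ∈ N0 E := ⟨fun i => by
          rw [mul_smul, mul_smul, blk_congr _ (hν.1 _), inv_smul_smul], fun i hi => by
          rw [mul_smul, mul_smul, gam_fix hg (hm i hi), hν.2 i hi, g1.2 i hi]⟩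
        filter_upwards [ev_smul (gam g)⁻¹ ((rI α).at this)] with w hw
        rwa [← mul_smul, mul_inv_cancel_right, mul_smul] at hw
      · exact ⟨p, le_rfl, α, fun h => absurd h hg⟩
  have hq := dom_res q2 E
  replace l2 := res_le l2 d1
  generalize res q2 E = q at hφ hq l2
  choose φ hφ using fun g α => hφ (g, α)
  dsimp only at hφ
  replace h := h.mono (l2.trans l1)
  replace rC := fun α => (rC α).mono l2
  refine ⟨q, l2.trans l1, hq, ?_⟩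
  have qfix : ∀ π ∈ H m E, π • q = q := fun π hπ => smul_eq_self fun i hi => hπ.2 i (hq hi)
  have qhas : ∀ π ∈ H m E, ∀ w : World Cond, (π • w).Has q ↔ w.Has q := fun π hπ w => by
    rw [← smul_has π w q, qfix π hπ]
  have qsm := @qsm' q hq
  have rX : ∀ α, Sem q fun w => rep α w ∈ X w := fun α =>
    (rC α).imp' fun w h => (ZFSet.mem_sep.1 h).1
  have dense : ∀ᶠ w in gen Cond, w.Has q → ∀ z ∈ C w, ∃ α, w.In α ∧ rep α w = z := by
    have : ∀ᶠ w in gen Cond, ∀ z ∈ MS 𝓕 w, w.Has q → z ∈ C w → ∃ α, w.In α ∧ rep α w = z := by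
      refine ev_all_MS fun x hx => sem_of_dense fun r hr => ?_
      obtain ⟨r1, a1, a2⟩ := (hx.mmem hC).decides r
      rcases a2 with a2 | a2
      · obtain ⟨r2, a3, α, a4⟩ := rD x hx r1 ((a1.trans hr).trans l2) a2
        refine ⟨r2, a3.trans a1, a4.imp ?_⟩
        filter_upwards [ev_const α] with w b1 b2 _ using ⟨α, b1, b2.symm⟩
      · exact ⟨r1, a1, a2.imp' fun w h h' => absurd h' h⟩
    filter_upwards [this, hC.ev_elem] with w h1 h2 h3 z hz using h1 z (h2 z hz) h3 hz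
  -- the metric
  obtain ⟨r0, a1, D, hD, a3⟩ := sem_ex_MS (Φ := fun D w => Met D (X w) (τ w))
    (fun D hD => meas_met hD hX hτ) (h.imp' fun _ h => h.2.1)
  obtain ⟨r1, a4, a5⟩ := nets hD hX hτ (((h.mono a1).imp' fun _ h => h.1).and a3)
    (fun α => (rS α)) fun α => (rX α).mono a1
  obtain ⟨r, a6, a7⟩ := closed_dense (mk_prod_le le_rfl le_rfl)
    (fun (j : Θ × Θ) r => ∃ t, Sem r fun w => dv (D w) (rep j.1 w) (rep j.2 w) = t)
    (fun j p q h ⟨t, h1⟩ => ⟨t, h1.mono h⟩) r1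
    fun j p _ => decide_real (hD.mdv (rS j.1) (rS j.2)) p
  choose δ' hδ' using a7
  let δ : Θ → Θ → ℝ := fun a b => δ' (a, b)
  have hδ : ∀ a b, Sem r fun w => dv (D w) (rep a w) (rep b w) = δ a b :=
    fun a b => hδ' (a, b)
  have rq : r ≤ q := (a6.trans a4).trans a1
  have rM : Sem r fun w => Met (D w) (X w) (τ w) := a3.mono (a6.trans a4)
  have ex : ∀ {Φ : World Cond → Prop} {s}, Sem s Φ → ∃ w, Φ w := fun h =>
    let ⟨w, _, h, _⟩ := h.exists ev_generic; ⟨w, h⟩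
  have δeq : ∀ a b, δ a b = 0 ↔ Sem q fun w => rep a w = rep b w := fun a b => by
    have h1 := (rM.and (hδ a b)).and (((rX a).and (rX b)).mono rq)
    refine ⟨fun h => sem_of_ev (Eventually.of_forall (congrFun (rE _ _ r (rq.trans l2)
      (h1.imp' fun w h' => (h'.1.1.eq _ h'.2.1 _ h'.2.2).1 (h'.1.2.trans h))))) _, fun h => ?_⟩
    obtain ⟨w, h', h2⟩ := ex (h1.and (h.mono rq))
    exact h'.1.2.symm.trans ((h'.1.1.eq _ h'.2.1 _ h'.2.2).2 h2)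
  obtain ⟨ρ, ρ1, ρ2, ρ3, ρ4⟩ := fix_pseudo δ
    (fun a => (δeq a a).2 (sem_of_ev (Eventually.of_forall fun _ => rfl) _))
    (fun a b => by
      obtain ⟨w, ⟨⟨b1, b2⟩, b3⟩, b4, b5⟩ := ex (((rM.and (hδ a b)).and (hδ b a)).and
        (((rX a).and (rX b)).mono rq))
      rw [← b2, ← b3, b1.symm _ b4 _ b5])
    (fun a b c => by
      obtain ⟨w, ⟨⟨⟨b1, b2⟩, b3⟩, b4⟩, ⟨b5, b6⟩, b7⟩ := ex ((((rM.and (hδ a b)).and (hδ b c)).and
        (hδ a c)).and ((((rX a).and (rX b)).and (rX c)).mono rq))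
      rw [← b2, ← b3, ← b4]
      exact b1.tri _ b5 _ b6 _ b7)
    (fun n => by
      obtain ⟨k, i, hi⟩ := a5 n
      refine ⟨k, i, fun a b e => ?_⟩
      obtain ⟨w, b1, b2⟩ := ex ((hδ a b).and ((hi a b e).mono a6))
      rwa [← b1]) m φ
    (fun g hg ε hε => by
      have g1 := gam_mem hg hm
      obtain ⟨ν, n1, s, s1, s2⟩ := exists_compat hE (q := gam g • r) (s := r)
        (le_res_smul ((H m E).inv_mem g1).2 r)
      rw [← mul_smul] at s2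
      have n2 := (H m E).inv_mem ((H m E).mul_mem (N0_le_H m E n1) g1)
      have hD' := hD.smul (ν * gam g)⁻¹
      obtain ⟨ε', e1, e2⟩ := exists_rat_btwn hε
      obtain ⟨s', s3, η, s4⟩ := Sem.ex (p := s) (Φ := fun (η : ℚ) w => 0 < η ∧ ∀ u ∈ X w,
          ∀ v ∈ X w, dv (D ((ν * gam g)⁻¹ • w)) u v < η → dv (D w) u v < ε')
        (fun η => measurable_const.and (hX.mall (Φ := fun u w => ∀ v ∈ X w,
          dv (D ((ν * gam g)⁻¹ • w)) u v < η → dv (D w) u v < ε') fun u hu => hX.mall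
          fun v hv => (mlt (hD'.mdv hu hv) measurable_const).imp
            (mlt (hD.mdv hu hv) measurable_const))) (by
          refine ((((h.mono rq).and rM).mono s1).and ((sem_smul _ rM).mono s2)).imp ?_
          filter_upwards [ev_unif hD hD' hX hτ, iX.at n2, iτ.at n2] with w b1 b2 b3 ⟨⟨b4, b5⟩, b6⟩
          rw [b2, b3] at b6
          exact b1 b4.1 b5 b6 ε' (by exact_mod_cast e1))
      obtain ⟨w, b1, -⟩ := ex s4
      refine ⟨η, by exact_mod_cast b1, fun a b hab => ?_⟩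
      have k1 : ∀ a, Sem q fun w => rep a ((ν * gam g)⁻¹ • w) = rep (φ g a) w := fun a =>
        (qsm _ ((H m E).inv_mem (N0_le_H m E n1)) (hφ g a hg)).imp
          (((rI (φ g a)).at ((N0 E).inv_mem n1)).mono fun w h h' => by
            rw [mul_inv_rev, mul_smul, h', h])
      obtain ⟨w, ⟨⟨c1, c2⟩, c3⟩, ⟨c4, c5⟩, c6, c7⟩ := ex (((s4.and
        ((hδ (φ g a) (φ g b)).mono (s3.trans s1))).and ((sem_smul _ (hδ a b)).mono
          (s3.trans s2))).and ((((k1 a).and (k1 b)).and ((rX (φ g a)).and (rX (φ g b)))).mono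
            ((s3.trans s1).trans rq)))
      rw [c4, c5] at c3
      rw [← c2]
      exact (c1.2 _ c6 _ c7 (c3 ▸ hab)).trans e2)
    (fun a => (δeq _ _).2 ((hφ 1 a (finS_one m)).imp' fun w h => by
      rw [← h, gam_one, inv_one, one_smul]))
    fun g h hg hh a => (δeq _ _).2 ((((hφ _ a (hg.mul hh)).and (hφ g (φ h a) hg)).and
      (qsm _ ((H m E).inv_mem (gam_mem hg hm)) (hφ h a hh))).imp' fun w b => by
        rw [← b.1.1, ← b.1.2, ← b.2, gam_mul hg hh, mul_inv_rev, mul_smul])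
  have hR : ∀ π ∈ H m E, ∃ g, FinS m g ∧
      ∀ α, Sem q fun w => rep α (π • w) = rep (φ g α) w := fun π hπ => by
    obtain ⟨g, g1, g2⟩ := decomp ((H m E).inv_mem hπ)
    have n1 : gam g * π ∈ N0 E := ⟨fun i => by rw [mul_smul, g2, inv_smul_smul],
      ((H m E).mul_mem (gam_mem g1 hm) hπ).2⟩
    refine ⟨g, g1, fun α => (qsm _ (N0_le_H m E n1) (hφ g α g1)).imp
      (((rI (φ g α)).at n1).mono fun w h h' => ?_)⟩
    rw [← h, ← h', mul_smul, inv_smul_smul]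
  -- the invariant cover
  let Ψ : World Cond → ZFSet.{0} → Prop := fun w U => w.Has q ∧ (U ∈ 𝒱 w ∨
    ∃ j : ℕ, ∀ α, w.In α → ρ α < 1 / (j + 1) → rep α w ∉ U)
  have iΨ : Inv (𝓟 (H m E : Set Γ)) Ψ := by
    have : ∀ π ∈ H m E, ∀ᶠ w in gen Cond, ∀ U, Ψ w U → Ψ (π • w) U := fun π hπ => by
      obtain ⟨g, g1, g2⟩ := hR π hπ
      filter_upwards [i𝒱.at hπ, ev_all g2, ev_fun (φ g)] with w b1 b2 b3 U ⟨b4, b5⟩
      refine ⟨(qhas π hπ w).2 b4, b5.imp (fun h => b1 ▸ h) fun ⟨j, hj⟩ => ?_⟩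
      obtain ⟨η, c1, c2⟩ := ρ4 g g1 (1 / (j + 1)) (by positivity)
      obtain ⟨k, hk⟩ := exists_nat_one_div_lt c1
      refine ⟨k, fun α c3 c4 => ?_⟩
      rw [b2 α c3 b4]
      exact hj _ (b3 α c3) (c2 α (c4.trans hk))
    intro π hπ
    filter_upwards [this π hπ, ev_smul π (this π⁻¹ ((H m E).inv_mem hπ))] with w h1 h2
    rw [inv_smul_smul] at h2
    exact funext fun U => propext ⟨h2 U, h1 U⟩
  have hW : SN 𝓕 fun w => ZFSet.sep (Ψ w) (τ w) := hτ.sep (Φ := fun U w => Ψ w U)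
    (fun U hU => (measurable_has q).and ((hU.mmem h𝒱).or (Measurable.exists fun j =>
      measurable_all_in fun α => measurable_const.imp ((rS α).mmem hU).not))) (iΨ.mono hF)
  obtain ⟨α, hα⟩ : ∃ α, ∀ ε > 0, ρ α ≤ ε := by
    obtain ⟨w, w1, ⟨b1, b2⟩, b3, b4, b5, b6, b7⟩ := ((h.mono rq).and rM).exists (hW.ev_mem.and
      (dense.and ((ev_call fun j : ℕ => ev_skolem fun α => ρ α < 1 / (j + 1)).and
      ((ev_all fun α => (rC α)).and (ev_all fun α => ev_all fun β => hδ α β)))))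
    have w2 := w.has_of_mem w1
    have w3 := w2.mono rq
    have : ¬ X w ⊆ ZFSet.sUnion (ZFSet.sep (Ψ w) (τ w)) := fun hc => by
      obtain ⟨s, c1, c2⟩ := b1.1 _ b3 (fun U hU => (ZFSet.mem_sep.1 hU).1) hc
      have : ∀ U : s, ∃ j : ℕ, U.1 ∈ 𝒱 w ∨
          ∀ α, w.In α → ρ α < 1 / (j + 1) → rep α w ∉ U.1 := fun U => by
        rcases (ZFSet.mem_sep.1 (c1 U U.2)).2.2 with h | ⟨j, h⟩
        exacts [⟨0, Or.inl h⟩, ⟨j, Or.inr h⟩]
      choose j hj using this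
      obtain ⟨α, d1, d2⟩ := b5 (Finset.univ.sup j) (ρ1 _ (by positivity))
      obtain ⟨d3, d4⟩ := ZFSet.mem_sep.1 (b6 α d1 w3)
      obtain ⟨U, d5, d6⟩ := c2 _ d3
      rcases hj ⟨U, d5⟩ with h | h
      · exact d4 (ZFSet.mem_sUnion.2 ⟨U, h, d6⟩)
      · exact h α d1 (d2.trans_le (Nat.one_div_le_one_div
          (Finset.le_sup (f := j) (Finset.mem_univ _)))) d6
    obtain ⟨z, z1, z2⟩ : ∃ z ∈ X w, z ∉ ZFSet.sUnion (ZFSet.sep (Ψ w) (τ w)) := by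
      by_contra hc
      push Not at hc
      exact this hc
    obtain ⟨α, c1, rfl⟩ := b4 w3 z (ZFSet.mem_sep.2 ⟨z1, fun h => by
      obtain ⟨U, h1, h2⟩ := ZFSet.mem_sUnion.1 h
      exact z2 (ZFSet.mem_sUnion.2 ⟨U, ZFSet.mem_sep.2 ⟨b1.2.2.1 h1, w3, Or.inl h1⟩, h2⟩)⟩)
    refine ⟨α, fun ε hε => ?_⟩
    obtain ⟨ε', e1, e2⟩ := exists_rat_btwn (half_pos hε)
    obtain ⟨j, hj⟩ := exists_nat_one_div_lt (half_pos hε)
    obtain ⟨U, c2, c3⟩ := b2.ball _ z1 ε'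
    have c4 : ¬ Ψ w U := fun h => z2 (ZFSet.mem_sUnion.2 ⟨U, ZFSet.mem_sep.2 ⟨c2, h⟩,
      (c3 _ z1).2 (by rwa [(b2.eq _ z1 _ z1).2 rfl])⟩)
    obtain ⟨β, c5, c6, c7⟩ : ∃ β, w.In β ∧ ρ β < 1 / (j + 1) ∧ rep β w ∈ U := by
      by_contra hc
      push Not at hc
      exact c4 ⟨w3, Or.inr ⟨j, hc⟩⟩
    have c8 := (c3 _ (b2.sub U c2 c7)).1 c7
    rw [b7 α c1 β c5 w2] at c8
    have := ρ3 α β
    linarith
  have hfix : ∀ g, FinS m g → Sem q fun w => rep (φ g α) w = rep α w := fun g hg => by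
    refine (δeq _ _).1 (le_antisymm (le_of_forall_pos_le_add fun ε hε => ?_) ?_)
    · obtain ⟨η, c1, c2⟩ := ρ4 g hg _ (half_pos hε)
      have c3 := c2 α ((hα _ (half_pos c1)).trans_lt (half_lt_self c1))
      have c4 := hα _ (half_pos hε)
      have := ρ2 (φ g α) α
      linarith
    · obtain ⟨w, ⟨b1, b2⟩, b3, b4⟩ := ex ((rM.and (hδ (φ g α) α)).and
        (((rX (φ g α)).and (rX α)).mono rq))
      exact b2 ▸ b1.nonneg b3 b4
  have iq : Inv (𝓟 (H m E : Set Γ)) fun (w : World Cond) (_ : ZFSet.{0}) => w.Has q :=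
    fun π hπ => Eventually.of_forall (f := gen Cond) fun w => funext fun _ =>
      propext (qhas π hπ w)
  refine ⟨fun w => ZFSet.sep (fun _ => w.Has q) (rep α w), (rS α).sep
    (fun _ _ => measurable_has q) (iq.mono hF), fun π hπ => ?_, ?_⟩
  · obtain ⟨g, g1, g2⟩ := hR π hπ
    filter_upwards [g2 α, hfix g g1] with w b1 b2
    ext z
    simp only [ZFSet.mem_sep, qhas π hπ]
    exact and_congr_left fun h => by rw [b1 h, b2 h]
  · filter_upwards [(rC α)] with w b1 b2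
    have : ZFSet.sep (fun _ => w.Has q) (rep α w) = rep α w := by
      ext z
      simp [b2]
    rw [this]
    exact ZFSet.mem_sep.1 (b1 b2)

theorem mix {m : ℕ} {E : Set I} (hE : Sm E) (hm : ∀ i ∈ E, i.1.1 < m) {q0 : Cond}
    (hq0 : dom q0 ⊆ E) {Φ : ZFSet.{0} → World Cond → Prop}
    (h : ∀ q ≤ q0, dom q ⊆ E → ∃ r ≤ q, dom r ⊆ E ∧ ∃ y, SN 𝓕 y ∧ Inv (𝓟 (H m E : Set Γ)) y ∧
      Sem r fun w => Φ (y w) w) :
    ∃ y, SN 𝓕 y ∧ Inv (𝓟 (H m E : Set Γ)) y ∧ Sem q0 fun w => Φ (y w) w := by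
  let T := {r : Cond // dom r ⊆ E ∧ ∃ y, SN 𝓕 y ∧ Inv (𝓟 (H m E : Set Γ)) y ∧
    Sem r fun w => Φ (y w) w}
  choose y y1 y2 y3 using fun r : T => r.2.2
  let Ψ : T → World Cond → Prop := fun r w =>
    w.Has r.1 ∧ ∀ s : T, w.In s → WellOrderingRel s r → ¬ w.Has s.1
  let b : World Cond → ZFSet.{0} := fun w => ZFSet.range fun r : {r : T // w.In r ∧ Ψ r w} => y r w
  have hb : ∀ w z, z ∈ b w ↔ ∃ r : T, w.In r ∧ Ψ r w ∧ y r w = z := by
    intro w z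
    simp only [b, ZFSet.mem_range, Subtype.exists (p := fun r : T => w.In r ∧ Ψ r w), exists_prop,
      and_assoc]
  have hi : Inv (𝓟 (H m E : Set Γ)) b := fun π hπ => by
    have : ∀ (r : T) (w : World Cond), (π • w).Has r.1 ↔ w.Has r.1 := fun r w => by
      rw [← smul_has π w r.1, smul_eq_self fun i hi => hπ.2 i (r.2.1 hi)]
    filter_upwards [ev_all fun r => (y2 r).at hπ] with w hw
    ext z
    simp only [hb, Ψ, this, smul_In]
    exact exists_congr fun r => and_congr_right fun hr => by rw [hw r hr]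
  have hs : SN 𝓕 b := sn_of_mem_iff y1 (fun r => (measurable_has _).and (measurable_all_in
    fun s => measurable_const.imp (measurable_has _).not)) (Eventually.of_forall hb)
    (hi.mono (le_principal_iff.2 (H_mem hE hm)))
  refine ⟨_, hs.sUnion, hi.map _, ?_⟩
  have : Sem q0 fun w => ∃ r : T, w.In r ∧ w.Has r.1 := sem_of_dense fun q hq => by
    obtain ⟨r, a1, a2⟩ := h _ (res_le hq hq0) (dom_res _ _)
    obtain ⟨s, a3, a4⟩ := exists_lb₂ (p := q) (q := r) fun i b c e1 e2 => Option.some_injective _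
      ((a1 i b (res_eq.2 ⟨a2.1 (mem_dom e2), e1⟩)).symm.trans e2)
    exact ⟨s, a3, ((sem_has r).mono a4).imp ((ev_const (⟨r, a2⟩ : T)).mono
      fun w h1 h2 => ⟨_, h1, h2⟩)⟩
  filter_upwards [this, ev_all y3] with w h1 h2 h3
  obtain ⟨r, a1, a2⟩ := (IsWellFounded.wf (r := (WellOrderingRel : T → T → Prop))).has_min
    {r | w.In r ∧ w.Has r.1} (h1 h3)
  have : ZFSet.sUnion (b w) = y r w := by
    ext z
    simp only [ZFSet.mem_sUnion, hb]
    constructor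
    · rintro ⟨_, ⟨s, b1, b2, rfl⟩, b3⟩
      rcases trichotomous_of WellOrderingRel s r with h | h | h
      · exact absurd h (a2 s ⟨b1, b2.1⟩)
      · rwa [← h]
      · exact absurd a1.2 (b2.2 r a1.1 h)
    · exact fun hz => ⟨_, ⟨r, a1.1, ⟨a1.2, fun s b1 b2 b3 => a2 s ⟨b1, b3⟩ b2⟩, rfl⟩, hz⟩
  rw [this]
  exact h2 r a1.1 a1.2

theorem key : Key Cond 𝓕 := by
  rintro S ⟨m, E, h1, h2, h3⟩ p
  exact ⟨_, H_mem h1 h2, h3, res p E, fun Φ hΦ h =>
    homog h1 (hΦ.mono (principal_mono.2 (N0_le_H m E))) h,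
    fun X τ 𝒱 a1 a2 a3 a4 a5 a6 a7 => mix h1 h2 (dom_res _ _)
      (Φ := fun y w => y ∈ X w ∧ y ∉ ZFSet.sUnion (𝒱 w)) fun q b1 b2 =>
        key_main h1 h2 b2 a1 a2 a3 a4 a5 a6 (a7.mono b1)⟩

end Pool.Agent.P.MP_f0e779_lc
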