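import Pool.Agent.P.MP_f0e779_lc.Cond

/-! Elements of small sets have names invariant under the block preserving permutations. -/

open Filter Set Cardinal

namespace Pool.Agent.P.MP_f0e779_lc

open Pool.Agent.Lib.Helper87

theorem Inv.agree {α : Type*} {m : ℕ} {E : Set I} {x : World Cond → α}
    (h : Inv (𝓟 (H m E : Set Γ)) x) {π ρ : Γ} (h1 : π ∈ N0 ∅) (h2 : ρ ∈ N0 ∅)
    (h3 : ∀ i ∈ E, π • i = ρ • i) : ∀ᶠ w in gen Cond, x (π⁻¹ • w) = x (ρ⁻¹ • w) := by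
  have : π⁻¹ * ρ ∈ H m E := ⟨fun i _ => ((N0 ∅).mul_mem ((N0 ∅).inv_mem h1) h2).1 i,
    fun i hi => by rw [mul_smul, ← h3 i hi, inv_smul_smul]⟩
  filter_upwards [ev_smul ρ⁻¹ (h.at this)] with w hw
  rwa [← mul_smul, mul_inv_cancel_right] at hw

theorem N0_empty {E : Set I} {π : Γ} (h : π ∈ N0 E) : π ∈ N0 ∅ := ⟨h.1, by simp⟩

theorem local_inv {m : ℕ} {E E' : Set I} (hE' : Sm E') {x : World Cond → ZFSet.{0}}
    (hx : Inv (𝓟 (H m E' : Set Γ)) x) {t : Γ} (ht : t ∈ N0 E) (hd : ∀ i ∈ E', i ∉ E → t • i ∉ E')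
    {q : Cond} (hq : Sem q fun w => x w = x (t⁻¹ • w)) {ρ : Γ} (hρ : ρ ∈ N0 E) :
    ∀ᶠ w in gen Cond, w.Has (res q E') → w.Has (ρ • res q E') → x (ρ⁻¹ • w) = x w := by
  classical
  let E2 : Set I := (fun i => t • i) '' E'
  have hE2 : Sm E2 := hE'.image _
  have h0 : Sem (res q (E' ∪ E2)) fun w => x w = x (t⁻¹ • w) := by
    refine homog (hE'.union hE2) (fun π hπ => ?_) hq
    have : t⁻¹ * π * t ∈ H m E' := ⟨fun i _ => ((N0 ∅).mul_mem ((N0 ∅).mul_mem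
      ((N0 ∅).inv_mem (N0_empty ht)) (N0_empty hπ)) (N0_empty ht)).1 i, fun i hi => by
        rw [mul_smul, mul_smul, hπ.2 _ (Or.inr ⟨i, hi, rfl⟩), inv_smul_smul]⟩
    filter_upwards [hx.at (π := π) ⟨fun i _ => hπ.1 i, fun i hi => hπ.2 i (Or.inl hi)⟩,
      ev_smul t⁻¹ (hx.at this)] with w h1 h2
    rw [← mul_smul, mul_inv_cancel_right, mul_smul] at h2
    rw [h1, h2]
  have key : ∀ s, s ≤ res q E' → s ≤ ρ • res q E' → Sem s fun w => x (ρ⁻¹ • w) = x w := by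
    intro s0 s1 s2
    refine sem_of_dense fun s hs => ?_
    replace s1 := hs.trans s1
    replace s2 := hs.trans s2
    obtain ⟨ν, n1, n2, -⟩ := fresh hE' hE2 ((sm_dom s).union (hE'.image fun i => ρ • i))
    replace n1 := n1 ∅
    replace n2 := n2 ∅
    generalize ν ∅ = t1 at n1 n2
    obtain ⟨t2, a1, a2⟩ := exists_ext (hE'.union hE2)
      (f := fun i => if i ∈ E' then ρ • i else t1 • i) (fun i hi k hk h => by
        by_cases h1 : i ∈ E' <;> by_cases h2 : k ∈ E' <;> simp only [h1, h2, if_true, if_false] at h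
        · exact smul_left_cancel _ h
        · exact absurd (Or.inr ⟨i, h1, h⟩) (n2 k (hk.resolve_left h2) h2)
        · exact absurd (Or.inr ⟨k, h2, h.symm⟩) (n2 i (hi.resolve_left h1) h1)
        · exact smul_left_cancel _ h) fun i _ => by
          split_ifs
          exacts [hρ.1 i, n1.1 i]
    have a3 : ∀ i ∈ E', t2 • i = ρ • i := fun i hi => by rw [a2 i (Or.inl hi), if_pos hi]
    have a4 : ∀ i ∈ E2, i ∉ E' → t2 • i = t1 • i := fun i hi h => by
      rw [a2 i (Or.inr hi), if_neg h]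
    obtain ⟨r, r1, r2⟩ := exists_lb₂ (p := s) (q := t1 • res q (E2 \ E')) fun i b c e1 e2 => by
      rw [smul_val, res_eq] at e2
      have := n2 _ e2.1.1 e2.1.2
      rw [smul_inv_smul] at this
      exact absurd (Or.inl (mem_dom e1)) this
    have r3 : r ≤ t1 • res q (E' ∪ E2) := le_smul_iff.2 fun j b e => by
      rw [res_eq] at e
      by_cases hj : j.1 ∈ E'
      · rw [n1.2 _ hj]
        exact (r1.trans s1) j b (res_eq.2 ⟨hj, e.2⟩)
      · exact le_smul_iff.1 r2 j b (res_eq.2 ⟨⟨e.1.resolve_left hj, hj⟩, e.2⟩)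
    have r4 : r ≤ t2 • res q (E' ∪ E2) := le_smul_iff.2 fun j b e => by
      rw [res_eq] at e
      by_cases hj : j.1 ∈ E'
      · rw [a3 _ hj]
        exact le_smul_iff.1 (r1.trans s2) j b (res_eq.2 ⟨hj, e.2⟩)
      · rw [a4 _ (e.1.resolve_left hj) hj]
        exact le_smul_iff.1 r2 j b (res_eq.2 ⟨⟨e.1.resolve_left hj, hj⟩, e.2⟩)
    refine ⟨r, r1, (((sem_smul t1 h0).mono r3).and ((sem_smul t2 h0).mono r4)).imp ?_⟩
    filter_upwards [hx.at (N0_le_H m E' ((N0 E').inv_mem n1)), hx.agree a1 (N0_empty hρ) a3,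
      hx.agree ((N0 ∅).mul_mem a1 (N0_empty ht)) ((N0 ∅).mul_mem (N0_empty n1) (N0_empty ht))
        fun i hi => by
          rw [mul_smul, mul_smul]
          by_cases h : i ∈ E
          · rw [ht.2 i h, a3 i hi, hρ.2 i h, n1.2 i hi]
          · exact a4 _ ⟨i, hi, rfl⟩ (hd i hi h)] with w b1 b2 b3 ⟨b4, b5⟩
    simp only [mul_inv_rev, mul_smul] at b3
    rw [← b2, b5, b3, ← b4, b1]
  filter_upwards [ev_generic, ev_sem fun w => x (ρ⁻¹ • w) = x w] with w h1 h2 h3 h4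
  obtain ⟨s, a1, a2, a3⟩ := h1.has_and h3 h4
  exact h2 s (w.has_of_mem a1) (key s a2 a3)

theorem mixing {m : ℕ} {E E' : Set I} (hE : Sm E) (hEE : E ⊆ E') (hm : ∀ i ∈ E', i.1.1 < m)
    {x : World Cond → ZFSet.{0}} (hs : SN 𝓕 x) (hx : Inv (𝓟 (H m E' : Set Γ)) x) {q : Cond}
    (hq : dom q ⊆ E') (h : ∀ ρ ∈ N0 E,
      ∀ᶠ w in gen Cond, w.Has q → w.Has (ρ • q) → x (ρ⁻¹ • w) = x w) :
    ∃ y, SN 𝓕 y ∧ Inv (𝓟 (N0 E : Set Γ)) y ∧ Sem q fun w => y w = x w := by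
  let b : World Cond → ZFSet.{0} := fun w =>
    ZFSet.range fun ρ : {ρ : N0 E // w.In ρ ∧ (ρ.1 • w).Has q} => x (ρ.1.1 • w)
  have hb : ∀ w z, z ∈ b w ↔ ∃ ρ : N0 E, w.In ρ ∧ (ρ.1 • w).Has q ∧ x (ρ.1 • w) = z := by
    intro w z
    simp only [b, ZFSet.mem_range, Subtype.exists, exists_prop, and_assoc]
  have hsub : ∀ π ∈ H m E, ∀ᶠ w in gen Cond, b (π • w) ⊆ b w := by
    intro π hπ
    obtain ⟨g, g1, g2⟩ := decomp hπ
    have g3 : gam g ∈ H m E' := gam_mem g1 hm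
    have g4 : gam g • q = q := smul_eq_self fun i hi => g3.2 i (hq hi)
    have hmem : ∀ ρ : N0 E, (gam g)⁻¹ * ρ * π ∈ N0 E := fun ρ => ⟨fun i => by
      rw [mul_smul, mul_smul, blk_congr _ ((ρ.2.1 _).trans (g2 i).symm), inv_smul_smul],
      fun i hi => by
        rw [mul_smul, mul_smul, hπ.2 i hi, ρ.2.2 i hi]
        exact inv_smul_eq_iff.2 (g3.2 i (hEE hi)).symm⟩
    filter_upwards [ev_fun fun ρ : N0 E => (⟨_, hmem ρ⟩ : N0 E),
      ev_all fun ρ : N0 E => ev_smul ((gam g)⁻¹ * ρ * π) (hx.at g3)] with w h1 h2 z hz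
    obtain ⟨ρ, a1, a2, rfl⟩ := (hb _ _).1 hz
    refine (hb _ _).2 ⟨_, h1 ρ a1, ?_, ?_⟩
    · change (((gam g)⁻¹ * ρ * π) • w).Has q
      rwa [mul_smul, mul_smul, smul_has', g4]
    · rw [← h2 ρ a1]
      simp [mul_smul]
  have hi : Inv (𝓟 (H m E : Set Γ)) b := fun π hπ => by
    filter_upwards [hsub π hπ, ev_smul π (hsub π⁻¹ ((H m E).inv_mem hπ))] with w h1 h2
    rw [inv_smul_smul] at h2
    exact ZFSet.ext fun z => ⟨fun h => h1 h, fun h => h2 h⟩
  have hbs : SN 𝓕 b := sn_of_mem_iff (fun ρ : N0 E => hs.smul ρ.1)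
    (fun ρ => meas_smul ρ.1 (measurable_has q)) (Eventually.of_forall hb)
    (hi.mono (le_principal_iff.2 (H_mem hE fun i hi => hm i (hEE hi))))
  refine ⟨_, hbs.sUnion, (hi.mono (principal_mono.2 (N0_le_H m E))).map _, ?_⟩
  filter_upwards [ev_all fun ρ : N0 E => h _ ((N0 E).inv_mem ρ.2), ev_const (1 : N0 E)]
    with w h1 h2 h3
  ext z
  rw [ZFSet.mem_sUnion]
  constructor
  · rintro ⟨u, a1, a2⟩
    obtain ⟨ρ, a3, a4, rfl⟩ := (hb _ _).1 a1
    have := h1 ρ a3 h3 (by rwa [← smul_has', inv_inv])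
    rw [inv_inv] at this
    rwa [← this]
  · intro hz
    exact ⟨x w, (hb _ _).2 ⟨1, h2, by simpa using h3, by simp⟩, hz⟩

theorem pincus {m : ℕ} {E : Set I} (hE : Sm E) (hm : ∀ i ∈ E, i.1.1 < m) {p : Cond}
    (hp : dom p ⊆ E) {C : World Cond → ZFSet.{0}} (hC : Inv (𝓟 (N0 E : Set Γ)) C)
    (coll : ∀ z : Θ → World Cond → ZFSet.{0}, (∀ α, SN 𝓕 (z α)) → ∀ r ≤ p,
      (∀ α, Sem r fun w => z α w ∈ C w) → ∃ α β, α ≠ β ∧ ∃ r' ≤ r, Sem r' fun w => z α w = z β w)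
    {x : World Cond → ZFSet.{0}} (hx : SN 𝓕 x) {q : Cond} (hqp : q ≤ p)
    (hq : Sem q fun w => x w ∈ C w) :
    ∃ q' ≤ q, ∃ y, SN 𝓕 y ∧ Inv (𝓟 (N0 E : Set Γ)) y ∧ Sem q' fun w => y w = x w := by
  obtain ⟨m0, E0, h1, h2, h3⟩ := hx.inv
  have hE' : Sm (E ∪ E0) := hE.union h1
  have hm' : ∀ i ∈ E ∪ E0, i.1.1 < max m m0 := fun i hi =>
    hi.elim (fun h => lt_max_of_lt_left (hm i h)) fun h => lt_max_of_lt_right (h2 i h)
  have hi : Inv (𝓟 (H (max m m0) (E ∪ E0) : Set Γ)) x := fun π hπ =>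
    h3 (H_mono (le_max_right _ _) subset_union_right hπ)
  obtain ⟨ν, n1, -, n2⟩ := fresh hE ((sm_dom q).union hE') hE
  obtain ⟨r, hr⟩ := exists_lb le_rfl (fun α => ν α • q) fun α β i b c e1 e2 => by
    rw [smul_val] at e1 e2
    by_cases hne : α = β
    · subst hne
      exact Option.some_injective _ (e1.symm.trans e2)
    · by_cases hi : i.1 ∈ E
      · rw [((N0 E).inv_mem (n1 _)).2 _ hi] at e1 e2
        exact Option.some_injective _ (e1.symm.trans e2)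
      · have : ∀ α, (ν α)⁻¹ • i.1 ∉ E := fun α h => hi (by
          have := (n1 α).2 _ h
          rw [smul_inv_smul] at this
          rwa [this])
        exact absurd (by simp) (n2 α β hne _ (Or.inl (mem_dom e1)) (this α) _
          (Or.inl (mem_dom e2)) (this β))
  obtain ⟨α, β, hne, r', r1, r2⟩ := coll (fun α w => x ((ν α)⁻¹ • w)) (fun α => hx.smul _) r
    ((hr ∅).trans ((OrdAct.smul_le _ hqp).trans
      (smul_eq_self fun i hi => (n1 ∅).2 i (hp hi)).le)) fun α =>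
    ((sem_smul (ν α) hq).mono (hr α)).imp
      ((hC.at ((N0 E).inv_mem (n1 α))).mono fun w h h' => h ▸ h')
  have t1 : (ν α)⁻¹ * ν β ∈ N0 E := (N0 E).mul_mem ((N0 E).inv_mem (n1 α)) (n1 β)
  have r3 : Sem ((ν α)⁻¹ • r') fun w => x w = x (((ν α)⁻¹ * ν β)⁻¹ • w) := by
    simpa [mul_smul] using sem_smul (ν α)⁻¹ r2
  obtain ⟨y, y1, y2, y3⟩ := mixing hE subset_union_left hm' hx hi (dom_res _ _) fun ρ hρ =>
    local_inv hE' hi t1 (fun i hi hi' h => by
      have h4 : ((ν α)⁻¹ * ν β) • i ∉ E := fun h => hi' (by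
        rwa [← smul_left_cancel _ (t1.2 _ h)])
      exact n2 α β hne _ (Or.inr h) h4 i (Or.inr hi) hi' (by simp [mul_smul])) r3 hρ
  exact ⟨_, by simpa using OrdAct.smul_le (ν α)⁻¹ (r1.trans (hr α)), y, y1, y2,
    y3.mono (le_res _ _)⟩

theorem nets {D X τ : World Cond → ZFSet.{0}} (hD : SN 𝓕 D) (hX : SN 𝓕 X) (hτ : SN 𝓕 τ)
    {r : Cond} (hr : Sem r fun w => Compact (MS 𝓕 w) (X w) (τ w) ∧ Met (D w) (X w) (τ w))
    {z : Θ → World Cond → ZFSet.{0}} (hz : ∀ α, SN 𝓕 (z α)) (h : ∀ α, Sem r fun w => z α w ∈ X w) :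
    ∃ r' ≤ r, ∀ n : ℕ, ∃ (k : ℕ) (i : Θ → Fin k), ∀ α β, i α = i β →
      Sem r' fun w => dv (D w) (z α w) (z β w) < 2 / (n + 1) := by
  obtain ⟨r1, a1, a2⟩ := closed_dense (mk_countable_le ℕ) (fun n q => ∃ (k : ℕ)
    (c : Fin k → World Cond → ZFSet.{0}), (∀ i, SN 𝓕 (c i)) ∧ Sem q fun w =>
      (∀ i, c i w ∈ X w) ∧ ∀ x ∈ X w, ∃ i, dv (D w) (c i w) x < (1 / (n + 1 : ℚ) : ℚ))
    (fun n p q h ⟨k, c, h1, h2⟩ => ⟨k, c, h1, h2.mono h⟩) r fun n p hp => by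
      have hm : ∀ (k : ℕ) (c : Fin k → World Cond → ZFSet.{0}), (∀ i, SN 𝓕 (c i)) →
          Measurable fun w => (∀ i, c i w ∈ X w) ∧
            ∀ x ∈ X w, ∃ i, dv (D w) (c i w) x < (1 / (n + 1 : ℚ) : ℚ) := fun k c hc =>
        (Measurable.forall fun i => (hc i).mmem hX).and (hX.mall
          (Φ := fun x w => ∃ i, dv (D w) (c i w) x < (1 / (n + 1 : ℚ) : ℚ)) fun x hx =>
            Measurable.exists fun i => mlt (hD.mdv (hc i) hx) measurable_const)
      obtain ⟨q, b1, k, b2⟩ := Sem.ex (Φ := fun k w => ∃ c : Fin k → ZFSet.{0},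
          (∀ i, c i ∈ MS 𝓕 w) ∧ (∀ i, c i ∈ X w) ∧
            ∀ x ∈ X w, ∃ i, dv (D w) (c i) x < (1 / (n + 1 : ℚ) : ℚ))
        (fun k => meas_ex_fin (hm k)) ((hr.mono hp).imp ((ev_net hD hX hτ).mono
          fun w h1 h2 => h1 h2.1 h2.2 _ (by positivity)))
      obtain ⟨q', b3, c, b4, b5⟩ := sem_ex_fin (hm k) b2
      exact ⟨q', b3.trans b1, k, c, b4, b5⟩
  choose k c c1 c2 using a2
  obtain ⟨r2, a3, a4⟩ := closed_dense (mk_prod_le (mk_countable_le ℕ) le_rfl)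
    (fun j q => ∃ i, Sem q fun w => dv (D w) (c j.1 i w) (z j.2 w) < (1 / (j.1 + 1 : ℚ) : ℚ))
    (fun j p q h ⟨i, h1⟩ => ⟨i, h1.mono h⟩) r1 fun j p hp =>
      Sem.ex (fun i => mlt (hD.mdv (c1 _ i) (hz _)) measurable_const)
        ((((c2 j.1).mono hp).and ((h j.2).mono (hp.trans a1))).imp' fun w h => h.1.2 _ h.2)
  choose i hi using a4
  refine ⟨r2, a3.trans a1, fun n => ⟨k n, fun α => i (n, α), fun α β e => ?_⟩⟩
  refine ((((hi (n, α)).and (hi (n, β))).and ((c2 n).mono a3)).and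
    (((hr.and ((h α).and (h β)))).mono (a3.trans a1))).imp' ?_
  rintro w ⟨⟨⟨b1, b2⟩, b3, -⟩, ⟨-, b4⟩, b5, b6⟩
  dsimp only at b1 b2 e
  rw [← e] at b2
  have := b4.tri _ b5 _ (b3 (i (n, α))) _ b6
  rw [b4.symm _ b5 _ (b3 _)] at this
  push_cast at b1 b2
  have e2 : (2 : ℝ) / (n + 1) = 1 / (n + 1) + 1 / (n + 1) := by ring
  linarith

theorem Met.nonneg {D X τ x y : ZFSet.{0}} (h : Met D X τ) (hx : x ∈ X) (hy : y ∈ X) :
    0 ≤ dv D x y := by
  have := h.tri x hx y hy x hx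
  rw [(h.eq x hx x hx).2 rfl, ← h.symm x hx y hy] at this
  linarith

theorem collide {X τ : World Cond → ZFSet.{0}} (hX : SN 𝓕 X) (hτ : SN 𝓕 τ) {r : Cond}
    (hr : Sem r fun w => Compact (MS 𝓕 w) (X w) (τ w) ∧ ∃ D ∈ MS 𝓕 w, Met D (X w) (τ w))
    {z : Θ → World Cond → ZFSet.{0}} (hz : ∀ α, SN 𝓕 (z α)) (h : ∀ α, Sem r fun w => z α w ∈ X w) :
    ∃ α β, α ≠ β ∧ ∃ r' ≤ r, Sem r' fun w => z α w = z β w := by
  obtain ⟨r1, a1, D, a2, a3⟩ := sem_ex_MS (Φ := fun D w => Met D (X w) (τ w))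
    (fun D hD => meas_met hD hX hτ) (hr.imp' fun _ h => h.2)
  obtain ⟨r2, a4, a5⟩ := nets a2 hX hτ (((hr.mono a1).imp' fun _ h => h.1).and a3) hz
    fun α => (h α).mono a1
  choose k i hi using a5
  obtain ⟨α, β, b1, b2⟩ := Function.not_injective_iff.1
    (Function.cantor_injective fun (α : Θ) (n : ℕ) => (i n α : ℕ))
  refine ⟨α, β, b2, r2, a4.trans a1, ?_⟩
  have : ∀ᶠ w in gen Cond, ∀ n : ℕ, w.Has r2 → dv (D w) (z α w) (z β w) < 2 / (n + 1) :=
    ev_call fun n => hi n α β (Fin.ext (congrFun b1 n))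
  filter_upwards [this, a3.mono a4, (h α).mono (a4.trans a1), (h β).mono (a4.trans a1)]
    with w c1 c2 c3 c4 c5
  refine ((c2 c5).eq _ (c3 c5) _ (c4 c5)).1 (le_antisymm (le_of_forall_pos_le_add fun ε hε => ?_)
    ((c2 c5).nonneg (c3 c5) (c4 c5)))
  obtain ⟨n, hn⟩ := exists_nat_one_div_lt (half_pos hε)
  have e1 := c1 n c5
  have e2 : (2 : ℝ) / (n + 1) = 1 / (n + 1) + 1 / (n + 1) := by ring
  linarith

theorem fix_pseudo {T : Type} [Nonempty T] (δ : T → T → ℝ) (h0 : ∀ a, δ a a = 0)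
    (h1 : ∀ a b, δ a b = δ b a) (h2 : ∀ a b c, δ a c ≤ δ a b + δ b c)
    (tb : ∀ n : ℕ, ∃ (k : ℕ) (i : T → Fin k), ∀ a b, i a = i b → δ a b < 2 / (n + 1)) (m : ℕ)
    (φ : (ℕ → A) → T → T)
    (un : ∀ g, FinS m g → ∀ ε > 0, ∃ η > 0, ∀ a b, δ a b < η → δ (φ g a) (φ g b) < ε)
    (one : ∀ a, δ (φ 1 a) a = 0)
    (mul : ∀ g h, FinS m g → FinS m h → ∀ a, δ (φ (g * h) a) (φ g (φ h a)) = 0) :
    ∃ ρ : T → ℝ, (∀ ε > 0, ∃ a, ρ a < ε) ∧ (∀ a b, δ a b ≤ ρ a + ρ b) ∧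
      (∀ a b, ρ a ≤ δ a b + ρ b) ∧
      ∀ g, FinS m g → ∀ ε > 0, ∃ η > 0, ∀ a, ρ a < η → ρ (φ g a) < ε := by
  let _ : PseudoMetricSpace T := { dist := δ, dist_self := h0, dist_comm := h1, dist_triangle := h2 }
  have hu : ∀ g, FinS m g → UniformContinuous (φ g) := fun g hg =>
    Metric.uniformContinuous_iff.2 fun ε hε => let ⟨η, a1, a2⟩ := un g hg ε hε
      ⟨η, a1, fun {a b} h => a2 a b h⟩
  have htb : TotallyBounded (univ : Set T) := Metric.totallyBounded_of_finite_discretization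
    fun ε hε => by
      obtain ⟨n, hn⟩ := exists_nat_one_div_lt (half_pos hε)
      obtain ⟨k, i, hi⟩ := tb n
      refine ⟨Fin k, inferInstance, fun a => i a, fun a b e => (hi a b e).trans ?_⟩
      have e2 : (2 : ℝ) / (n + 1) = 1 / (n + 1) + 1 / (n + 1) := by ring
      linarith
  have : CompactSpace (UniformSpace.Completion T) := ⟨by
    have := (htb.image (UniformSpace.Completion.uniformContinuous_coe T)).closure
    rw [image_univ, UniformSpace.Completion.denseRange_coe.closure_range] at this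
    exact this.isCompact_of_isClosed isClosed_univ⟩
  have heq : ∀ a b : T, δ a b = 0 → (a : UniformSpace.Completion T) = b := fun a b h =>
    dist_eq_zero.1 (by rw [UniformSpace.Completion.dist_eq]; exact h)
  have : Nonempty (UniformSpace.Completion T) := Nonempty.map (fun a : T => a) ‹_›
  obtain ⟨x, hx⟩ := fixed_point_seq m (fun g => UniformSpace.Completion.map (φ g))
    (fun g _ => UniformSpace.Completion.continuous_map)
    (fun x => UniformSpace.Completion.induction_on x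
      (isClosed_eq UniformSpace.Completion.continuous_map continuous_id) fun a => by
        rw [UniformSpace.Completion.map_coe (hu _ (finS_one m))]
        exact heq _ _ (one a))
    fun g h hg hh x => UniformSpace.Completion.induction_on x
      (isClosed_eq UniformSpace.Completion.continuous_map
        (UniformSpace.Completion.continuous_map.comp UniformSpace.Completion.continuous_map))
      fun a => by
        rw [UniformSpace.Completion.map_coe (hu _ (hg.mul hh)),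
          UniformSpace.Completion.map_coe (hu _ hh), UniformSpace.Completion.map_coe (hu _ hg)]
        exact heq _ _ (mul g h hg hh a)
  refine ⟨fun a => dist (a : UniformSpace.Completion T) x, fun ε hε => ?_, fun a b => ?_,
    fun a b => ?_, fun g hg ε hε => ?_⟩
  · obtain ⟨a, ha⟩ := UniformSpace.Completion.denseRange_coe.exists_dist_lt x hε
    exact ⟨a, (dist_comm _ _).trans_lt ha⟩
  · have := dist_triangle_right (a : UniformSpace.Completion T) b x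
    rwa [UniformSpace.Completion.dist_eq] at this
  · have := dist_triangle (a : UniformSpace.Completion T) b x
    rwa [UniformSpace.Completion.dist_eq] at this
  · obtain ⟨η, a1, a2⟩ := Metric.continuousAt_iff.1
      (UniformSpace.Completion.continuous_map (f := φ g)).continuousAt ε hε
    refine ⟨η, a1, fun a ha => ?_⟩
    have := a2 ha
    rwa [UniformSpace.Completion.map_coe (hu g hg), hx g hg] at this

end Pool.Agent.P.MP_f0e779_lc
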