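import Pool.Agent.P.MP_f0e779_lc.Top

/-! Compactness of countable products from the existence of invariant points. -/

open Filter Set

namespace Pool.Agent.P.MP_f0e779_lc

open Pool.Agent.Lib.Helper87

theorem dep_choice {α : Type*} (Q : ℕ → (ℕ → α) → Prop)
    (hQ : ∀ k y y', (∀ i < k, y i = y' i) → Q k y → Q k y') (y0 : ℕ → α) (h0 : Q 0 y0)
    (step : ∀ k y, Q k y → ∃ a, Q (k + 1) (Function.update y k a)) : ∃ y, ∀ k, Q k y := by
  choose a ha using step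
  let s : (k : ℕ) → {y // Q k y} := fun k =>
    Nat.rec ⟨y0, h0⟩ (fun k y => ⟨_, ha k y.1 y.2⟩) k
  have hs : ∀ k, ∀ i < k, (s k).1 i = (s (i + 1)).1 i := by
    intro k
    induction k with
    | zero => simp
    | succ k ih =>
      intro i hi
      rcases Nat.lt_succ_iff_lt_or_eq.1 hi with h | rfl
      · rw [← ih i h]
        exact Function.update_of_ne h.ne _ _
      · rfl
  exact ⟨fun i => (s (i + 1)).1 i, fun k => hQ k _ _ (hs k) (s k).2⟩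

/-- a neighbourhood of the initial segment of `y` is finitely covered -/
def Good (τ : ℕ → ZFSet.{0}) (𝒰 Y : ZFSet.{0}) (k : ℕ) (y : ℕ → ZFSet.{0})
    (W : ZFSet.{0} → Prop) : Prop :=
  ∃ V : ℕ → ZFSet.{0}, (∀ i < k, V i ∈ τ i ∧ y i ∈ V i) ∧
    Cov 𝒰 Y fun f => (∀ i < k, app f (nat i) ∈ V i) ∧ W f

theorem Good.congr {τ : ℕ → ZFSet.{0}} {𝒰 Y : ZFSet.{0}} {k : ℕ} {y y' : ℕ → ZFSet.{0}}
    {W : ZFSet.{0} → Prop} (h : Good τ 𝒰 Y k y W) (hy : ∀ i < k, y i = y' i) :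
    Good τ 𝒰 Y k y' W :=
  let ⟨V, h1, h2⟩ := h; ⟨V, fun i hi => hy i hi ▸ h1 i hi, h2⟩

theorem good_step {M : Set ZFSet.{0}} {X τ : ℕ → ZFSet.{0}} {𝒰 Y 𝒱 : ZFSet.{0}} {k : ℕ}
    {y : ℕ → ZFSet.{0}} (hT : ∀ i, X i ∈ τ i ∧ ∀ U ∈ τ i, ∀ V ∈ τ i, U ∩ V ∈ τ i)
    (hc : Compact M (X k) (τ k)) (hy : ∀ i < k, y i ∈ X i)
    (hY : ∀ f ∈ Y, app f (nat k) ∈ X k) (h𝒱 : 𝒱 ∈ M)
    (h : ∀ W, W ∈ 𝒱 ↔ W ∈ τ k ∧ Good τ 𝒰 Y k y fun f => app f (nat k) ∈ W)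
    (hcov : X k ⊆ ZFSet.sUnion 𝒱) : Good τ 𝒰 Y k y fun _ => True := by
  classical
  obtain ⟨s, h1, h2⟩ := hc 𝒱 h𝒱 (fun W hW => ((h W).1 hW).1) hcov
  have key : ∀ t : Finset ZFSet.{0}, (∀ W ∈ t, W ∈ 𝒱) →
      Good τ 𝒰 Y k y fun f => ∃ W ∈ t, app f (nat k) ∈ W := by
    intro t
    induction t using Finset.induction_on with
    | empty => exact fun _ => ⟨X, fun i hi => ⟨(hT i).1, hy i hi⟩, ∅, by simp, by simp⟩
    | insert W t _ ih =>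
      intro ht
      obtain ⟨V, a1, s, a2, a3⟩ := ih fun W h => ht W (Finset.mem_insert_of_mem h)
      obtain ⟨V', b1, s', b2, b3⟩ := ((h W).1 (ht W (Finset.mem_insert_self _ _))).2
      refine ⟨fun i => V i ∩ V' i, fun i hi => ⟨(hT i).2 _ (a1 i hi).1 _ (b1 i hi).1,
        ZFSet.mem_inter.2 ⟨(a1 i hi).2, (b1 i hi).2⟩⟩, s ∪ s', fun U hU => ?_,
        fun f hf ⟨c1, W', c2, c3⟩ => ?_⟩
      · rcases Finset.mem_union.1 hU with h | h
        exacts [a2 U h, b2 U h]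
      · rcases Finset.mem_insert.1 c2 with rfl | c2
        · obtain ⟨U, d1, d2⟩ := b3 f hf ⟨fun i hi => (ZFSet.mem_inter.1 (c1 i hi)).2, c3⟩
          exact ⟨U, Finset.mem_union_right _ d1, d2⟩
        · obtain ⟨U, d1, d2⟩ := a3 f hf ⟨fun i hi => (ZFSet.mem_inter.1 (c1 i hi)).1, W', c2, c3⟩
          exact ⟨U, Finset.mem_union_left _ d1, d2⟩
  obtain ⟨V, a1, s', a2, a3⟩ := key s h1
  exact ⟨V, a1, s', a2, fun f hf hf' => a3 f hf ⟨hf'.1, h2 _ (hY f hf)⟩⟩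

theorem good_succ {τ : ℕ → ZFSet.{0}} {𝒰 Y : ZFSet.{0}} {k : ℕ} {y : ℕ → ZFSet.{0}}
    (h : Good τ 𝒰 Y (k + 1) y fun _ => True) :
    ∃ W, (W ∈ τ k ∧ Good τ 𝒰 Y k y fun f => app f (nat k) ∈ W) ∧ y k ∈ W := by
  obtain ⟨V, h1, s, h2, h3⟩ := h
  refine ⟨V k, ⟨(h1 k (by omega)).1, V, fun i hi => h1 i (by omega), s, h2,
    fun f hf hf' => h3 f hf ⟨fun i hi => ?_, trivial⟩⟩, (h1 k (by omega)).2⟩
  rcases Nat.lt_succ_iff_lt_or_eq.1 hi with h | rfl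
  exacts [hf'.1 i h, hf'.2]

/-- the product -/
noncomputable def prodY (M : Set ZFSet.{0}) (F : ZFSet.{0}) : ZFSet.{0} :=
  ZFSet.sep (fun f => (∀ n, app f (nat n) ∈ app F (nat n)) ∧ f = seq fun n => app f (nat n))
    (ZFSet.sep (· ∈ M) (ZFSet.powerset (ZFSet.prod ZFSet.omega
      (ZFSet.sUnion (ZFSet.range fun n => app F (nat n))))))

/-- the product topology -/
noncomputable def prodT (M : Set ZFSet.{0}) (F T : ZFSet.{0}) : ZFSet.{0} :=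
  ZFSet.sep (fun U => ∀ f ∈ U, ∃ (n : ℕ) (V : ℕ → ZFSet.{0}),
      (∀ i < n, V i ∈ app T (nat i) ∧ app f (nat i) ∈ V i) ∧
        ∀ g ∈ prodY M F, (∀ i < n, app g (nat i) ∈ V i) → g ∈ U)
    (ZFSet.sep (· ∈ M) (ZFSet.powerset (prodY M F)))

theorem mem_prodY {M : Set ZFSet.{0}} {F f : ZFSet.{0}} : f ∈ prodY M F ↔
    f ∈ M ∧ ∃ x : ℕ → ZFSet.{0}, (∀ n, x n ∈ app F (nat n)) ∧ f = seq x := by
  simp only [prodY, ZFSet.mem_sep, ZFSet.mem_powerset]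
  refine ⟨fun h => ⟨h.1.2, _, h.2⟩, ?_⟩
  rintro ⟨h, x, h1, rfl⟩
  refine ⟨⟨fun z hz => ?_, h⟩, by simpa only [app_seq] using h1, by simp only [app_seq]⟩
  obtain ⟨n, rfl⟩ := mem_seq.1 hz
  exact ZFSet.mem_prod.2 ⟨_, mem_omega_iff.2 ⟨n, rfl⟩, _, ZFSet.mem_sUnion.2
    ⟨_, ZFSet.mem_range_self n, h1 n⟩, rfl⟩

theorem isProduct (M : Set ZFSet.{0}) (X τ : ℕ → ZFSet.{0}) :
    IsProduct M X τ (prodY M (seq X)) (prodT M (seq X) (seq τ)) := by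
  refine ⟨fun f => by simp only [mem_prodY, app_seq], fun U => ?_⟩
  simp only [prodT, ZFSet.mem_sep, ZFSet.mem_powerset, app_seq]
  constructor
  · rintro ⟨⟨h1, h2⟩, h3⟩
    refine ⟨h2, h1, fun x hx => ?_⟩
    obtain ⟨n, V, a1, a2⟩ := h3 _ hx
    exact ⟨n, V, by simpa only [app_seq] using a1,
      fun y hy h => a2 _ hy (by simpa only [app_seq] using h)⟩
  · rintro ⟨h1, h2, h3⟩
    refine ⟨⟨h2, h1⟩, fun f hf => ?_⟩
    obtain ⟨-, x, -, rfl⟩ := mem_prodY.1 (h2 hf)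
    obtain ⟨n, V, a1, a2⟩ := h3 _ hf
    refine ⟨n, V, by simpa only [app_seq] using a1, fun g hg h => ?_⟩
    obtain ⟨-, y, -, rfl⟩ := mem_prodY.1 hg
    exact a2 y hg (by simpa only [app_seq] using h)

variable {P : Type} {Γ : Type} [Group Γ] [MulAction Γ P] [Preorder P] [OrdAct Γ P]
  {𝓕 : Filter Γ} {F T 𝒰 Y : World P → ZFSet.{0}}

omit [OrdAct Γ P] in
theorem meas_ex_lt {τ : ℕ → World P → ZFSet.{0}} (hτ : ∀ i, SN 𝓕 (τ i)) (k : ℕ)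
    {Φ : (ℕ → ZFSet.{0}) → World P → Prop}
    (hΦ : ∀ V V' w, (∀ i < k, V i = V' i) → Φ V w → Φ V' w)
    (h : ∀ x : ℕ → World P → ZFSet.{0}, (∀ i, SN 𝓕 (x i)) →
      Measurable fun w => Φ (fun i => x i w) w) :
    Measurable fun w => ∃ V : ℕ → ZFSet.{0}, (∀ i < k, V i ∈ τ i w) ∧ Φ V w := by
  refine (meas_ex_fin (𝓕 := 𝓕) (n := k) (Φ := fun V w => (∀ i : Fin k, V i ∈ τ i w) ∧
    Φ (fun i => if h : i < k then V ⟨i, h⟩ else τ i w) w) fun x hx =>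
      (Measurable.forall fun i => (hx i).mmem (hτ i)).and ?_).congr_ev ?_
  · have := h (fun i => if h : i < k then x ⟨i, h⟩ else τ i) fun i => by
      split_ifs
      exacts [hx _, hτ _]
    convert this using 4 with w i
    split_ifs <;> rfl
  · filter_upwards [ev_call fun i => (hτ i).ev_elem] with w hw
    constructor
    · rintro ⟨V, h1, h2⟩
      exact ⟨fun i => V i, fun i => hw i _ (h1 i i.2), fun i => h1 i i.2,
        hΦ _ _ w (fun i hi => by simp [hi]) h2⟩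
    · rintro ⟨V, -, h1, h2⟩
      exact ⟨_, fun i hi => by simpa [hi] using h1 ⟨i, hi⟩, h2⟩

theorem meas_good {τ y : ℕ → World P → ZFSet.{0}} (hτ : ∀ i, SN 𝓕 (τ i)) (h𝒰 : SN 𝓕 𝒰)
    (hY : SN 𝓕 Y) (k : ℕ) (hy : ∀ i < k, SN 𝓕 (y i)) {W : ZFSet.{0} → World P → Prop}
    (hW : ∀ x, SN 𝓕 x → Measurable fun w => W (x w) w) :
    Measurable fun w => Good (fun i => τ i w) (𝒰 w) (Y w) k (fun i => y i w) fun f => W f w := by
  have := meas_ex_lt hτ k (Φ := fun V w => (∀ i < k, y i w ∈ V i) ∧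
    Cov (𝒰 w) (Y w) fun f => (∀ i < k, app f (nat i) ∈ V i) ∧ W f w)
    (fun V V' w e ⟨h1, s, h2, h3⟩ => ⟨fun i hi => e i hi ▸ h1 i hi, s, h2, fun f hf h =>
      h3 f hf ⟨fun i hi => (e i hi).symm ▸ h.1 i hi, h.2⟩⟩) fun V hV =>
      (Measurable.forall fun i => measurable_dimp fun hi => (hy i hi).mmem (hV i)).and
      (meas_cov h𝒰 hY (Φ := fun f w => (∀ i < k, app f (nat i) ∈ V i w) ∧ W f w) fun f hf =>
        (Measurable.forall fun i => measurable_dimp fun _ =>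
          (hf.app (sn_nat i)).mmem (hV i)).and (hW f hf))
  convert this using 3 with w
  simp only [Good, forall_and, and_assoc]

theorem sn_prodY [Conj 𝓕] (hF : SN 𝓕 F) : SN 𝓕 fun w => prodY (MS 𝓕 w) (F w) :=
  ((sn_omega.prod (sn_range (fun n => hF.app (sn_nat n))
    (hF.inv.map fun F => ZFSet.range fun n => app F (nat n))).sUnion).power).sep
    (Φ := fun f w => (∀ n, app f (nat n) ∈ app (F w) (nat n)) ∧ f = seq fun n => app f (nat n))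
    (fun _ hf => (Measurable.forall fun n => (hf.app (sn_nat n)).mmem (hF.app (sn_nat n))).and
      (hf.meq (sn_seq (fun n => hf.app (sn_nat n)) (hf.inv.map fun f n => app f (nat n)))))
    (hF.inv.map fun F f => (∀ n, app f (nat n) ∈ app F (nat n)) ∧ f = seq fun n => app f (nat n))

theorem sn_prodT [Conj 𝓕] (hF : SN 𝓕 F) (hT : SN 𝓕 T) :
    SN 𝓕 fun w => prodT (MS 𝓕 w) (F w) (T w) := by
  refine (sn_prodY hF).power.sep (Φ := fun U w => ∀ f ∈ U, ∃ (n : ℕ) (V : ℕ → ZFSet.{0}),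
      (∀ i < n, V i ∈ app (T w) (nat i) ∧ app f (nat i) ∈ V i) ∧
        ∀ g ∈ prodY (MS 𝓕 w) (F w), (∀ i < n, app g (nat i) ∈ V i) → g ∈ U) (fun U hU => ?_)
    ((hT.inv.prod (sn_prodY hF).inv).map fun t U => ∀ f ∈ U, ∃ (n : ℕ) (V : ℕ → ZFSet.{0}),
      (∀ i < n, V i ∈ app t.1 (nat i) ∧ app f (nat i) ∈ V i) ∧
        ∀ g ∈ t.2, (∀ i < n, app g (nat i) ∈ V i) → g ∈ U)
  refine hU.mall (Φ := fun f w => ∃ (n : ℕ) (V : ℕ → ZFSet.{0}),
      (∀ i < n, V i ∈ app (T w) (nat i) ∧ app f (nat i) ∈ V i) ∧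
        ∀ g ∈ prodY (MS 𝓕 w) (F w), (∀ i < n, app g (nat i) ∈ V i) → g ∈ U w) fun f hf =>
    Measurable.exists fun n => ?_
  have := meas_ex_lt (fun i => hT.app (sn_nat i)) n (Φ := fun V w =>
    (∀ i < n, app (f w) (nat i) ∈ V i) ∧
      ∀ g ∈ prodY (MS 𝓕 w) (F w), (∀ i < n, app g (nat i) ∈ V i) → g ∈ U w)
    (fun V V' w e ⟨h1, h2⟩ => ⟨fun i hi => e i hi ▸ h1 i hi, fun g hg h =>
      h2 g hg fun i hi => (e i hi).symm ▸ h i hi⟩) fun V hV =>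
      (Measurable.forall fun i => measurable_dimp fun _ => (hf.app (sn_nat i)).mmem (hV i)).and
      ((sn_prodY hF).mall (Φ := fun g w => (∀ i < n, app g (nat i) ∈ V i w) → g ∈ U w)
        fun g hg => (Measurable.forall fun i => measurable_dimp fun _ =>
          (hg.app (sn_nat i)).mmem (hV i)).imp (hg.mmem hU))
  convert this using 3 with w
  simp only [forall_and, and_assoc]

variable (P) in
/-- existence of invariant points in invariant closed subsets of compact metrizable spaces -/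
def Key (𝓕 : Filter Γ) : Prop :=
  ∀ S ∈ 𝓕, ∀ p : P, ∃ S' ∈ 𝓕, S' ⊆ S ∧ ∃ q : P,
    (∀ Φ : World P → Prop, Inv (𝓟 S') Φ → Sem p Φ → Sem q Φ) ∧
    ∀ X τ 𝒱 : World P → ZFSet.{0}, SN 𝓕 X → SN 𝓕 τ → SN 𝓕 𝒱 → Inv (𝓟 S') X → Inv (𝓟 S') τ →
      Inv (𝓟 S') 𝒱 → (Sem q fun w => Compact (MS 𝓕 w) (X w) (τ w) ∧
        (∃ D ∈ MS 𝓕 w, Met D (X w) (τ w)) ∧ 𝒱 w ⊆ τ w ∧ ¬ X w ⊆ ZFSet.sUnion (𝒱 w)) →
      ∃ y, SN 𝓕 y ∧ Inv (𝓟 S') y ∧ Sem q fun w => y w ∈ X w ∧ y w ∉ ZFSet.sUnion (𝒱 w)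

/-- a counterexample to compactness of the product -/
def Bad (M : Set ZFSet.{0}) (F T 𝒰 : ZFSet.{0}) : Prop :=
  (∀ n, (app F (nat n) ∈ app T (nat n) ∧
    ∀ U ∈ app T (nat n), ∀ V ∈ app T (nat n), U ∩ V ∈ app T (nat n)) ∧
    Compact M (app F (nat n)) (app T (nat n)) ∧
    ∃ D ∈ M, Met D (app F (nat n)) (app T (nat n))) ∧
    𝒰 ⊆ prodT M F T ∧ prodY M F ⊆ ZFSet.sUnion 𝒰 ∧ ¬ Cov 𝒰 (prodY M F) fun _ => True

theorem ev_prod_compact [Conj 𝓕] (hK : Key P 𝓕) (hF : SN 𝓕 F) (hT : SN 𝓕 T) (h𝒰 : SN 𝓕 𝒰) :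
    ∀ᶠ w in gen P, ¬ Bad (MS 𝓕 w) (F w) (T w) (𝒰 w) := by
  have hX : ∀ n, SN 𝓕 fun w => app (F w) (nat n) := fun n => hF.app (sn_nat n)
  have hτ : ∀ n, SN 𝓕 fun w => app (T w) (nat n) := fun n => hT.app (sn_nat n)
  have hY := sn_prodY hF
  have hm : Measurable fun w => Bad (MS 𝓕 w) (F w) (T w) (𝒰 w) :=
    (Measurable.forall fun n => (((hX n).mmem (hτ n)).and ((hτ n).mall
      (Φ := fun U w => ∀ V ∈ app (T w) (nat n), U ∩ V ∈ app (T w) (nat n)) fun U hU =>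
        (hτ n).mall fun V hV => SN.mmem ((hU.sep (Φ := fun z w => z ∈ V w)
          (fun z hz => hz.mmem hV) (hV.inv.map fun V z => z ∈ V)).congr
          (Eventually.of_forall fun w => rfl)) (hτ n))).and ((meas_compact (hX n) (hτ n)).and
        (meas_ex_MS fun D hD => meas_met hD (hX n) (hτ n)))).and
    ((h𝒰.msub (sn_prodT hF hT)).and ((hY.msub h𝒰.sUnion).and
      (meas_cov h𝒰 hY (Φ := fun _ _ => True) fun _ _ => measurable_const).not))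
  refine ev_of_dense fun p0 => ?_
  obtain ⟨p, hp0, hp⟩ := hm.decides p0
  refine ⟨p, hp0, hp.resolve_left fun hp => ?_⟩
  obtain ⟨S, S1, S2, q, q1, q2⟩ := hK _ ((hF.inv.prod hT.inv).prod h𝒰.inv) p
  have hI : Inv (𝓟 S) fun w => ((F w, T w), 𝒰 w) := fun π hπ => S2 hπ
  have hI' : Inv (𝓟 S) fun w => (MS 𝓕 w, ((F w, T w), 𝒰 w)) := inv_MS.prod hI
  have hq := q1 _ (hI'.map fun t => Bad t.1 t.2.1.1 t.2.1.2 t.2.2) hp
  let G : ℕ → (ℕ → World P → ZFSet.{0}) → World P → (ZFSet.{0} → Prop) → Prop := fun k y w W =>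
    Good (fun i => app (T w) (nat i)) (𝒰 w) (prodY (MS 𝓕 w) (F w)) k (fun i => y i w) W
  obtain ⟨y, hy⟩ := dep_choice (fun k y => (∀ i < k, SN 𝓕 (y i) ∧ Inv (𝓟 S) (y i) ∧
      Sem q fun w => y i w ∈ app (F w) (nat i)) ∧ Sem q fun w => ¬ G k y w fun _ => True)
    (fun k y y' e h => ⟨fun i hi => e i hi ▸ h.1 i hi, h.2.imp' fun w h1 h2 =>
      h1 (h2.congr fun i hi => by rw [e i hi])⟩) (fun _ => F)
    ⟨by simp, hq.imp' fun w h ⟨_, _, s, h1, h2⟩ =>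
      h.2.2.2 ⟨s, h1, fun f hf _ => h2 f hf ⟨by simp, trivial⟩⟩⟩ fun k y ⟨h1, h2⟩ => by
    have hy' : Inv (𝓟 S) fun w (i : Fin k) => y i w := inv_pi fun i => (h1 i i.2).2.1
    let 𝒱 : World P → ZFSet.{0} := fun w =>
      ZFSet.sep (fun W => G k y w fun f => app f (nat k) ∈ W) (app (T w) (nat k))
    have i1 : Inv (𝓟 S) fun w (W : ZFSet.{0}) => G k y w fun f => app f (nat k) ∈ W := by
      have := (hI'.prod hy').map fun t (W : ZFSet.{0}) => Good (fun i => app t.1.2.1.2 (nat i)) t.1.2.2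
        (prodY t.1.1 t.1.2.1.1) k (fun i => if h : i < k then t.2 ⟨i, h⟩ else ∅)
          fun f => app f (nat k) ∈ W
      refine this.congr (Eventually.of_forall fun w => funext fun W => propext ?_)
      exact ⟨fun h => Good.congr h fun i hi => by simp [hi],
        fun h => Good.congr h fun i hi => by simp [hi]⟩
    have i2 : Inv (𝓟 S) fun w => app (T w) (nat k) := hI.map fun t => app t.1.2 (nat k)
    have s1 : SN 𝓕 𝒱 := (hτ k).sep (fun W hW => meas_good hτ h𝒰 hY k (fun i hi => (h1 i hi).1)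
      (W := fun f w => app f (nat k) ∈ W w) fun f hf => (hf.app (sn_nat k)).mmem hW)
      (i1.mono (le_principal_iff.2 S1))
    obtain ⟨a, a1, a2, a3⟩ := q2 _ _ 𝒱 (hX k) (hτ k) s1 (hI.map fun t => app t.1.1 (nat k)) i2
      ((i1.prod i2).map fun t => ZFSet.sep t.1 t.2) (by
        have h3 : Sem q fun w => ∀ i, i < k → y i w ∈ app (F w) (nat i) := by
          have : ∀ᶠ w in gen P, ∀ i, ∀ _ : i < k, w.Has q → y i w ∈ app (F w) (nat i) :=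
            ev_call fun i => ev_dimp fun hi => (h1 i hi).2.2
          exact this.mono fun w h hq i hi => h i hi hq
        refine ((hq.and h2).and h3).imp ?_
        filter_upwards [s1.ev_mem] with w b1 ⟨⟨b2, b3⟩, b4⟩
        refine ⟨(b2.1 k).2.1, (b2.1 k).2.2, fun W hW => (ZFSet.mem_sep.1 hW).1, fun h => b3 ?_⟩
        refine good_step (fun i => (b2.1 i).1) (b2.1 k).2.1 b4 (fun f hf => ?_) b1
          (fun W => ZFSet.mem_sep) h
        obtain ⟨-, x, c1, rfl⟩ := mem_prodY.1 hf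
        rw [app_seq]
        exact c1 k)
    refine ⟨a, fun i hi => ?_, a3.imp' fun w b1 b2 => b1.2 ?_⟩
    · rcases Nat.lt_succ_iff_lt_or_eq.1 hi with h | rfl
      · rw [Function.update_of_ne h.ne]
        exact h1 i h
      · rw [Function.update_self]
        exact ⟨a1, a2, a3.imp' fun _ h => h.1⟩
    · obtain ⟨W, c1, c2⟩ := good_succ b2
      refine ZFSet.mem_sUnion.2 ⟨W, ZFSet.mem_sep.2 ⟨c1.1, c1.2.congr fun i hi => ?_⟩, ?_⟩
      · rw [Function.update_of_ne hi.ne]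
      · simpa using c2
  have hf : SN 𝓕 fun w => seq fun n => y n w := by
    refine sn_seq (fun n => ((hy (n + 1)).1 n (by omega)).1) (mem_of_superset S1 fun π hπ => ?_)
    filter_upwards [ev_call fun n => ((hy (n + 1)).1 n (by omega)).2.1 hπ] with w hw
    exact funext hw
  obtain ⟨w, w1, b1, b2, b3, b4⟩ := hq.exists (hf.ev_mem.and
    ((ev_call fun n => ((hy (n + 1)).1 n (by omega)).2.2).and (ev_call fun n => (hy n).2)))
  have w2 := w.has_of_mem w1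
  obtain ⟨U, c1, c2⟩ := ZFSet.mem_sUnion.1
    (b1.2.2.1 (mem_prodY.2 ⟨b2, _, fun n => b3 n w2, rfl⟩))
  obtain ⟨n, V, c3, c4⟩ := (ZFSet.mem_sep.1 (b1.2.1 c1)).2 _ c2
  exact b4 n w2 ⟨V, by simpa only [app_seq] using c3, {U}, by simpa using c1,
    fun f hf h => ⟨U, by simp, c4 f hf h.1⟩⟩

theorem ev_cpmcc [Conj 𝓕] (hK : Key P 𝓕) : ∀ᶠ w in gen P, CPMCC (MS 𝓕 w) := by
  have h1 : ∀ᶠ w in gen P, ∀ F ∈ MS 𝓕 w, ∀ T ∈ MS 𝓕 w, ∀ X τ, F = seq X → T = seq τ →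
      CMFamily (MS 𝓕 w) X τ → ∃ Y ∈ MS 𝓕 w, ∃ σ ∈ MS 𝓕 w, IsProduct (MS 𝓕 w) X τ Y σ ∧
        Compact (MS 𝓕 w) Y σ := by
    refine ev_all_MS fun F hF => ev_all_MS fun T hT => ?_
    filter_upwards [(sn_prodY hF).ev_mem, (sn_prodT hF hT).ev_mem,
      ev_call fun n => ev_met (hF.app (sn_nat n)) (hT.app (sn_nat n)),
      ev_all_MS (Φ := fun 𝒰 w => ¬ Bad (MS 𝓕 w) (F w) (T w) 𝒰)
        fun 𝒰 h𝒰 => ev_prod_compact hK hF hT h𝒰] with w b1 b2 b3 b4 X τ e1 e2 ⟨_, _, a3⟩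
    rw [e1, e2] at b2 b3 b4
    rw [e1] at b1
    refine ⟨_, b1, _, b2, isProduct _ X τ, compact_iff.2 fun 𝒰 c1 c2 c3 => ?_⟩
    by_contra c4
    simp only [app_seq, Bad] at b3 b4
    exact b4 𝒰 c1 ⟨fun n => ⟨⟨(a3 n).1.2.1, (a3 n).1.2.2.1⟩, (a3 n).2.1, b3 n (a3 n).2.2⟩,
      c2, c3, c4⟩
  filter_upwards [h1] with w hw X τ h using hw _ h.1 _ h.2.1 X τ rfl rfl h

end Pool.Agent.P.MP_f0e779_lc
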