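import Pool.Agent.P.MP_f0e779_lc.Aut

/-! Automatic continuity for the group of order automorphisms of the rationals
(after Rosendal and Solecki). -/

open Set

namespace Pool.Agent.P.MP_f0e779_lc

/-- a length function whose unit ball has countably many translates covering the group -/
structure Len (l : A → ℝ) (χ : A → ℕ) : Prop where
  mul : ∀ g h, l (g * h) ≤ l g + l h
  inv : ∀ g, l g⁻¹ = l g
  col : ∀ g h, χ g = χ h → l (g⁻¹ * h) ≤ 1

variable {l : A → ℝ} {χ : A → ℕ}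

theorem Len.conj (H : Len l χ) (g h : A) : l (g * h * g⁻¹) ≤ l h + 2 * l g := by
  have h1 := H.mul (g * h) g⁻¹
  have h2 := H.mul g h
  rw [H.inv] at h1
  linarith

theorem Len.conj' (H : Len l χ) (g h : A) : l h ≤ l (g⁻¹ * h * g) + 2 * l g := by
  have := H.conj g (g⁻¹ * h * g)
  rwa [show g * (g⁻¹ * h * g) * g⁻¹ = h by group] at this

theorem Len.full (H : Len l χ) (U : ℕ → Set ℚ) (hU : Pairwise fun i j => Disjoint (U i) (U j)) :
    ∃ n, ∀ h, Supp (U n) h → ∃ g, l g ≤ 1 ∧ ∀ x ∈ U n, g x = h x := by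
  by_contra hc
  push Not at hc
  have : ∀ n, ∃ h, Supp (U n) h ∧ ∀ g, χ g = n → ¬ ∀ x ∈ U n, g x = h x := by
    intro n
    by_contra h1
    push Not at h1
    obtain ⟨h, a1, a2⟩ := hc n
    obtain ⟨g0, b1, b2⟩ := h1 1 (supp_one _)
    obtain ⟨g, c1, c2⟩ := h1 h a1
    obtain ⟨x, d1, d2⟩ := a2 (g0⁻¹ * g) (H.col _ _ (b1.trans c1.symm))
    exact d2 (by rw [A.mul_apply, c2 x d1]; exact A.inv_eq (b2 _ (a1.mem d1)))
  choose h h1 h2 using this
  obtain ⟨g, a1, -⟩ := patch U hU h h1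
  exact h2 _ g rfl (a1 _)

theorem exists_col_eq {T : Type*} [Uncountable T] (f : T → ℕ) : ∃ a b, a ≠ b ∧ f a = f b := by
  by_contra hc
  push Not at hc
  exact not_countable (α := T) (Function.Injective.countable (f := f) fun a b h => by
    by_contra h'
    exact hc a b h' h)

theorem swindle {Y : Set ℚ} {f h : A} (hh : Supp Y h)
    (hd : Pairwise fun k m : ℕ => Disjoint ((f ^ k) '' Y) ((f ^ m) '' Y)) :
    ∃ H : A, Supp (⋃ k : ℕ, (f ^ k) '' Y) H ∧ h = H * f * H⁻¹ * f⁻¹ := by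
  have hs : ∀ k : ℕ, Supp ((f ^ k) '' Y) (f ^ k * h * (f ^ k)⁻¹) := fun k x hx => by
    rw [A.mul_apply, A.mul_apply, hh _ fun h' => hx ⟨_, h', A.apply_inv _ _⟩, A.apply_inv]
  obtain ⟨H, a1, a2⟩ := patch _ hd _ hs
  refine ⟨H, a2, ?_⟩
  have key : H = h * (f * H * f⁻¹) := by
    ext x
    simp only [A.mul_apply]
    have hup : ∀ k : ℕ, f⁻¹ x ∈ (f ^ k) '' Y → x ∈ (f ^ (k + 1)) '' Y := by
      rintro k ⟨y, h1, h2⟩
      exact ⟨y, h1, by rw [pow_succ', A.mul_apply, h2, A.apply_inv]⟩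
    have h0 : ∀ y, y ∈ Y → y ∈ (f ^ 0 : A) '' Y := fun y hy => ⟨y, hy, by simp⟩
    by_cases hx : x ∈ ⋃ k : ℕ, (f ^ k) '' Y
    · obtain ⟨k, hk⟩ := mem_iUnion.1 hx
      cases k with
      | zero =>
        rw [a2 (f⁻¹ x) fun h' => by
          obtain ⟨m, hm⟩ := mem_iUnion.1 h'
          exact disjoint_left.1 (hd (Nat.succ_ne_zero m)) (hup m hm) hk, A.apply_inv, a1 0 x hk]
        simp
      | succ k =>
        have h1 : f⁻¹ x ∈ (f ^ k) '' Y := by
          obtain ⟨y, h1, rfl⟩ := hk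
          exact ⟨y, h1, by rw [pow_succ', A.mul_apply, A.inv_apply]⟩
        have h2 : f (H (f⁻¹ x)) = H x := by
          rw [a1 k _ h1, a1 _ _ hk, ← A.mul_apply f, ← A.mul_apply _ f⁻¹]
          congr 1
          group
        rw [h2, hh]
        intro h3
        have h4 : H x ∈ (f ^ (k + 1)) '' Y := by
          rw [a1 _ _ hk]
          exact (hs _).mem hk
        exact disjoint_left.1 (hd (Nat.succ_ne_zero k)) h4 (h0 _ h3)
    · rw [a2 x hx, a2 (f⁻¹ x) fun h' => by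
        obtain ⟨m, hm⟩ := mem_iUnion.1 h'
        exact hx (mem_iUnion.2 ⟨_, hup m hm⟩), A.apply_inv,
        hh x fun h' => hx (mem_iUnion.2 ⟨0, h0 x h'⟩)]
  calc h = h * (f * H * f⁻¹) * f * H⁻¹ * f⁻¹ := by group
    _ = _ := by rw [← key]

theorem Len.good (H : Len l χ) {J : Type} (a b : J → ℚ) (hab : ∀ j, a j < b j)
    (hd : Pairwise fun i j => Disjoint (Ioo (a i) (b i)) (Ioo (a j) (b j))) :
    ∃ y z : J → ℚ, (∀ j, a j < y j ∧ y j < z j ∧ z j < b j) ∧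
      ∀ h, Supp (⋃ j, Ioo (y j) (z j)) h → l h ≤ 4 := by
  classical
  choose s hs1 hs2 using fun j => split (hab j)
  have hsub : ∀ j n, Ioo (s j n) (s j (n + 1)) ⊆ Ioo (a j) (b j) := fun j n x hx =>
    ⟨(hs2 j n).1.trans hx.1, hx.2.trans (hs2 j _).2⟩
  obtain ⟨n, hn⟩ := H.full (fun n => ⋃ j, Ioo (s j n) (s j (n + 1))) fun m n hmn => by
    refine disjoint_iUnion_left.2 fun i => disjoint_iUnion_right.2 fun j => ?_
    by_cases hij : i = j
    · subst hij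
      exact disjoint_Ioo_of_strictMono (hs1 i).monotone hmn
    · exact (hd hij).mono (hsub _ _) (hsub _ _)
  choose t ht1 ht2 using fun j => split (hs1 j (Nat.lt_succ_self n))
  let V : J × ℕ → Set ℚ := fun x => Ioo (t x.1 x.2) (t x.1 (x.2 + 1))
  have hV : ∀ x : J × ℕ, V x ⊆ Ioo (s x.1 n) (s x.1 (n + 1)) := fun x y hy =>
    ⟨(ht2 _ _).1.trans hy.1, hy.2.trans (ht2 _ _).2⟩
  have hVd : Pairwise fun x y => Disjoint (V x) (V y) := by
    rintro ⟨i, k⟩ ⟨j, m⟩ hne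
    by_cases hij : i = j
    · subst hij
      exact disjoint_Ioo_of_strictMono (ht1 i).monotone fun h => hne (Prod.ext rfl h)
    · exact (hd hij).mono ((hV _).trans (hsub _ _)) ((hV _).trans (hsub _ _))
  have he : ∀ x : J × ℕ, ∃ (e : A) (u : ℚ), Supp (V x) e ∧ u ∈ V x ∧ u < e u := by
    intro x
    obtain ⟨u, h1, h2⟩ := exists_between (ht1 x.1 (Nat.lt_succ_self x.2))
    obtain ⟨v, h3, h4⟩ := exists_between h2
    obtain ⟨e, h5, h6⟩ := move1 (a := t x.1 x.2) (d := t x.1 (x.2 + 1)) ⟨h1, h2⟩ ⟨h1.trans h3, h4⟩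
    exact ⟨e, u, h5, ⟨h1, h2⟩, h6 ▸ h3⟩
  choose e u he1 he2 he3 using he
  choose F hF1 hF2 using fun S : Set ℕ => patch V hVd (fun x => if x.2 ∈ S then e x else 1)
    fun x => by
      split_ifs
      exacts [he1 x, supp_one _]
  have hST : ∃ S T m, χ (F S) = χ (F T) ∧ m ∉ S ∧ m ∈ T := by
    have : Uncountable (Set ℕ) := ⟨fun h => by
      obtain ⟨f, hf⟩ := exists_surjective_nat (Set ℕ)
      exact Function.cantor_surjective f hf⟩
    obtain ⟨S, T, h1, h2⟩ := exists_col_eq fun S => χ (F S)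
    by_contra hc
    push Not at hc
    refine h1 (Set.ext fun m => ⟨fun h => ?_, fun h => ?_⟩)
    · by_contra h'
      exact hc T S m h2.symm h' h
    · by_contra h'
      exact hc S T m h2 h' h
  obtain ⟨S, T, m, c1, c2, c3⟩ := hST
  let f : A := (F S)⁻¹ * F T
  have f1 : l f ≤ 1 := H.col _ _ c1
  have f2 : Supp (⋃ j, Ioo (s j n) (s j (n + 1))) f :=
    ((hF2 S).inv.mul (hF2 T)).mono (iUnion_subset fun x => (hV x).trans
      (subset_iUnion (fun j => Ioo (s j n) (s j (n + 1))) x.1))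
  have f3 : ∀ j, ∀ x ∈ V (j, m), f x = e (j, m) x := fun j x hx => by
    rw [A.mul_apply, hF1 T _ x hx, if_pos c3]
    refine A.inv_eq ?_
    rw [hF1 S _ _ ((he1 _).mem hx), if_neg c2, A.one_apply]
  have f4 : ∀ j (k : ℕ), ∀ x ∈ V (j, m), (f ^ k) x ∈ V (j, m) := fun j k x hx => by
    induction k with
    | zero => exact hx
    | succ k ih => rw [pow_succ', A.mul_apply, f3 j _ ih]; exact (he1 _).mem ih
  have f5 : ∀ j (k : ℕ), f (u (j, m)) ≤ (f ^ (k + 1)) (u (j, m)) := fun j k => by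
    induction k with
    | zero => simp
    | succ k ih =>
      rw [pow_succ', A.mul_apply]
      refine f.monotone (le_trans ?_ ih)
      rw [f3 j _ (he2 _)]
      exact (he3 _).le
  have hY : ∀ j, Ioo (u (j, m)) (f (u (j, m))) ⊆ V (j, m) := fun j x hx =>
    ⟨(he2 _).1.trans hx.1, hx.2.trans (by simpa using (f4 j 1 _ (he2 _)).2)⟩
  refine ⟨fun j => u (j, m), fun j => f (u (j, m)), fun j => ⟨?_, ?_, ?_⟩, fun h hh => ?_⟩
  · exact (hsub _ _ (hV _ (he2 (j, m)))).1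
  · change _ < f _
    rw [f3 j _ (he2 _)]; exact he3 _
  · have := f4 j 1 _ (he2 (j, m))
    rw [pow_one] at this
    exact (hsub _ _ (hV _ this)).2
  · have hlt : ∀ k k' : ℕ, k < k' → Disjoint ((f ^ k) '' ⋃ j, Ioo (u (j, m)) (f (u (j, m))))
        ((f ^ k') '' ⋃ j, Ioo (u (j, m)) (f (u (j, m)))) := by
      intro k k' hk
      obtain ⟨d, rfl⟩ := Nat.exists_eq_add_of_lt hk
      refine disjoint_left.2 ?_
      rintro _ ⟨p, hp, rfl⟩ ⟨q, hq, h1⟩
      obtain ⟨i, hi⟩ := mem_iUnion.1 hp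
      obtain ⟨j, hj⟩ := mem_iUnion.1 hq
      rw [add_assoc, pow_add, A.mul_apply] at h1
      have h2 := (f ^ k).injective h1
      have hij : i = j := by
        by_contra hc
        exact disjoint_left.1 (hVd (show (i, m) ≠ (j, m) from fun h => hc (congrArg Prod.fst h)))
          (hY i hi) (h2 ▸ f4 j _ _ (hY j hj))
      subst hij
      have h3 := (f ^ (d + 1)).strictMono hj.1
      rw [h2] at h3
      exact lt_irrefl _ ((f5 i d).trans_lt (h3.trans hi.2))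
    obtain ⟨K, k1, k2⟩ := swindle (f := f) hh fun k k' hk => by
      rcases lt_or_gt_of_ne hk with hk | hk
      exacts [hlt _ _ hk, (hlt _ _ hk).symm]
    have k3 : Supp (⋃ j, Ioo (s j n) (s j (n + 1))) K := k1.mono (iUnion_subset fun k => by
      rintro _ ⟨p, hp, rfl⟩
      obtain ⟨i, hi⟩ := mem_iUnion.1 hp
      exact mem_iUnion.2 ⟨i, hV _ (f4 i k _ (hY i hi))⟩)
    obtain ⟨g, g1, g2⟩ := hn K k3
    rw [k2, ← conj_eq k3 f2 g2]
    have a1 := H.mul (g * f * g⁻¹) f⁻¹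
    have a2 := H.conj g f
    rw [H.inv] at a1
    linarith

theorem Len.tail (H : Len l χ) {J : Type} (a' a b b' : J → ℚ)
    (hab : ∀ j, a' j < a j ∧ a j < b j ∧ b j < b' j)
    (hd : Pairwise fun i j => Disjoint (Ioo (a' i) (b' i)) (Ioo (a' j) (b' j))) (ρ : J → ℕ) :
    ∃ m, ∀ h, Supp (⋃ j, ⋃ _ : m ≤ ρ j, Ioo (a j) (b j)) h → l h ≤ 6 := by
  have hsub : ∀ j, Ioo (a j) (b j) ⊆ Ioo (a' j) (b' j) := fun j =>
    Ioo_subset_Ioo (hab j).1.le (hab j).2.2.le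
  obtain ⟨y, z, h1, h2⟩ := H.good a b (fun j => (hab j).2.1) fun i j hij =>
    (hd hij).mono (hsub i) (hsub j)
  choose t t1 t2 t3 using fun j => move2 ((hab j).1.trans (h1 j).1) (h1 j).2.1
    ((h1 j).2.2.trans (hab j).2.2) (hab j).1 (hab j).2.1 (hab j).2.2
  have t4 : ∀ j (k : ℕ), (t j ^ (k + 1)) (y j) ≤ a j ∧ b j ≤ (t j ^ (k + 1)) (z j) := by
    intro j k
    induction k with
    | zero => simp [t2, t3]
    | succ k ih =>
      rw [pow_succ', A.mul_apply, A.mul_apply]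
      exact ⟨(t2 j) ▸ (t j).monotone (ih.1.trans (h1 j).1.le),
        (t3 j) ▸ (t j).monotone ((h1 j).2.2.le.trans ih.2)⟩
  choose G G1 G2 using fun r : ℝ => patch _ hd (fun j => t j ^ ⌊r * ρ j⌋₊) fun j => (t1 j).pow _
  have hrs : ∃ r s : ℝ, 0 ≤ r ∧ r < s ∧ χ (G r) = χ (G s) := by
    obtain ⟨r, s, c1, c2⟩ := exists_col_eq fun r : ℝ => χ (G (Real.exp r))
    rcases lt_or_gt_of_ne c1 with c1 | c1
    · exact ⟨_, _, (Real.exp_pos _).le, Real.exp_lt_exp.2 c1, c2⟩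
    · exact ⟨_, _, (Real.exp_pos _).le, Real.exp_lt_exp.2 c1, c2.symm⟩
  obtain ⟨r, s, r0, rs, c⟩ := hrs
  obtain ⟨m, hm⟩ := exists_nat_ge (1 / (s - r))
  let g : A := (G r)⁻¹ * G s
  have g1 : l g ≤ 1 := H.col _ _ c
  have g2 : Supp (⋃ j, Ioo (a' j) (b' j)) g := (G2 r).inv.mul (G2 s)
  have g3 : ∀ j, ∀ x ∈ Ioo (a' j) (b' j), g x = (t j ^ (⌊s * ρ j⌋₊ - ⌊r * ρ j⌋₊)) x := by
    intro j x hx
    rw [A.mul_apply, G1 s j x hx]
    refine A.inv_eq ?_
    rw [G1 r j _ (((t1 j).pow _).mem hx), ← A.mul_apply, ← pow_add, Nat.add_sub_cancel']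
    exact Nat.floor_le_floor (mul_le_mul_of_nonneg_right rs.le (Nat.cast_nonneg _))
  refine ⟨m, fun h hh => ?_⟩
  have key : Supp (⋃ j, Ioo (y j) (z j)) (g⁻¹ * h * g) := by
    intro x hx
    rw [A.mul_apply, A.mul_apply, hh, A.inv_apply]
    intro h3
    simp only [mem_iUnion] at h3
    obtain ⟨j, j1, j2⟩ := h3
    have hxj : x ∈ Ioo (a' j) (b' j) := by
      by_cases h4 : x ∈ ⋃ j, Ioo (a' j) (b' j)
      · obtain ⟨i, hi⟩ := mem_iUnion.1 h4
        have : i = j := by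
          by_contra hc
          refine disjoint_left.1 (hd hc) ?_ (hsub j j2)
          rw [g3 i x hi]
          exact ((t1 i).pow _).mem hi
        exact this ▸ hi
      · rw [g2 x h4] at j2
        exact hsub j j2
    have hk : ⌊r * ρ j⌋₊ + 1 ≤ ⌊s * ρ j⌋₊ := by
      rw [← Nat.floor_add_one (mul_nonneg r0 (Nat.cast_nonneg _))]
      refine Nat.floor_le_floor ?_
      have e1 : (m : ℝ) ≤ ρ j := by exact_mod_cast j1
      have e2 : 0 < s - r := sub_pos.2 rs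
      rw [div_le_iff₀ e2] at hm
      nlinarith
    obtain ⟨d, hd'⟩ : ∃ d, ⌊s * ρ j⌋₊ - ⌊r * ρ j⌋₊ = d + 1 := ⟨⌊s * ρ j⌋₊ - ⌊r * ρ j⌋₊ - 1, by omega⟩
    rw [g3 j x hxj, hd'] at j2
    exact hx (mem_iUnion.2 ⟨j, (t j ^ (d + 1)).lt_iff_lt.1 ((t4 j d).1.trans_lt j2.1),
      (t j ^ (d + 1)).lt_iff_lt.1 (j2.2.trans_le (t4 j d).2)⟩)
  have a1 := H.conj' g h
  have a2 := h2 _ key
  linarith

theorem Len.baire (H : Len l χ) : ∃ F : Finset ℚ, ∀ k : A, (∀ x ∈ F, k x = x) →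
    ∀ T : Finset ℚ, ∃ g, l g ≤ 1 ∧ ∀ x ∈ T, g x = k x := by
  classical
  have : ∃ n p, ∀ s : Order.PartialIso ℚ ℚ, p ≤ s → ∃ g, χ g = n ∧ Ext g s := by
    by_contra hc
    push Not at hc
    obtain ⟨g, -, h⟩ := generic (fun n => {s | ∀ g, χ g = n → ¬ Ext g s})
      (fun n p => let ⟨s, h1, h2⟩ := hc n p; ⟨s, h2, h1⟩) default
    obtain ⟨s, h1, h2⟩ := h (χ g)
    exact h1 g rfl h2
  obtain ⟨n, p, hp⟩ := this
  obtain ⟨g0, a1, a2⟩ := hp p le_rfl
  refine ⟨p.1.image Prod.fst, fun k hk T => ?_⟩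
  obtain ⟨g, b1, b2⟩ := hp ⟨(p.1.image Prod.fst ∪ T).image fun x => (x, (g0 * k) x), by
    simp only [Finset.mem_image]
    rintro _ ⟨x, -, rfl⟩ _ ⟨y, -, rfl⟩
    exact ((g0 * k).strictMono.cmp_map_eq x y).symm⟩ (by
      rintro ⟨x, y⟩ hxy
      have h1 : x ∈ p.1.image Prod.fst := Finset.mem_image_of_mem _ hxy
      refine Finset.mem_image.2 ⟨x, Finset.mem_union_left _ h1, ?_⟩
      rw [A.mul_apply, hk x h1, a2 _ hxy])
  refine ⟨g0⁻¹ * g, H.col _ _ (a1.trans b1.symm), fun x hx => ?_⟩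
  rw [A.mul_apply, b2 (x, (g0 * k) x)
    (Finset.mem_image_of_mem _ (Finset.mem_union_right _ hx))]
  exact A.inv_apply _ _

end Pool.Agent.P.MP_f0e779_lc
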