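import Pool.Agent.Lib.Helper87.Sem
import Pool.Agent.P.MP_f0e779_lc.Defs

/-! Symmetric extensions. -/

open Filter Set FirstOrder

namespace Pool.Agent.P.MP_f0e779_lc

open Pool.Agent.Lib.Helper87

universe v

/-- an action by order automorphisms -/
class OrdAct (Γ P : Type) [SMul Γ P] [LE P] : Prop where
  smul_le : ∀ (π : Γ) {p q : P}, p ≤ q → π • p ≤ π • q

/-- a conjugation invariant filter -/
class Conj {Γ : Type} [Group Γ] (𝓕 : Filter Γ) : Prop where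
  conj : ∀ ρ : Γ, Tendsto (fun π => ρ⁻¹ * π * ρ) 𝓕 𝓕

variable {P : Type} {Γ : Type} [Group Γ] [MulAction Γ P]

instance wact : MulAction Γ (World P) where
  smul π w := ⟨w.N, {p | π⁻¹ • p ∈ w.G}⟩
  one_smul w := by
    change World.mk _ _ = _
    simp
  mul_smul π ρ w := by
    change World.mk _ _ = World.mk w.N {p | ρ⁻¹ • π⁻¹ • p ∈ w.G}
    simp [mul_smul]

theorem smul_G (π : Γ) (w : World P) (p : P) : p ∈ (π • w).G ↔ π⁻¹ • p ∈ w.G := Iff.rfl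

theorem smul_In (π : Γ) (w : World P) {T : Type v} [Small.{1} T] (a : T) :
    (π • w).In a ↔ w.In a := Iff.rfl

/-- the action on names -/
def act (π : Γ) : Name P → Name P
  | ⟨α, A, c⟩ => ⟨α, fun i => act π (A i), fun i => {p | π⁻¹ • p ∈ c i}⟩

variable [Preorder P] [OrdAct Γ P]

theorem smul_le_iff (π : Γ) {p q : P} : π • p ≤ π • q ↔ p ≤ q :=
  ⟨fun h => by simpa using OrdAct.smul_le π⁻¹ h, OrdAct.smul_le π⟩

theorem ev_smul (π : Γ) {Φ : World P → Prop} (h : ∀ᶠ w in gen P, Φ w) :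
    ∀ᶠ w in gen P, Φ (π • w) := by
  filter_upwards [ev_of_club (ev_gen_iff.1 h), ev_generic, ev_fun fun p : P => π • p,
    ev_fun fun D : Set P => {p | π • p ∈ D}] with w h1 h2 h3 h4
  refine h1 _ ⟨fun p hp => ?_, fun p hp q hq => ?_, fun D hD hd => ?_⟩
  · have := h3 _ (h2.mem _ hp)
    rwa [smul_inv_smul] at this
  · obtain ⟨r, a1, a2, a3⟩ := h2.dir _ hp _ hq
    exact ⟨π • r, by simpa using a1, by simpa using OrdAct.smul_le π a2,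
      by simpa using OrdAct.smul_le π a3⟩
  · obtain ⟨r, a1, a2⟩ := h2.meet _ (h4 D hD) fun p => by
      obtain ⟨q, b1, b2⟩ := hd (π • p)
      exact ⟨π⁻¹ • q, by simpa using b1, by simpa using OrdAct.smul_le π⁻¹ b2⟩
    exact ⟨π • r, by simpa using a1, a2⟩

theorem smul_has (π : Γ) (w : World P) (p : P) : (π • w).Has (π • p) ↔ w.Has p := by
  constructor
  · rintro ⟨q, h1, h2⟩
    exact ⟨_, h1, by simpa using OrdAct.smul_le π⁻¹ h2⟩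
  · rintro ⟨q, h1, h2⟩
    exact ⟨π • q, by simpa [smul_G] using h1, OrdAct.smul_le π h2⟩

theorem smul_has' (π : Γ) (w : World P) (p : P) : (π⁻¹ • w).Has p ↔ w.Has (π • p) := by
  rw [← smul_has π, smul_inv_smul]

theorem smul_hit (π : Γ) (w : World P) (b : Set P) :
    (π • w).Hit {p | π⁻¹ • p ∈ b} ↔ w.Hit b := by
  constructor
  · rintro ⟨q, h1, s, h2, h3⟩
    exact ⟨_, h1, _, h2, OrdAct.smul_le π⁻¹ h3⟩
  · rintro ⟨q, h1, s, h2, h3⟩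
    exact ⟨π • q, by simpa [smul_G] using h1, π • s, by simpa using h2, OrdAct.smul_le π h3⟩

theorem val_act (π : Γ) (w : World P) (σ : Name P) : (π • w).val (act π σ) = w.val σ := by
  induction σ with
  | mk α A c ih =>
  ext x
  simp only [act, World.mem_val_mk, smul_hit, ih, smul_In]

theorem val_act' (π : Γ) (w : World P) (σ : Name P) : w.val (act π σ) = (π⁻¹ • w).val σ := by
  rw [← val_act π (π⁻¹ • w), smul_inv_smul]

theorem sem_smul (π : Γ) {p : P} {Φ : World P → Prop} (h : Sem p Φ) :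
    Sem (π • p) fun w => Φ (π⁻¹ • w) := by
  filter_upwards [ev_smul π⁻¹ h] with w h1 h2 using h1 ((smul_has' π w p).2 h2)

theorem meas_smul (π : Γ) {Φ : World P → Prop} (h : Measurable Φ) :
    Measurable fun w => Φ (π • w) := by
  refine measurable_world_iff.2 fun p => ?_
  obtain ⟨q, h1, h2⟩ := h.decides (π • p)
  refine ⟨π⁻¹ • q, by simpa using OrdAct.smul_le π⁻¹ h1, h2.imp (fun h => ?_) fun h => ?_⟩
  · simpa using sem_smul π⁻¹ h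
  · simpa using sem_smul π⁻¹ h

/-- invariance under most automorphisms -/
def Inv (𝓕 : Filter Γ) {α : Type*} (x : World P → α) : Prop :=
  ∀ᶠ π in 𝓕, ∀ᶠ w in gen P, x (π • w) = x w

variable {𝓕 𝓖 : Filter Γ}

omit [OrdAct Γ P] in
theorem Inv.map {α β : Type*} {x : World P → α} (h : Inv 𝓕 x) (F : α → β) :
    Inv 𝓕 fun w => F (x w) :=
  Eventually.mono h fun _ h => h.mono fun _ h => congrArg F h

omit [OrdAct Γ P] in
theorem Inv.prod {α β : Type*} {x : World P → α} {y : World P → β} (h : Inv 𝓕 x) (h' : Inv 𝓕 y) :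
    Inv 𝓕 fun w => (x w, y w) := by
  filter_upwards [h, h'] with π h1 h2
  filter_upwards [h1, h2] with w h1 h2
  rw [h1, h2]

omit [OrdAct Γ P] in
theorem Inv.mono {α : Type*} {x : World P → α} (h : Inv 𝓕 x) (h' : 𝓖 ≤ 𝓕) : Inv 𝓖 x :=
  Eventually.filter_mono h' h

omit [OrdAct Γ P] in
theorem inv_const {α : Type*} (a : α) : Inv 𝓕 fun _ : World P => a :=
  Eventually.of_forall fun _ => Eventually.of_forall fun _ => rfl

theorem Inv.congr {α : Type*} {x y : World P → α} (h : Inv 𝓕 x)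
    (h' : ∀ᶠ w in gen P, x w = y w) : Inv 𝓕 y := by
  filter_upwards [h] with π h1
  filter_upwards [h1, h', ev_smul π h'] with w h1 h2 h3
  rw [← h3, h1, h2]

theorem Inv.smul [Conj 𝓕] {α : Type*} {x : World P → α} (h : Inv 𝓕 x) (ρ : Γ) :
    Inv 𝓕 fun w => x (ρ • w) := by
  filter_upwards [(Conj.conj ρ⁻¹).eventually h] with π h1
  filter_upwards [ev_smul ρ h1] with w h2
  rwa [← mul_smul, inv_inv, inv_mul_cancel_right, mul_smul] at h2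

/-- hereditarily symmetric names -/
def HS (𝓕 : Filter Γ) : Name P → Prop
  | ⟨α, A, c⟩ => (∀ i, HS 𝓕 (A i)) ∧ Inv 𝓕 fun w => w.val ⟨α, A, c⟩

omit [OrdAct Γ P] in
theorem HS.elem {σ : Name P} (h : HS 𝓕 σ) (i : σ.I) : HS 𝓕 (σ.A i) := by
  obtain ⟨α, A, c⟩ := σ
  exact h.1 i

omit [OrdAct Γ P] in
theorem HS.inv {σ : Name P} (h : HS 𝓕 σ) : Inv 𝓕 fun w => w.val σ := by
  obtain ⟨α, A, c⟩ := σ
  exact h.2

theorem HS.act [Conj 𝓕] {σ : Name P} (h : HS 𝓕 σ) (ρ : Γ) : HS 𝓕 (act ρ σ) := by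
  induction σ with
  | mk α A c ih =>
  refine ⟨fun i => ih i (h.1 i), ?_⟩
  have := h.inv.smul ρ⁻¹
  simp only [← val_act'] at this
  exact this

/-- the symmetric extension -/
def MS (𝓕 : Filter Γ) (w : World P) : Set ZFSet.{0} :=
  {x | ∃ σ : Name P, HS 𝓕 σ ∧ w.In σ ∧ w.val σ = x}

theorem ev_MS_smul [Conj 𝓕] (π : Γ) : ∀ᶠ w in gen P, MS 𝓕 (π • w) = MS 𝓕 w := by
  filter_upwards [ev_fun (act π : Name P → Name P), ev_fun (act π⁻¹ : Name P → Name P)]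
    with w h1 h2
  ext x
  constructor
  · rintro ⟨σ, a1, a2, rfl⟩
    exact ⟨_, a1.act π⁻¹, h2 σ a2, by rw [val_act', inv_inv]⟩
  · rintro ⟨σ, a1, a2, rfl⟩
    exact ⟨_, a1.act π, h1 σ a2, val_act π w σ⟩

theorem inv_MS [Conj 𝓕] : Inv 𝓖 fun w : World P => MS 𝓕 w :=
  Eventually.of_forall ev_MS_smul

/-- `x` is given by a hereditarily symmetric name -/
def SN (𝓕 : Filter Γ) (x : World P → ZFSet.{0}) : Prop :=
  ∃ σ : Name P, HS 𝓕 σ ∧ ∀ᶠ w in gen P, w.val σ = x w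

variable {x y : World P → ZFSet.{0}}

omit [OrdAct Γ P] in
theorem SN.named (h : SN 𝓕 x) : Named x := let ⟨σ, _, h⟩ := h; ⟨σ, h⟩

theorem SN.inv (h : SN 𝓕 x) : Inv 𝓕 x := let ⟨_, h1, h2⟩ := h; h1.inv.congr h2

omit [OrdAct Γ P] in
theorem SN.ev_mem (h : SN 𝓕 x) : ∀ᶠ w in gen P, x w ∈ MS 𝓕 w := by
  obtain ⟨σ, h1, h2⟩ := h
  filter_upwards [h2, ev_const σ] with w h3 h4 using ⟨σ, h1, h4, h3⟩

omit [OrdAct Γ P] in
theorem SN.congr (h : SN 𝓕 x) (h' : ∀ᶠ w in gen P, x w = y w) : SN 𝓕 y := by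
  obtain ⟨σ, h1, h⟩ := h
  exact ⟨σ, h1, by filter_upwards [h, h'] with w h1 h2 using h1.trans h2⟩

omit [OrdAct Γ P] in
theorem HS.sn {σ : Name P} (h : HS 𝓕 σ) : SN 𝓕 fun w => w.val σ :=
  ⟨σ, h, Eventually.of_forall fun _ => rfl⟩

theorem SN.smul [Conj 𝓕] (h : SN 𝓕 x) (π : Γ) : SN 𝓕 fun w => x (π • w) := by
  obtain ⟨σ, h1, h2⟩ := h
  refine ⟨_, h1.act π⁻¹, ?_⟩
  filter_upwards [ev_smul π h2] with w h
  rwa [val_act', inv_inv]

omit [OrdAct Γ P] in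
theorem SN.meq (h : SN 𝓕 x) (h' : SN 𝓕 y) : Measurable fun w => x w = y w :=
  h.named.measurable_eq h'.named

omit [OrdAct Γ P] in
theorem SN.mmem (h : SN 𝓕 x) (h' : SN 𝓕 y) : Measurable fun w => x w ∈ y w :=
  h.named.measurable_mem h'.named

theorem sn_of_mem_iff {I : Type} {x : I → World P → ZFSet.{0}} (hx : ∀ i, SN 𝓕 (x i))
    {Φ : I → World P → Prop} (hΦ : ∀ i, Measurable (Φ i))
    (hy : ∀ᶠ w in gen P, ∀ z, z ∈ y w ↔ ∃ i, w.In i ∧ Φ i w ∧ x i w = z) (hi : Inv 𝓕 y) :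
    SN 𝓕 y := by
  choose σ h0 hσ using hx
  have : ∀ᶠ w in gen P, w.val ⟨I, σ, fun i => {p | Sem p (Φ i)}⟩ = y w := by
    filter_upwards [hy, ev_all hσ, ev_all fun i => ev_hit_sem (hΦ i)] with w h1 h2 h3
    ext z
    rw [h1, w.mem_val_mk]
    refine exists_congr fun i => and_congr_right fun hi => ?_
    rw [h2 i hi, h3 i hi]
  exact ⟨⟨I, σ, _⟩, ⟨h0, hi.congr (this.mono fun _ h => h.symm)⟩, this⟩

omit [OrdAct Γ P] in
theorem SN.exists_index (h : SN 𝓕 y) : ∃ (I : Type) (x : I → World P → ZFSet.{0})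
    (Φ : I → World P → Prop), (∀ i, SN 𝓕 (x i)) ∧ (∀ i, Measurable (Φ i)) ∧
      ∀ᶠ w in gen P, ∀ z, z ∈ y w ↔ ∃ i, w.In i ∧ Φ i w ∧ x i w = z := by
  obtain ⟨σ, h0, h⟩ := h
  refine ⟨σ.I, fun i w => w.val (σ.A i), fun i w => w.Hit (σ.c i), fun i => (h0.elem i).sn,
    fun i => measurable_hit _, ?_⟩
  filter_upwards [h] with w h z
  rw [← h, w.mem_val]

omit [OrdAct Γ P] in
theorem ev_all_MS {Φ : ZFSet.{0} → World P → Prop}
    (h : ∀ x, SN 𝓕 x → ∀ᶠ w in gen P, Φ (x w) w) : ∀ᶠ w in gen P, ∀ x ∈ MS 𝓕 w, Φ x w := by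
  filter_upwards [ev_all fun σ : Name P => ev_imp fun hσ : HS 𝓕 σ => h _ hσ.sn]
    with w hw x ⟨σ, h1, h2, h3⟩
  exact h3 ▸ hw σ h2 h1

omit [OrdAct Γ P] in
theorem ev_all_MS_fin {n : ℕ} {Φ : (Fin n → ZFSet.{0}) → World P → Prop}
    (h : ∀ x : Fin n → World P → ZFSet.{0}, (∀ i, SN 𝓕 (x i)) →
      ∀ᶠ w in gen P, Φ (fun i => x i w) w) :
    ∀ᶠ w in gen P, ∀ x : Fin n → ZFSet.{0}, (∀ i, x i ∈ MS 𝓕 w) → Φ x w := by
  filter_upwards [ev_all_fin fun σ : Fin n → Name P =>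
    ev_imp fun hσ : ∀ i, HS 𝓕 (σ i) => h _ fun i => (hσ i).sn] with w hw x hx
  choose σ h1 h2 h3 using hx
  have := hw σ h2 h1
  simpa only [h3] using this

omit [OrdAct Γ P] in
theorem ev_MS_trans : ∀ᶠ w in gen P, ∀ x ∈ MS 𝓕 w, ∀ y ∈ x, y ∈ MS 𝓕 w := by
  refine ev_all_MS fun x hx => ?_
  obtain ⟨I, u, Φ, h1, -, h2⟩ := hx.exists_index
  filter_upwards [h2, ev_all fun i => (h1 i).ev_mem] with w a1 a2 y hy
  obtain ⟨i, b1, -, rfl⟩ := (a1 y).1 hy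
  exact a2 i b1

omit [OrdAct Γ P] in
theorem SN.ev_elem (h : SN 𝓕 x) : ∀ᶠ w in gen P, ∀ y ∈ x w, y ∈ MS 𝓕 w := by
  filter_upwards [h.ev_mem, ev_MS_trans (𝓕 := 𝓕)] with w h1 h2 using h2 _ h1

omit [OrdAct Γ P] in
theorem meas_all_MS {Φ : ZFSet.{0} → World P → Prop}
    (h : ∀ x, SN 𝓕 x → Measurable fun w => Φ (x w) w) :
    Measurable fun w => ∀ z ∈ MS 𝓕 w, Φ z w := by
  have := measurable_all_in (Φ := fun (σ : Name P) w => HS 𝓕 σ → Φ (w.val σ) w)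
    fun σ => measurable_dimp fun hσ => h _ hσ.sn
  convert this using 3 with w
  exact ⟨fun h σ h1 h2 => h _ ⟨σ, h2, h1, rfl⟩, fun h z ⟨σ, h1, h2, h3⟩ => h3 ▸ h σ h2 h1⟩

omit [OrdAct Γ P] in
theorem meas_ex_MS {Φ : ZFSet.{0} → World P → Prop}
    (h : ∀ x, SN 𝓕 x → Measurable fun w => Φ (x w) w) :
    Measurable fun w => ∃ z ∈ MS 𝓕 w, Φ z w := by
  have := (meas_all_MS (Φ := fun z w => ¬ Φ z w) fun x hx => (h x hx).not).not
  simpa using this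

omit [OrdAct Γ P] in
theorem SN.mall (ha : SN 𝓕 y) {Φ : ZFSet.{0} → World P → Prop}
    (h : ∀ x, SN 𝓕 x → Measurable fun w => Φ (x w) w) :
    Measurable fun w => ∀ z ∈ y w, Φ z w := by
  refine (meas_all_MS (Φ := fun z w => z ∈ y w → Φ z w)
    fun x hx => (hx.mmem ha).imp (h x hx)).congr_ev ?_
  filter_upwards [ha.ev_elem] with w hw
  exact ⟨fun h z _ => h z, fun h z hz => h z (hw z hz) hz⟩

omit [OrdAct Γ P] in
theorem SN.mex (ha : SN 𝓕 y) {Φ : ZFSet.{0} → World P → Prop}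
    (h : ∀ x, SN 𝓕 x → Measurable fun w => Φ (x w) w) :
    Measurable fun w => ∃ z ∈ y w, Φ z w := by
  have := (ha.mall (Φ := fun z w => ¬ Φ z w) fun x hx => (h x hx).not).not
  simpa using this

omit [OrdAct Γ P] in
theorem SN.msub (h : SN 𝓕 x) (h' : SN 𝓕 y) : Measurable fun w => x w ⊆ y w :=
  h.mall (Φ := fun z w => z ∈ y w) fun _ hz => hz.mmem h'

omit [OrdAct Γ P] in
theorem ev_ex_fin_iff {n : ℕ} (Φ : (Fin n → ZFSet.{0}) → World P → Prop) :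
    ∀ᶠ w in gen P, (∃ z : Fin n → ZFSet.{0}, (∀ i, z i ∈ MS 𝓕 w) ∧ Φ z w) ↔
      ∃ σ : {σ : Fin n → Name P // ∀ i, HS 𝓕 (σ i)}, w.In σ ∧ Φ (fun i => w.val (σ.1 i)) w := by
  filter_upwards [ev_all_fin fun σ : Fin n → Name P => ev_dimp fun h : ∀ i, HS 𝓕 (σ i) =>
      ev_const (P := P) (⟨σ, h⟩ : {σ : Fin n → Name P // ∀ i, HS 𝓕 (σ i)}),
    ev_call fun i : Fin n => ev_fun fun σ : {σ : Fin n → Name P // ∀ i, HS 𝓕 (σ i)} => σ.1 i]
    with w h1 h2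
  constructor
  · rintro ⟨z, a1, a2⟩
    choose σ b1 b2 b3 using a1
    exact ⟨⟨σ, b1⟩, h1 σ b2 b1, by simpa only [b3] using a2⟩
  · rintro ⟨σ, a1, a2⟩
    exact ⟨_, fun i => ⟨_, σ.2 i, h2 i σ a1, rfl⟩, a2⟩

omit [OrdAct Γ P] in
theorem meas_ex_fin {n : ℕ} {Φ : (Fin n → ZFSet.{0}) → World P → Prop}
    (h : ∀ x : Fin n → World P → ZFSet.{0}, (∀ i, SN 𝓕 (x i)) →
      Measurable fun w => Φ (fun i => x i w) w) :
    Measurable fun w => ∃ z : Fin n → ZFSet.{0}, (∀ i, z i ∈ MS 𝓕 w) ∧ Φ z w :=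
  (measurable_ex_in fun σ : {σ : Fin n → Name P // ∀ i, HS 𝓕 (σ i)} =>
    h _ fun i => (σ.2 i).sn).congr_ev (ev_ex_fin_iff Φ)

omit [OrdAct Γ P] in
theorem sem_ex_fin {n : ℕ} {p : P} {Φ : (Fin n → ZFSet.{0}) → World P → Prop}
    (h : ∀ x : Fin n → World P → ZFSet.{0}, (∀ i, SN 𝓕 (x i)) →
      Measurable fun w => Φ (fun i => x i w) w)
    (h' : Sem p fun w => ∃ z : Fin n → ZFSet.{0}, (∀ i, z i ∈ MS 𝓕 w) ∧ Φ z w) :
    ∃ q ≤ p, ∃ x : Fin n → World P → ZFSet.{0}, (∀ i, SN 𝓕 (x i)) ∧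
      Sem q fun w => Φ (fun i => x i w) w := by
  obtain ⟨q, h1, σ, h2⟩ := Sem.ex_in
    (fun σ : {σ : Fin n → Name P // ∀ i, HS 𝓕 (σ i)} => h _ fun i => (σ.2 i).sn)
    (h'.imp ((ev_ex_fin_iff Φ).mono fun _ h => h.1))
  exact ⟨q, h1, _, fun i => (σ.2 i).sn, h2⟩

omit [OrdAct Γ P] in
theorem sem_ex_MS {p : P} {Φ : ZFSet.{0} → World P → Prop}
    (h : ∀ x, SN 𝓕 x → Measurable fun w => Φ (x w) w)
    (h' : Sem p fun w => ∃ z ∈ MS 𝓕 w, Φ z w) :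
    ∃ q ≤ p, ∃ x, SN 𝓕 x ∧ Sem q fun w => Φ (x w) w := by
  obtain ⟨q, h1, x, h2, h3⟩ := sem_ex_fin (n := 1) (Φ := fun z w => Φ (z 0) w)
    (fun x hx => h _ (hx 0)) (h'.imp' fun w ⟨z, h1, h2⟩ => ⟨fun _ => z, fun _ => h1, h2⟩)
  exact ⟨q, h1, _, h2 0, h3⟩

theorem SN.sep {a : World P → ZFSet.{0}} (ha : SN 𝓕 a) {Φ : ZFSet.{0} → World P → Prop}
    (hm : ∀ x, SN 𝓕 x → Measurable fun w => Φ (x w) w) (hi : Inv 𝓕 fun w z => Φ z w) :
    SN 𝓕 fun w => ZFSet.sep (fun z => Φ z w) (a w) := by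
  obtain ⟨I, u, Ψ, h1, h2, h3⟩ := ha.exists_index
  refine sn_of_mem_iff h1 (fun i => (h2 i).and (hm _ (h1 i))) ?_
    ((hi.prod ha.inv).map fun x => ZFSet.sep x.1 x.2)
  filter_upwards [h3] with w hw z
  rw [ZFSet.mem_sep, hw]
  constructor
  · rintro ⟨⟨i, a1, a2, rfl⟩, a3⟩
    exact ⟨i, a1, ⟨a2, a3⟩, rfl⟩
  · rintro ⟨i, a1, ⟨a2, a3⟩, rfl⟩
    exact ⟨⟨i, a1, a2, rfl⟩, a3⟩

/-- countable families -/
theorem sn_range {I : Type} [Countable I] {x : I → World P → ZFSet.{0}} (hx : ∀ i, SN 𝓕 (x i))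
    (hi : Inv 𝓕 fun w => ZFSet.range fun i => x i w) :
    SN 𝓕 fun w => ZFSet.range fun i => x i w := by
  refine sn_of_mem_iff hx (Φ := fun _ _ => True) (fun _ => measurable_const) ?_ hi
  filter_upwards [ev_ctype I] with w hw z
  simp [ZFSet.mem_range, hw]

theorem SN.upair (h : SN 𝓕 x) (h' : SN 𝓕 y) : SN 𝓕 fun w => ({x w, y w} : ZFSet) := by
  refine sn_of_mem_iff (I := Bool) (x := fun b => cond b x y) (fun b => by cases b <;> assumption)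
    (Φ := fun _ _ => True) (fun _ => measurable_const) ?_
    ((h.inv.prod h'.inv).map fun x => ({x.1, x.2} : ZFSet))
  filter_upwards [ev_ctype Bool] with w hw z
  simp [hw, eq_comm, or_comm]

theorem SN.pair (h : SN 𝓕 x) (h' : SN 𝓕 y) : SN 𝓕 fun w => ZFSet.pair (x w) (y w) := by
  refine ((h.upair h).upair (h.upair h')).congr (Eventually.of_forall fun w => ?_)
  rw [ZFSet.pair]
  congr 1
  ext z
  simp

theorem SN.sUnion (h : SN 𝓕 x) : SN 𝓕 fun w => ZFSet.sUnion (x w) := by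
  obtain ⟨I, u, Ψ, h1, h2, h3⟩ := h.exists_index
  choose J v Φ a1 a2 a3 using fun i => (h1 i).exists_index
  refine sn_of_mem_iff (I := Σ i, J i) (x := fun k => v k.1 k.2) (fun k => a1 _ _)
    (Φ := fun k w => Ψ k.1 w ∧ Φ k.1 k.2 w) (fun k => (h2 _).and (a2 _ _)) ?_ (h.inv.map _)
  filter_upwards [h3, ev_all a3, ev_in_sigma J] with w b1 b2 b3 z
  rw [ZFSet.mem_sUnion]
  constructor
  · rintro ⟨y, hy, hz⟩
    obtain ⟨i, c1, c2, rfl⟩ := (b1 y).1 hy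
    obtain ⟨j, c3, c4, rfl⟩ := (b2 i c1 z).1 hz
    exact ⟨⟨i, j⟩, (b3 _).2 ⟨c1, c3⟩, ⟨c2, c4⟩, rfl⟩
  · rintro ⟨⟨i, j⟩, c1, ⟨c2, c3⟩, rfl⟩
    have := (b3 _).1 c1
    exact ⟨_, (b1 _).2 ⟨i, this.1, c2, rfl⟩, (b2 i this.1 _).2 ⟨j, this.2, c3, rfl⟩⟩

theorem mem_nat_succ (n : ℕ) (z : ZFSet.{0}) : z ∈ nat (n + 1) ↔ z = nat n ∨ z ∈ nat n :=
  ZFSet.mem_insert_iff (x := z) (y := nat n) (z := nat n)

theorem mem_nat (n : ℕ) (z : ZFSet.{0}) : z ∈ nat n ↔ ∃ k < n, nat k = z := by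
  induction n with
  | zero => exact ⟨fun h => absurd h (ZFSet.notMem_empty z), fun ⟨_, h, _⟩ => absurd h (by simp)⟩
  | succ n ih =>
    rw [mem_nat_succ, ih]
    constructor
    · rintro (rfl | ⟨k, h1, rfl⟩)
      exacts [⟨n, by omega, rfl⟩, ⟨k, by omega, rfl⟩]
    · rintro ⟨k, h1, rfl⟩
      rcases Nat.lt_succ_iff_lt_or_eq.1 h1 with h | rfl
      exacts [Or.inr ⟨k, h, rfl⟩, Or.inl rfl]

theorem nat_injective : Function.Injective nat := by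
  intro a b h
  by_contra hc
  rcases lt_or_gt_of_ne hc with h1 | h1
  · exact ZFSet.mem_irrefl (nat b) ((mem_nat b _).2 ⟨a, h1, h⟩)
  · exact ZFSet.mem_irrefl (nat a) ((mem_nat a _).2 ⟨b, h1, h.symm⟩)

theorem sn_nat (n : ℕ) : SN 𝓕 fun _ : World P => nat n := by
  induction n using Nat.strong_induction_on with
  | _ n ih =>
  refine sn_of_mem_iff (I := Fin n) (fun i => ih i i.2) (Φ := fun _ _ => True)
    (fun _ => measurable_const) ?_ (inv_const _)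
  filter_upwards [ev_ctype (Fin n)] with w hw z
  simp only [mem_nat, hw, true_and]
  exact ⟨fun ⟨k, h1, h2⟩ => ⟨⟨k, h1⟩, h2⟩, fun ⟨k, h⟩ => ⟨k, k.2, h⟩⟩

theorem sn_omega : SN 𝓕 fun _ : World P => ZFSet.omega := by
  refine (sn_range sn_nat (inv_const _)).congr (Eventually.of_forall fun w => ?_)
  ext z
  rw [ZFSet.mem_range, mem_omega_iff]
  rfl

theorem SN.power [Conj 𝓕] (h : SN 𝓕 x) :
    SN 𝓕 fun w => ZFSet.sep (· ∈ MS 𝓕 w) (ZFSet.powerset (x w)) := by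
  obtain ⟨I, u, Ψ, h1, h2, h3⟩ := h.exists_index
  let y : (I → Set P) → World P → ZFSet.{0} := fun c w =>
    ZFSet.range fun i : {i : I // w.In i ∧ Ψ i w ∧ w.Hit (c i)} => u i w
  have hy : ∀ c w z, z ∈ y c w ↔ ∃ i, w.In i ∧ (Ψ i w ∧ w.Hit (c i)) ∧ u i w = z := by
    intro c w z
    simp only [y, ZFSet.mem_range, Subtype.exists]
    exact ⟨fun ⟨i, h1, h2⟩ => ⟨i, h1.1, h1.2, h2⟩, fun ⟨i, h1, h2, h3⟩ => ⟨i, ⟨h1, h2⟩, h3⟩⟩
  have key : ∀ᶠ w in gen P, ∀ z ∈ MS 𝓕 w, z ⊆ x w →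
      ∃ c : {c // SN 𝓕 (y c)}, w.In c ∧ y c w = z := by
    refine ev_all_MS fun z hz => ?_
    have e : ∀ᶠ w in gen P, z w ∩ x w = y (fun i => {p | Sem p fun w => u i w ∈ z w}) w := by
      filter_upwards [h3, ev_all fun i => ev_hit_sem ((h1 i).mmem hz)] with w a1 a2
      ext t
      rw [hy, ZFSet.mem_inter, a1]
      constructor
      · rintro ⟨b0, i, b1, b2, rfl⟩
        exact ⟨i, b1, ⟨b2, (a2 i b1).2 b0⟩, rfl⟩
      · rintro ⟨i, b1, ⟨b2, b3⟩, rfl⟩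
        exact ⟨(a2 i b1).1 b3, i, b1, b2, rfl⟩
    have hs : SN 𝓕 (y fun i => {p | Sem p fun w => u i w ∈ z w}) :=
      sn_of_mem_iff h1 (fun i => (h2 i).and (measurable_hit _))
        (Eventually.of_forall fun w => hy _ w)
        (((hz.inv.prod h.inv).map fun t => t.1 ∩ t.2).congr e)
    filter_upwards [e, ev_const (⟨_, hs⟩ : {c // SN 𝓕 (y c)})] with w a1 a2 a3
    refine ⟨_, a2, ?_⟩
    rw [← a1]
    ext t
    rw [ZFSet.mem_inter]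
    exact ⟨fun h => h.1, fun h => ⟨h, a3 h⟩⟩
  refine sn_of_mem_iff (I := {c // SN 𝓕 (y c)}) (fun c => c.2) (Φ := fun _ _ => True)
    (fun _ => measurable_const) ?_
    ((inv_MS.prod h.inv).map fun t => ZFSet.sep (· ∈ t.1) (ZFSet.powerset t.2))
  filter_upwards [key, h3, ev_all fun c : {c // SN 𝓕 (y c)} => c.2.ev_mem] with w a1 a2 a3 z
  rw [ZFSet.mem_sep, ZFSet.mem_powerset]
  constructor
  · rintro ⟨b1, b2⟩
    obtain ⟨c, b3, b4⟩ := a1 z b2 b1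
    exact ⟨c, b3, trivial, b4⟩
  · rintro ⟨c, b1, -, rfl⟩
    refine ⟨fun t ht => ?_, a3 c b1⟩
    obtain ⟨i, c1, c2, rfl⟩ := (hy _ _ _).1 ht
    exact (a2 _).2 ⟨i, c1, c2.1, rfl⟩

/-- satisfaction at a tuple of sets -/
def SatZ (M : Set ZFSet.{0}) {n : ℕ} (φ : Language.graph.BoundedFormula Empty n)
    (x : Fin n → ZFSet.{0}) : Prop := ∃ h : ∀ i, x i ∈ M, Sat M φ fun i => ⟨x i, h i⟩

theorem satZ_iff {M : Set ZFSet.{0}} {n : ℕ} {φ : Language.graph.BoundedFormula Empty n}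
    {x : Fin n → ZFSet.{0}} (h : ∀ i, x i ∈ M) : SatZ M φ x ↔ Sat M φ fun i => ⟨x i, h i⟩ :=
  ⟨fun ⟨_, h⟩ => h, fun h' => ⟨h, h'⟩⟩

theorem sat_iff {M : Set ZFSet.{0}} {n : ℕ} (φ : Language.graph.BoundedFormula Empty n)
    (v : Fin n → M) : Sat M φ v ↔ SatZ M φ fun i => (v i).1 := (satZ_iff fun i => (v i).2).symm

theorem snoc_coe {M : Set ZFSet.{0}} {n : ℕ} (v : Fin n → M) (a : M) :
    (fun i => ((Fin.snoc v a : Fin (n + 1) → M) i).1) = Fin.snoc (fun i => (v i).1) a.1 := by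
  funext i
  refine Fin.lastCases ?_ (fun i => ?_) i <;> simp

theorem snoc_apply {W : Type*} {n : ℕ} (x : Fin n → W → ZFSet.{0}) (z : W → ZFSet.{0}) (w : W) :
    (fun i => (Fin.snoc x z : Fin (n + 1) → W → ZFSet.{0}) i w) =
      Fin.snoc (fun i => x i w) (z w) := by
  funext i
  refine Fin.lastCases ?_ (fun i => ?_) i <;> simp

omit [OrdAct Γ P] in
theorem sn_snoc {n : ℕ} {x : Fin n → World P → ZFSet.{0}} (hx : ∀ i, SN 𝓕 (x i))
    {z : World P → ZFSet.{0}} (hz : SN 𝓕 z) (i : Fin (n + 1)) :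
    SN 𝓕 ((Fin.snoc x z : Fin (n + 1) → World P → ZFSet.{0}) i) := by
  refine Fin.lastCases ?_ (fun i => ?_) i <;> simp [hx, hz]

omit [OrdAct Γ P] in
theorem meas_sat {n : ℕ} (φ : Language.graph.BoundedFormula Empty n)
    (x : Fin n → World P → ZFSet.{0}) (hx : ∀ i, SN 𝓕 (x i)) :
    Measurable fun w => SatZ (MS 𝓕 w) φ fun i => x i w := by
  have hm : ∀ᶠ w in gen P, ∀ i, x i w ∈ MS 𝓕 w := ev_call fun i => (hx i).ev_mem
  induction φ with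
  | falsum =>
    exact (measurable_const (a := False)).congr_ev (hm.mono fun w hw => satZ_iff hw)
  | equal t1 t2 =>
    refine ((hx (tv t1)).meq (hx (tv t2))).congr_ev (hm.mono fun w hw => ?_)
    let _ := memStr (MS 𝓕 w)
    rw [satZ_iff hw]
    change t1.realize (Sum.elim Empty.elim _) = t2.realize (Sum.elim Empty.elim _) ↔ _
    rw [realize_tv, realize_tv, Subtype.ext_iff]
  | rel R ts =>
    cases R
    refine ((hx (tv (ts 0))).mmem (hx (tv (ts 1)))).congr_ev (hm.mono fun w hw => ?_)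
    let _ := memStr (MS 𝓕 w)
    rw [satZ_iff hw]
    change ((ts 0).realize (Sum.elim Empty.elim fun i => (⟨x i w, hw i⟩ : MS 𝓕 w))).1 ∈
      ((ts 1).realize (Sum.elim Empty.elim fun i => (⟨x i w, hw i⟩ : MS 𝓕 w))).1 ↔ _
    rw [realize_tv, realize_tv]
  | imp φ ψ ih1 ih2 =>
    refine ((ih1 x hx hm).imp (ih2 x hx hm)).congr_ev (hm.mono fun w hw => ?_)
    rw [satZ_iff hw, satZ_iff hw, satZ_iff hw]
    rfl
  | all φ ih =>
    refine (meas_all_MS (𝓕 := 𝓕) (Φ := fun z w => SatZ (MS 𝓕 w) φ (Fin.snoc (fun i => x i w) z))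
      fun z hz => ?_).congr_ev (hm.mono fun w hw => ?_)
    · have := ih _ (sn_snoc hx hz) (ev_call fun i => (sn_snoc hx hz i).ev_mem)
      simpa only [snoc_apply] using this
    · rw [satZ_iff hw]
      change (∀ a : MS 𝓕 w, Sat (MS 𝓕 w) φ (Fin.snoc _ a)) ↔ _
      simp only [sat_iff, snoc_coe, Subtype.forall]

omit [OrdAct Γ P] in
theorem inv_pi {I : Type*} [Finite I] {α : Type*} {x : I → World P → α} (hx : ∀ i, Inv 𝓕 (x i)) :
    Inv 𝓕 fun w i => x i w := by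
  filter_upwards [eventually_all.2 hx] with π h
  filter_upwards [eventually_all.2 h] with w h using funext h

theorem ev_sep [Conj 𝓕] : ∀ᶠ w in gen P, ∀ (n : ℕ)
    (φ : Language.graph.BoundedFormula Empty (n + 1)) (v : Fin n → MS 𝓕 w) (a : MS 𝓕 w),
    ∃ b : MS 𝓕 w, ∀ x : MS 𝓕 w, x.1 ∈ b.1 ↔ x.1 ∈ a.1 ∧ Sat (MS 𝓕 w) φ (Fin.snoc v x) := by
  refine ev_call fun n => ev_call fun φ => ?_
  have : ∀ᶠ w in gen P, ∀ v : Fin n → ZFSet.{0}, (∀ i, v i ∈ MS 𝓕 w) → ∀ a ∈ MS 𝓕 w,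
      ZFSet.sep (fun z => SatZ (MS 𝓕 w) φ (Fin.snoc v z)) a ∈ MS 𝓕 w := by
    refine ev_all_MS_fin fun x hx => ev_all_MS fun a ha => SN.ev_mem (ha.sep (fun z hz => ?_)
      ((inv_MS.prod (inv_pi fun i => (hx i).inv)).map
        fun t z => SatZ t.1 φ (Fin.snoc t.2 z)))
    simpa only [snoc_apply] using meas_sat φ _ (sn_snoc hx hz)
  filter_upwards [this] with w hw v a
  refine ⟨⟨_, hw _ (fun i => (v i).2) a a.2⟩, fun x => ?_⟩
  rw [ZFSet.mem_sep, sat_iff, snoc_coe]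

theorem ev_coll [Conj 𝓕] : ∀ᶠ w in gen P, ∀ (n : ℕ)
    (φ : Language.graph.BoundedFormula Empty (n + 2)) (v : Fin n → MS 𝓕 w) (a : MS 𝓕 w),
    ∃ b : MS 𝓕 w, ∀ x : MS 𝓕 w, x.1 ∈ a.1 →
      (∃ y : MS 𝓕 w, Sat (MS 𝓕 w) φ (Fin.snoc (Fin.snoc v x) y)) →
        ∃ y : MS 𝓕 w, y.1 ∈ b.1 ∧ Sat (MS 𝓕 w) φ (Fin.snoc (Fin.snoc v x) y) := by
  refine ev_call fun n => ev_call fun φ => ?_
  have : ∀ᶠ w in gen P, ∀ v : Fin n → ZFSet.{0}, (∀ i, v i ∈ MS 𝓕 w) → ∀ a ∈ MS 𝓕 w,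
      ∃ b ∈ MS 𝓕 w, ∀ x ∈ a, (∃ y ∈ MS 𝓕 w, SatZ (MS 𝓕 w) φ (Fin.snoc (Fin.snoc v x) y)) →
        ∃ y ∈ b, SatZ (MS 𝓕 w) φ (Fin.snoc (Fin.snoc v x) y) := by
    refine ev_all_MS_fin fun x hx => ev_all_MS fun a ha => ?_
    obtain ⟨I, u, Ψ, h1, h2, h3⟩ := ha.exists_index
    let R : I → (World P → ZFSet.{0}) → World P → Prop := fun i y w =>
      SatZ (MS 𝓕 w) φ (Fin.snoc (Fin.snoc (fun i => x i w) (u i w)) (y w))
    have hR : ∀ i y, SN 𝓕 y → Measurable (R i y) := fun i y hy => by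
      simpa only [snoc_apply] using meas_sat φ _ (sn_snoc (sn_snoc hx (h1 i)) hy)
    have hch : ∀ k : I × P, ∃ t, SN 𝓕 t ∧
        ((∃ y, SN 𝓕 y ∧ Sem k.2 (R k.1 y)) → Sem k.2 (R k.1 t)) := fun k => by
      by_cases h : ∃ y, SN 𝓕 y ∧ Sem k.2 (R k.1 y)
      · obtain ⟨y, a1, a2⟩ := h
        exact ⟨y, a1, fun _ => a2⟩
      · exact ⟨a, ha, fun h' => absurd h' h⟩
    choose t t1 t2 using hch
    let b : World P → ZFSet.{0} := fun w =>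
      ZFSet.range fun k : {k : (I × P) × Γ // w.In k} => t k.1.1 (k.1.2 • w)
    have hb : ∀ w z, z ∈ b w ↔ ∃ k : (I × P) × Γ, w.In k ∧ True ∧ t k.1 (k.2 • w) = z := by
      intro w z
      simp [b, ZFSet.mem_range]
    have hbs : SN 𝓕 b := by
      refine sn_of_mem_iff (fun k : (I × P) × Γ => (t1 k.1).smul k.2) (fun _ => measurable_const)
        (Eventually.of_forall hb) (Eventually.of_forall fun π => ?_)
      filter_upwards [ev_fun fun k : (I × P) × Γ => (k.1, k.2 * π),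
        ev_fun fun k : (I × P) × Γ => (k.1, k.2 * π⁻¹)] with w a1 a2
      ext z
      rw [hb, hb]
      constructor
      · rintro ⟨k, b1, -, rfl⟩
        exact ⟨_, a1 k b1, trivial, by rw [mul_smul]⟩
      · rintro ⟨k, b1, -, rfl⟩
        exact ⟨_, a2 k b1, trivial, by simp [mul_smul]⟩
    have key : ∀ i, ∀ᶠ w in gen P, ∀ y ∈ MS 𝓕 w,
        SatZ (MS 𝓕 w) φ (Fin.snoc (Fin.snoc (fun i => x i w) (u i w)) y) →
        ∃ p ∈ w.G, R i (t (i, p)) w := fun i => by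
      refine ev_all_MS fun y hy => ?_
      filter_upwards [ev_forced (hR i y hy), ev_all fun p => ev_sem (R i (t (i, p))), ev_generic]
        with w a1 a2 a3 a4
      obtain ⟨p, b1, b2⟩ := a1 a4
      exact ⟨p, b1, a2 p (a3.mem p b1) p (w.has_of_mem b1) (t2 (i, p) ⟨y, hy, b2⟩)⟩
    filter_upwards [hbs.ev_mem, h3, ev_all key, ev_generic,
      ev_fun₂ fun (i : I) (p : P) => (((i, p), 1) : (I × P) × Γ)] with w a1 a2 a3 a4 a5
    refine ⟨_, a1, fun z hz ⟨y, b1, b2⟩ => ?_⟩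
    obtain ⟨i, c1, -, rfl⟩ := (a2 z).1 hz
    obtain ⟨p, c2, c3⟩ := a3 i c1 y b1 b2
    exact ⟨_, (hb _ _).2 ⟨_, a5 i c1 p (a4.mem p c2), trivial, by rw [one_smul]⟩, c3⟩
  filter_upwards [this, ev_MS_trans (𝓕 := 𝓕)] with w hw ht v a
  obtain ⟨b, h1, h2⟩ := hw _ (fun i => (v i).2) a a.2
  refine ⟨⟨b, h1⟩, fun x hx ⟨y, hy⟩ => ?_⟩
  rw [sat_iff, snoc_coe, snoc_coe] at hy
  obtain ⟨y', h3, h4⟩ := h2 x hx ⟨y, y.2, hy⟩
  exact ⟨⟨y', ht _ h1 _ h3⟩, h3, by rwa [sat_iff, snoc_coe, snoc_coe]⟩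

theorem ev_zf [Conj 𝓕] : ∀ᶠ w in gen P, TransModelZF (MS 𝓕 w) := by
  filter_upwards [ev_MS_trans (𝓕 := 𝓕),
    ev_all_MS (𝓕 := 𝓕) (Φ := fun x w => ∀ y ∈ MS 𝓕 w, ({x, y} : ZFSet) ∈ MS 𝓕 w) fun x hx =>
      ev_all_MS fun y hy => (hx.upair hy).ev_mem,
    ev_all_MS (𝓕 := 𝓕) (Φ := fun x w => ZFSet.sUnion x ∈ MS 𝓕 w) fun x hx => hx.sUnion.ev_mem,
    (sn_omega (𝓕 := 𝓕)).ev_mem,
    ev_all_MS (𝓕 := 𝓕) (Φ := fun x w => ZFSet.sep (· ∈ MS 𝓕 w) (ZFSet.powerset x) ∈ MS 𝓕 w)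
      fun x hx => hx.power.ev_mem,
    ev_sep (𝓕 := 𝓕), ev_coll (𝓕 := 𝓕)] with w h1 h2 h3 h4 h5 h6 h7
  refine ⟨h1, h2, h3, h4, fun x hx => ⟨_, h5 x hx, fun z h1 h2 => ?_⟩, h6, fun n φ v a h => ?_⟩
  · exact ZFSet.mem_sep.2 ⟨ZFSet.mem_powerset.2 h2, h1⟩
  · obtain ⟨b, hb⟩ := h7 n φ v a
    exact ⟨b, fun x hx => hb x hx (h x hx).exists⟩

end Pool.Agent.P.MP_f0e779_lc
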