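import Pool.Agent.P.MP_f0e779_lc.Sym

/-! Topological notions in symmetric extensions. -/

open Filter Set

namespace Pool.Agent.P.MP_f0e779_lc

open Pool.Agent.Lib.Helper87

/-- application of a function -/
noncomputable def app (f a : ZFSet.{0}) : ZFSet.{0} :=
  ZFSet.sUnion (ZFSet.sep (fun z => ZFSet.pair a z ∈ f) (ZFSet.sUnion (ZFSet.sUnion f)))

theorem app_eq {f a b : ZFSet.{0}} (h : ZFSet.pair a b ∈ f)
    (h' : ∀ z, ZFSet.pair a z ∈ f → z = b) : app f a = b := by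
  ext t
  simp only [app, ZFSet.mem_sUnion, ZFSet.mem_sep]
  constructor
  · rintro ⟨z, ⟨-, h1⟩, h2⟩
    rwa [← h' z h1]
  · intro ht
    exact ⟨b, ⟨⟨{a, b}, ⟨_, h, by simp [ZFSet.pair]⟩, by simp⟩, h⟩, ht⟩

theorem mem_seq {x : ℕ → ZFSet.{0}} {z : ZFSet.{0}} :
    z ∈ seq x ↔ ∃ n, ZFSet.pair (nat n) (x n) = z := by simp [seq, ZFSet.mem_range]

theorem app_seq (x : ℕ → ZFSet.{0}) (n : ℕ) : app (seq x) (nat n) = x n := by
  refine app_eq (mem_seq.2 ⟨n, rfl⟩) fun z hz => ?_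
  obtain ⟨k, hk⟩ := mem_seq.1 hz
  rw [ZFSet.pair_inj] at hk
  rw [← hk.2, nat_injective hk.1]

theorem rat_injective : Function.Injective rat := by
  intro a b h
  simp only [rat, ZFSet.pair_inj, nat_injective.eq_iff] at h
  exact Rat.ext (by omega) h.2.2

theorem rat_mem_real {q : ℚ} {r : ℝ} : rat q ∈ real r ↔ (q : ℝ) < r := by
  simp only [real, ZFSet.mem_range, rat_injective.eq_iff]
  exact ⟨fun ⟨a, h⟩ => h ▸ a.2, fun h => ⟨⟨q, h⟩, rfl⟩⟩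

open Classical in
/-- the real number coded by a cut -/
noncomputable def rv (z : ZFSet.{0}) : ℝ :=
  (⨆ q : ℚ, if rat q ∈ z then ENNReal.ofReal q else 0).toReal

theorem rv_real {r : ℝ} (h : 0 ≤ r) : rv (real r) = r := by
  have : (⨆ q : ℚ, if (q : ℝ) < r then ENNReal.ofReal q else 0) = ENNReal.ofReal r := by
    refine le_antisymm (iSup_le fun q => ?_) (le_of_forall_lt fun c hc => ?_)
    · split_ifs with h
      exacts [ENNReal.ofReal_le_ofReal h.le, zero_le]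
    · obtain ⟨q, h1, h2, h3⟩ := ENNReal.lt_iff_exists_rat_btwn.1 hc
      have h4 : (q : ℝ) < r := by
        by_contra h4
        exact absurd h3 (not_lt.2 (ENNReal.ofReal_le_ofReal (not_lt.1 h4)))
      exact lt_iSup_iff.2 ⟨q, by rwa [if_pos h4]⟩
  simp only [rv, rat_mem_real]
  rw [this, ENNReal.toReal_ofReal h]

/-- the distance coded by `D` -/
noncomputable def dv (D x y : ZFSet.{0}) : ℝ := rv (app D (ZFSet.pair x y))

/-- finitely many members of `𝒰` cover the elements of `Y` satisfying `Φ` -/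
def Cov (𝒰 Y : ZFSet.{0}) (Φ : ZFSet.{0} → Prop) : Prop :=
  ∃ s : Finset ZFSet.{0}, (∀ U ∈ s, U ∈ 𝒰) ∧ ∀ x ∈ Y, Φ x → ∃ U ∈ s, x ∈ U

/-- `D` codes a metric inducing `τ` -/
structure Met (D X τ : ZFSet.{0}) : Prop where
  sub : ∀ U ∈ τ, U ⊆ X
  eq : ∀ x ∈ X, ∀ y ∈ X, dv D x y = 0 ↔ x = y
  symm : ∀ x ∈ X, ∀ y ∈ X, dv D x y = dv D y x
  tri : ∀ x ∈ X, ∀ y ∈ X, ∀ z ∈ X, dv D x z ≤ dv D x y + dv D y z
  nhd : ∀ U ∈ τ, ∀ x ∈ U, ∃ q : ℚ, 0 < q ∧ ∀ y ∈ X, dv D x y < q → y ∈ U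
  ball : ∀ x ∈ X, ∀ q : ℚ, ∃ U ∈ τ, ∀ y ∈ X, y ∈ U ↔ dv D x y < q

variable {P : Type} {Γ : Type} [Group Γ] [MulAction Γ P] [Preorder P] [OrdAct Γ P]
  {𝓕 : Filter Γ} {x y z D D' X τ : World P → ZFSet.{0}}

theorem SN.app (h : SN 𝓕 x) (h' : SN 𝓕 y) : SN 𝓕 fun w => app (x w) (y w) :=
  (h.sUnion.sUnion.sep (Φ := fun z w => ZFSet.pair (y w) z ∈ x w)
    (fun _ hz => (h'.pair hz).mmem h)
    ((h.inv.prod h'.inv).map fun t z => ZFSet.pair t.2 z ∈ t.1)).sUnion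

theorem sn_rat (q : ℚ) : SN 𝓕 fun _ : World P => rat q :=
  (sn_nat _).pair ((sn_nat _).pair (sn_nat _))

theorem sn_real (r : ℝ) : SN 𝓕 fun _ : World P => real r :=
  sn_range (fun q : {q : ℚ // (q : ℝ) < r} => sn_rat q.1) (inv_const _)

theorem sn_seq {x : ℕ → World P → ZFSet.{0}} (hx : ∀ n, SN 𝓕 (x n))
    (hi : Inv 𝓕 fun w n => x n w) : SN 𝓕 fun w => seq fun n => x n w :=
  sn_range (fun n => (sn_nat n).pair (hx n)) (hi.map seq)

theorem SN.prod (h : SN 𝓕 x) (h' : SN 𝓕 y) : SN 𝓕 fun w => ZFSet.prod (x w) (y w) := by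
  obtain ⟨I, u, Ψ, h1, h2, h3⟩ := h.exists_index
  obtain ⟨J, v, Φ, h4, h5, h6⟩ := h'.exists_index
  refine sn_of_mem_iff (I := I × J) (fun k => (h1 k.1).pair (h4 k.2))
    (fun k => (h2 k.1).and (h5 k.2)) ?_ ((h.inv.prod h'.inv).map fun t => ZFSet.prod t.1 t.2)
  filter_upwards [h3, h6, ev_in_prod I J] with w a1 a2 a3 z
  simp only [ZFSet.mem_prod, a1, a2, a3]
  constructor
  · rintro ⟨_, ⟨i, b1, b2, rfl⟩, _, ⟨j, b3, b4, rfl⟩, rfl⟩
    exact ⟨(i, j), ⟨b1, b3⟩, ⟨b2, b4⟩, rfl⟩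
  · rintro ⟨⟨i, j⟩, ⟨b1, b3⟩, ⟨b2, b4⟩, rfl⟩
    exact ⟨_, ⟨i, b1, b2, rfl⟩, _, ⟨j, b3, b4, rfl⟩, rfl⟩

theorem SN.mrv (h : SN 𝓕 x) : Measurable fun w => rv (x w) := by
  classical
  exact (Measurable.iSup fun q => Measurable.ite
    (measurableSet_setOfPred.2 ((sn_rat q).mmem h)) measurable_const measurable_const).ennreal_toReal

theorem SN.mdv (hD : SN 𝓕 D) (h : SN 𝓕 x) (h' : SN 𝓕 y) :
    Measurable fun w => dv (D w) (x w) (y w) := (hD.app (h.pair h')).mrv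

omit [Group Γ] [MulAction Γ P] [OrdAct Γ P] in
theorem mlt {f g : World P → ℝ} (hf : Measurable f) (hg : Measurable g) :
    Measurable fun w => f w < g w := measurableSet_setOfPred.1 (measurableSet_lt hf hg)

omit [Group Γ] [MulAction Γ P] [OrdAct Γ P] in
theorem mle {f g : World P → ℝ} (hf : Measurable f) (hg : Measurable g) :
    Measurable fun w => f w ≤ g w := measurableSet_setOfPred.1 (measurableSet_le hf hg)

omit [Group Γ] [MulAction Γ P] [OrdAct Γ P] in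
theorem meqr {f g : World P → ℝ} (hf : Measurable f) (hg : Measurable g) :
    Measurable fun w => f w = g w := measurableSet_setOfPred.1 (measurableSet_eq_fun hf hg)

omit [OrdAct Γ P] in
theorem meas_cov (h : SN 𝓕 x) (h' : SN 𝓕 y) {Φ : ZFSet.{0} → World P → Prop}
    (hm : ∀ x, SN 𝓕 x → Measurable fun w => Φ (x w) w) :
    Measurable fun w => Cov (x w) (y w) fun z => Φ z w := by
  classical
  refine (Measurable.exists fun n : ℕ => meas_ex_fin (𝓕 := 𝓕) (n := n)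
    (Φ := fun s w => (∀ i, s i ∈ x w) ∧ ∀ z ∈ y w, Φ z w → ∃ i, z ∈ s i) fun s hs =>
      (Measurable.forall fun i => (hs i).mmem h).and (h'.mall fun z hz => (hm z hz).imp
        (Measurable.exists fun i => hz.mmem (hs i)))).congr_ev ?_
  filter_upwards [h.ev_elem] with w hw
  constructor
  · rintro ⟨s, h1, h2⟩
    refine ⟨s.card, fun i => s.equivFin.symm i, fun i => hw _ (h1 _ (s.equivFin.symm i).2),
      fun i => h1 _ (s.equivFin.symm i).2, fun z a1 a2 => ?_⟩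
    obtain ⟨U, b1, b2⟩ := h2 z a1 a2
    exact ⟨s.equivFin ⟨U, b1⟩, by simpa using b2⟩
  · rintro ⟨n, s, -, h1, h2⟩
    refine ⟨Finset.univ.image s, by simpa using h1, fun z a1 a2 => ?_⟩
    obtain ⟨i, hi⟩ := h2 z a1 a2
    exact ⟨_, Finset.mem_image_of_mem _ (Finset.mem_univ i), hi⟩

theorem compact_iff {M : Set ZFSet.{0}} {X τ : ZFSet.{0}} : Compact M X τ ↔
    ∀ 𝒰 ∈ M, 𝒰 ⊆ τ → X ⊆ ZFSet.sUnion 𝒰 → Cov 𝒰 X fun _ => True := by
  simp [Compact, Cov]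

theorem meas_compact (h : SN 𝓕 X) (h' : SN 𝓕 τ) :
    Measurable fun w => Compact (MS 𝓕 w) (X w) (τ w) := by
  simp only [compact_iff]
  exact meas_all_MS fun U hU => (hU.msub h').imp ((h.msub hU.sUnion).imp
    (meas_cov hU h (Φ := fun _ _ => True) fun _ _ => measurable_const))

theorem meas_met (hD : SN 𝓕 D) (h : SN 𝓕 X) (h' : SN 𝓕 τ) :
    Measurable fun w => Met (D w) (X w) (τ w) := by
  have := (h'.mall (Φ := fun U w => U ⊆ X w) fun U hU => hU.msub h).and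
    ((h.mall (Φ := fun x w => ∀ y ∈ X w, dv (D w) x y = 0 ↔ x = y) fun x hx => h.mall
      fun y hy => (meqr (hD.mdv hx hy) measurable_const).iff (hx.meq hy)).and
    ((h.mall (Φ := fun x w => ∀ y ∈ X w, dv (D w) x y = dv (D w) y x) fun x hx => h.mall
      fun y hy => meqr (hD.mdv hx hy) (hD.mdv hy hx)).and
    ((h.mall (Φ := fun x w => ∀ y ∈ X w, ∀ z ∈ X w, dv (D w) x z ≤ dv (D w) x y + dv (D w) y z)
      fun x hx => h.mall (Φ := fun y w => ∀ z ∈ X w,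
        dv (D w) (x w) z ≤ dv (D w) (x w) y + dv (D w) y z) fun y hy => h.mall fun z hz =>
          mle (hD.mdv hx hz) ((hD.mdv hx hy).add (hD.mdv hy hz))).and
    ((h'.mall (Φ := fun U w => ∀ x ∈ U, ∃ q : ℚ, 0 < q ∧ ∀ y ∈ X w, dv (D w) x y < q → y ∈ U)
      fun U hU => hU.mall (Φ := fun x w => ∃ q : ℚ, 0 < q ∧ ∀ y ∈ X w, dv (D w) x y < q → y ∈ U w)
        fun x hx => Measurable.exists fun q => measurable_const.and (h.mall fun y hy =>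
          (mlt (hD.mdv hx hy) measurable_const).imp (hy.mmem hU))).and
    (h.mall (Φ := fun x w => ∀ q : ℚ, ∃ U ∈ τ w, ∀ y ∈ X w, y ∈ U ↔ dv (D w) x y < q)
      fun x hx => Measurable.forall fun q => h'.mex
        (Φ := fun U w => ∀ y ∈ X w, y ∈ U ↔ dv (D w) (x w) y < q) fun U hU => h.mall fun y hy =>
          (hy.mmem hU).iff (mlt (hD.mdv hx hy) measurable_const))))))
  convert this using 3 with w
  exact ⟨fun h => ⟨h.1, h.2, h.3, h.4, h.5, h.6⟩,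
    fun h => ⟨h.1, h.2.1, h.2.2.1, h.2.2.2.1, h.2.2.2.2.1, h.2.2.2.2.2⟩⟩

theorem ev_met (h : SN 𝓕 X) (h' : SN 𝓕 τ) : ∀ᶠ w in gen P, Metrizable (MS 𝓕 w) (X w) (τ w) →
    ∃ D ∈ MS 𝓕 w, Met D (X w) (τ w) := by
  have : ∀ᶠ w in gen P, ∀ D ∈ MS 𝓕 w, ∀ x ∈ MS 𝓕 w, ∀ q : ℚ,
      ZFSet.sep (fun y => dv D x y < q) (X w) ∈ MS 𝓕 w :=
    ev_all_MS fun D hD => ev_all_MS fun x hx => ev_call fun q => SN.ev_mem
      (h.sep (fun y hy => mlt (hD.mdv hx hy) measurable_const)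
        ((hD.inv.prod hx.inv).map fun t y => dv t.1 t.2 y < q))
  filter_upwards [this, h.ev_elem, h'.ev_elem] with w a1 a2 a3 ⟨d, ⟨D, h1, h2⟩, h3, h4, h5, h6⟩
  have e : ∀ x ∈ X w, ∀ y ∈ X w, dv D x y = d x y := fun x hx y hy => by
    have h0 : 0 ≤ d x y := by
      have := h5 x hx y hy x hx
      rw [(h3 x hx x hx).2 rfl, ← h4 x hx y hy] at this
      linarith
    rw [dv, app_eq ((h2 _).2 ⟨x, hx, y, hy, rfl⟩), rv_real h0]
    intro z hz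
    obtain ⟨x', -, y', -, hz⟩ := (h2 _).1 hz
    simp only [ZFSet.pair_inj] at hz
    rw [hz.2, hz.1.1, hz.1.2]
  refine ⟨D, h1, fun U hU => ((h6 U (a3 U hU)).1 hU).1, fun x hx y hy => ?_,
    fun x hx y hy => ?_, fun x hx y hy z hz => ?_, fun U hU x hx => ?_, fun x hx q => ?_⟩
  · rw [e x hx y hy, h3 x hx y hy]
  · rw [e x hx y hy, e y hy x hx, h4 x hx y hy]
  · rw [e x hx y hy, e y hy z hz, e x hx z hz]
    exact h5 x hx y hy z hz
  · obtain ⟨b1, b2⟩ := (h6 U (a3 U hU)).1 hU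
    obtain ⟨ε, b3, b4⟩ := b2 x hx
    obtain ⟨q, b5, b6⟩ := exists_rat_btwn b3
    exact ⟨q, by exact_mod_cast b5, fun y hy h => b4 y hy (by
      rw [← e x (b1 hx) y hy]; exact h.trans b6)⟩
  · refine ⟨_, (h6 _ (a1 D h1 x (a2 x hx) q)).2 ⟨fun y hy => (ZFSet.mem_sep.1 hy).1,
      fun y hy => ?_⟩, fun y hy => by simp [hy]⟩
    obtain ⟨b1, b2⟩ := ZFSet.mem_sep.1 hy
    refine ⟨q - dv D x y, sub_pos.2 b2, fun z hz b3 => ZFSet.mem_sep.2 ⟨hz, ?_⟩⟩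
    have := h5 x hx y b1 z hz
    rw [e x hx y b1] at b3
    rw [e x hx z hz]
    linarith

theorem ev_net (hD : SN 𝓕 D) (h : SN 𝓕 X) (h' : SN 𝓕 τ) : ∀ᶠ w in gen P,
    Compact (MS 𝓕 w) (X w) (τ w) → Met (D w) (X w) (τ w) → ∀ q : ℚ, 0 < q →
      ∃ n, ∃ c : Fin n → ZFSet.{0}, (∀ i, c i ∈ MS 𝓕 w) ∧ (∀ i, c i ∈ X w) ∧
        ∀ x ∈ X w, ∃ i, dv (D w) (c i) x < q := by
  filter_upwards [h.ev_elem, ev_call fun q : ℚ => SN.ev_mem (h'.sep
    (Φ := fun U w => ∃ c ∈ X w, ∀ u ∈ U, dv (D w) c u < q) (fun U hU => h.mex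
      (Φ := fun c w => ∀ u ∈ U w, dv (D w) c u < q) fun c hc => hU.mall fun u hu =>
        mlt (hD.mdv hc hu) measurable_const)
    ((hD.inv.prod h.inv).map fun t U => ∃ c ∈ t.2, ∀ u ∈ U, dv t.1 c u < q))]
    with w a1 a2 hc hm q hq
  obtain ⟨s, b1, b2⟩ := hc _ (a2 q) (fun U hU => (ZFSet.mem_sep.1 hU).1) fun x hx => by
    obtain ⟨U, c1, c2⟩ := hm.ball x hx q
    refine ZFSet.mem_sUnion.2 ⟨U, ZFSet.mem_sep.2 ⟨c1, x, hx, fun u hu =>
      (c2 u (hm.sub U c1 hu)).1 hu⟩, (c2 x hx).2 ?_⟩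
    rw [(hm.eq x hx x hx).2 rfl]
    exact_mod_cast hq
  choose c c1 c2 using fun U : s => (ZFSet.mem_sep.1 (b1 U U.2)).2
  refine ⟨s.card, fun i => c (s.equivFin.symm i), fun i => a1 _ (c1 _), fun i => c1 _,
    fun x hx => ?_⟩
  obtain ⟨U, d1, d2⟩ := b2 x hx
  exact ⟨s.equivFin ⟨U, d1⟩, by simpa using c2 ⟨U, d1⟩ x d2⟩

theorem ev_unif (hD : SN 𝓕 D) (hD' : SN 𝓕 D') (h : SN 𝓕 X) (h' : SN 𝓕 τ) : ∀ᶠ w in gen P,
    Compact (MS 𝓕 w) (X w) (τ w) → Met (D w) (X w) (τ w) → Met (D' w) (X w) (τ w) →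
      ∀ ε : ℚ, 0 < ε → ∃ η : ℚ, 0 < η ∧ ∀ u ∈ X w, ∀ v ∈ X w,
        dv (D' w) u v < η → dv (D w) u v < ε := by
  filter_upwards [ev_call fun ε : ℚ => SN.ev_mem (h'.sep
    (Φ := fun U w => ∃ η : ℚ, 0 < η ∧ ∀ u ∈ U, ∀ v ∈ X w, dv (D' w) u v < η → dv (D w) u v < ε)
    (fun U hU => Measurable.exists fun η => measurable_const.and (hU.mall
      (Φ := fun u w => ∀ v ∈ X w, dv (D' w) u v < η → dv (D w) u v < ε) fun u hu => h.mall
        fun v hv => (mlt (hD'.mdv hu hv) measurable_const).imp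
          (mlt (hD.mdv hu hv) measurable_const)))
    (((hD.inv.prod hD'.inv).prod h.inv).map fun t U => ∃ η : ℚ, 0 < η ∧ ∀ u ∈ U, ∀ v ∈ t.2,
      dv t.1.2 u v < η → dv t.1.1 u v < ε))] with w a2 hc hm hm' ε hε
  obtain ⟨s, b1, b2⟩ := hc _ (a2 ε) (fun U hU => (ZFSet.mem_sep.1 hU).1) fun x hx => by
    obtain ⟨V, c1, c2⟩ := hm.ball x hx (ε / 2)
    obtain ⟨q, c3, c4⟩ := hm'.nhd V c1 x ((c2 x hx).2 (by
      rw [(hm.eq x hx x hx).2 rfl]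
      exact_mod_cast half_pos hε))
    obtain ⟨U, c5, c6⟩ := hm'.ball x hx (q / 2)
    refine ZFSet.mem_sUnion.2 ⟨U, ZFSet.mem_sep.2 ⟨c5, q / 2, half_pos c3, fun u hu v hv huv =>
      ?_⟩, (c6 x hx).2 ?_⟩
    · have hu' := hm.sub U c5 hu
      have e1 := (c6 u hu').1 hu
      have e2 := hm'.tri x hx u hu' v hv
      have e0 : (0 : ℝ) < q := by exact_mod_cast c3
      push_cast at e1 huv
      have e3 := (c2 u hu').1 (c4 u hu' (by linarith))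
      have e4 := (c2 v hv).1 (c4 v hv (by linarith))
      have e5 := hm.tri u hu' x hx v hv
      rw [hm.symm u hu' x hx] at e5
      push_cast at e3 e4
      linarith
    · rw [(hm'.eq x hx x hx).2 rfl]
      exact_mod_cast half_pos c3
  choose η c1 c2 using fun U : s => (ZFSet.mem_sep.1 (b1 U U.2)).2
  obtain ⟨η0, d1, d2⟩ : ∃ η0 : ℚ, 0 < η0 ∧ ∀ U, η0 ≤ η U := by
    obtain ⟨η0, h1, h2⟩ := Pi.exists_forall_pos_add_lt (x := fun _ : s => (0 : ℚ)) (y := η) c1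
    exact ⟨η0, h1, fun U => by simpa using (h2 U).le⟩
  refine ⟨η0, d1, fun u hu v hv huv => ?_⟩
  obtain ⟨U, e1, e2⟩ := b2 u hu
  exact c2 ⟨U, e1⟩ u e2 v hv (huv.trans_le (by exact_mod_cast d2 _))

end Pool.Agent.P.MP_f0e779_lc
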